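import Mathlib

/-!
# MP_09e4ca_co (helper33): basic definitions

Restricted and unrestricted sumsets in an arbitrary commutative group, fibres of a subset of
`ZMod p × ZMod q` over the second coordinate, and the functions used in the column argument.
-/

namespace W09h33

open Finset

/-- `h^A`: sums of `h` pairwise distinct elements of `A`. -/
def rs {G : Type*} [AddCommMonoid G] [DecidableEq G] (A : Finset G) (h : ℕ) : Finset G :=
  (A.powersetCard h).image fun s => ∑ x ∈ s, x

/-- `hA`: sums of `h` elements of `A`, repetitions allowed. -/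
def us {G : Type*} [AddCommMonoid G] [DecidableEq G] (A : Finset G) (h : ℕ) : Finset G :=
  (Fintype.piFinset fun _ : Fin h => A).image fun a => ∑ i, a i

theorem mem_rs {G : Type*} [AddCommMonoid G] [DecidableEq G] {A : Finset G} {h : ℕ} {x : G} :
    x ∈ rs A h ↔ ∃ s ⊆ A, s.card = h ∧ ∑ y ∈ s, y = x := by
  simp [rs, mem_powersetCard, and_assoc]

theorem mem_us {G : Type*} [AddCommMonoid G] [DecidableEq G] {A : Finset G} {h : ℕ} {x : G} :
    x ∈ us A h ↔ ∃ a : Fin h → G, (∀ i, a i ∈ A) ∧ ∑ i, a i = x := by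
  simp [us, Fintype.mem_piFinset]

section fibres

variable {p q : ℕ}

/-- the fibre of `S` over `c`. -/
def fib (S : Finset (ZMod p × ZMod q)) (c : ZMod q) : Finset (ZMod p) :=
  (S.filter fun x => x.2 = c).image Prod.fst

theorem mem_fib {S : Finset (ZMod p × ZMod q)} {c : ZMod q} {x : ZMod p} :
    x ∈ fib S c ↔ (x, c) ∈ S := by
  unfold fib
  rw [mem_image]
  constructor
  · rintro ⟨⟨u, v⟩, huv, hx⟩
    rw [mem_filter] at huv
    obtain ⟨h1, h2⟩ := huv
    simp only at h2 hx
    subst h2; subst hx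
    exact h1
  · intro h
    exact ⟨(x, c), mem_filter.2 ⟨h, rfl⟩, rfl⟩

theorem card_eq_sum_fib [NeZero q] (S : Finset (ZMod p × ZMod q)) :
    S.card = ∑ c, (fib S c).card := by
  rw [card_eq_sum_card_fiberwise (f := Prod.snd) (t := univ) (fun _ _ => mem_coe.2 (mem_univ _))]
  refine sum_congr rfl fun c _ => ?_
  unfold fib
  rw [card_image_of_injOn]
  rintro ⟨u, v⟩ h1 ⟨u', v'⟩ h2 h3
  simp only [coe_filter, Set.mem_ofPred_eq] at h1 h2 h3
  rw [h1.2, h2.2, h3]

end fibres

/-- the class of a vector of multiplicities. -/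
def cls {q : ℕ} [NeZero q] (i : ZMod q → ℕ) : ZMod q := ∑ t, (i t : ZMod q) * t

section columns

variable {ι : Type*} [Fintype ι]

/-- `∑ i_t (a_t - i_t)`. -/
def g (a i : ι → ℕ) : ℕ := ∑ t, i t * (a t - i t)

/-- the basic number of elements chosen in column `t`, for the threshold `y`. -/
def lo (a : ι → ℕ) (y : ℕ) (t : ι) : ℕ := (a t - y) / 2

/-- the columns with `a_t > y`, `a_t - y` odd. -/
def P (a : ι → ℕ) (y : ℕ) : Finset ι := univ.filter fun t => (a t - y) % 2 = 1

/-- the nonempty columns. -/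
def K (a : ι → ℕ) : Finset ι := univ.filter fun t => 0 < a t

/-- `lo` plus one on `R`. -/
def top [DecidableEq ι] (a : ι → ℕ) (y : ℕ) (R : Finset ι) (t : ι) : ℕ :=
  lo a y t + if t ∈ R then 1 else 0

/-- the total deficiency of the nonempty columns below the threshold. -/
def B (a : ι → ℕ) (y : ℕ) : ℕ := ∑ t ∈ K a, (y - a t)

end columns

/-- `f` is at least the value of every admissible vector of multiplicities, class by class. -/
def Fits {q : ℕ} [NeZero q] (a : ZMod q → ℕ) (h : ℕ) (f : ZMod q → ℕ) : Prop :=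
  ∀ i : ZMod q → ℕ, (∀ t, i t ≤ a t) → ∑ t, i t = h → 1 + g a i ≤ f (cls i)

open Classical in
/-- sums `σ(R) + t` with `R ⊆ P`, `|R| = s`, `t ∈ K \ R`. -/
noncomputable def Cl {q : ℕ} [NeZero q] (P K : Finset (ZMod q)) (s : ℕ) : Finset (ZMod q) :=
  univ.filter fun c => ∃ R ⊆ P, R.card = s ∧ ∃ t ∈ K, t ∉ R ∧ ∑ x ∈ R, x + t = c

/-- `ρ₀`: with `k = m % q`, `r = h % q`: `r (k - r)` if `r ≤ k`, `(q - r) (r - k)` otherwise. -/
def rho (q m h : ℕ) : ℕ :=
  if h % q ≤ m % q then (h % q) * (m % q - h % q) else (q - h % q) * (h % q - m % q)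

/-- the defect `δ`. -/
def delta (q m h : ℕ) : ℕ :=
  if m % q = 0 ∧ h % q = 0 then q - 1 else rho q m h - (q - 1)

end W09h33
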