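import Pool.Agent.W_MP_09e4ca_h33.Basic

/-!
# Levels
-/

namespace W09h33

open Finset

/-- `∑_X (e - ℓ x)`, grouped by level. -/
theorem levels_group {α : Type*} [DecidableEq α] (X : Finset α) (l : α → ℕ) (e : ℕ) :
    ∑ x ∈ X, (e - l x) = ∑ j ∈ range e, (X.filter fun x => l x = j).card * (e - j) := by
  have h1 : ∑ x ∈ X, (e - l x) = ∑ x ∈ X.filter (fun x => l x < e), (e - l x) := by
    rw [sum_filter]
    refine sum_congr rfl fun x _ => ?_
    split_ifs with h
    · rfl
    · omega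
  rw [h1, ← sum_fiberwise_of_maps_to (s := X.filter fun x => l x < e) (t := range e) (g := l)
    (fun x hx => mem_range.2 (mem_filter.1 hx).2)]
  refine sum_congr rfl fun j hj => ?_
  have hj' := mem_range.1 hj
  have h2 : (X.filter fun x => l x < e).filter (fun x => l x = j) = X.filter fun x => l x = j := by
    ext x
    simp only [mem_filter]
    constructor
    · rintro ⟨⟨h1, _⟩, h3⟩; exact ⟨h1, h3⟩
    · rintro ⟨h1, h3⟩; exact ⟨⟨h1, by omega⟩, h3⟩
  rw [h2, card_eq_sum_ones, sum_mul]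
  refine sum_congr rfl fun x hx => ?_
  rw [(mem_filter.1 hx).2, one_mul]

/-- Levels, lower bound: `ℓ` a level function on a finite set `X`, at most `b j` elements on level `j`. For every
subset `S` with `h` elements and every `e`: `h e ≤ ∑_S ℓ + ∑_{j < e} b j (e - j)`.

Proof. `h e = ∑_S e ≤ ∑_S ℓ + ∑_S (e - ℓ)` (truncated difference), and
`∑_{s ∈ S} (e - ℓ s) ≤ ∑_{x ∈ X} (e - ℓ x) = ∑_{j < e} #{x ∈ X : ℓ x = j} (e - j)` (`Finset.sum_fiberwise`-like). -/
theorem levels_lower {α : Type*} [DecidableEq α] (X : Finset α) (l : α → ℕ) (b : ℕ → ℕ)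
    (hb : ∀ j, (X.filter fun x => l x = j).card ≤ b j) (S : Finset α) (hS : S ⊆ X) (e : ℕ) :
    S.card * e ≤ ∑ s ∈ S, l s + ∑ j ∈ range e, b j * (e - j) := by
  calc S.card * e = ∑ _s ∈ S, e := by rw [sum_const, smul_eq_mul]
    _ ≤ ∑ s ∈ S, (l s + (e - l s)) := sum_le_sum fun s _ => by omega
    _ = ∑ s ∈ S, l s + ∑ s ∈ S, (e - l s) := sum_add_distrib
    _ ≤ ∑ s ∈ S, l s + ∑ x ∈ X, (e - l x) :=
        Nat.add_le_add_left (sum_le_sum_of_subset hS) _
    _ ≤ _ := by
        rw [levels_group]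
        exact Nat.add_le_add_left (sum_le_sum fun j _ => Nat.mul_le_mul_right _ (hb j)) _

/-- Equality case: if every level `j < e` has exactly `q` elements, `S` has `q e` elements and
`∑_S ℓ = q (0 + 1 + ⋯ + (e - 1))`, i.e. `q e e = ∑_S ℓ + ∑_{j < e} q (e - j)`, then `S` is exactly the set of elements of
level `< e`.

Proof. Let `T = {x ∈ X : ℓ x < e}`, `|T| = q e = |S|`. In the proof of `levels_lower` all inequalities are equalities;
in particular `∑_{s ∈ S} (e - ℓ s) = ∑_{x ∈ X} (e - ℓ x)`, so every `x ∈ X \ S` has `e - ℓ x = 0`, i.e. `T ⊆ S`, and the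
cardinalities agree (`Finset.eq_of_subset_of_card_le`). -/
theorem levels_eq {α : Type*} [DecidableEq α] (X : Finset α) (l : α → ℕ) (q e : ℕ)
    (hb : ∀ j < e, (X.filter fun x => l x = j).card = q) (S : Finset α) (hS : S ⊆ X)
    (hc : S.card = q * e)
    (heq : S.card * e = ∑ s ∈ S, l s + ∑ j ∈ range e, q * (e - j)) :
    S = X.filter fun x => l x < e := by
  have h0 : S.card * e ≤ ∑ s ∈ S, l s + ∑ s ∈ S, (e - l s) := by
    calc S.card * e = ∑ _s ∈ S, e := by rw [sum_const, smul_eq_mul]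
      _ ≤ ∑ s ∈ S, (l s + (e - l s)) := sum_le_sum fun s _ => by omega
      _ = ∑ s ∈ S, l s + ∑ s ∈ S, (e - l s) := sum_add_distrib
  have h1 : ∑ x ∈ X, (e - l x) = ∑ j ∈ range e, q * (e - j) := by
    rw [levels_group]
    exact sum_congr rfl fun j hj => by rw [hb j (mem_range.1 hj)]
  have h2 : ∑ x ∈ X \ S, (e - l x) + ∑ x ∈ S, (e - l x) = ∑ x ∈ X, (e - l x) := sum_sdiff hS
  have h3 : ∑ x ∈ X \ S, (e - l x) = 0 := by omega
  have h4 : (X.filter fun x => l x < e) ⊆ S := by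
    intro x hx
    obtain ⟨hx1, hx2⟩ := mem_filter.1 hx
    by_contra hxS
    have := (sum_eq_zero_iff.1 h3) x (mem_sdiff.2 ⟨hx1, hxS⟩)
    omega
  have h5 : (X.filter fun x => l x < e).card = q * e := by
    rw [card_eq_sum_card_fiberwise (f := l) (t := range e)
      (fun x hx => mem_coe.2 (mem_range.2 (mem_filter.1 (mem_coe.1 hx)).2))]
    rw [sum_congr rfl (g := fun _ => q), sum_const, card_range, smul_eq_mul, mul_comm]
    intro j hj
    have hj' := mem_range.1 hj
    rw [← hb j hj']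
    congr 1
    ext x
    simp only [mem_filter]
    constructor
    · rintro ⟨⟨h1, _⟩, h3⟩; exact ⟨h1, h3⟩
    · rintro ⟨h1, h3⟩; exact ⟨⟨h1, by omega⟩, h3⟩
  exact (eq_of_subset_of_card_le h4 (by rw [hc, h5])).symm

end W09h33
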