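import Pool.Agent.W_MP_09e4ca_h33.Basic

/-!
# Levels: arithmetic
-/

namespace W09h33

open Finset

/-- Arithmetic: with `m = q c + k`, `h = q c' + r`, `k, r < q`, `h ≤ m`, `e = c'` if `r ≤ k` and `e = c' + 1`
otherwise (then `e ≤ c`), the difference `W` between the upper bound `h (c - e) + k e + q e (e - 1) / 2` and the
lower bound `h c' - q c' (c' + 1) / 2` for the level sums satisfies `q W + rho = h (m - h)`. We state it without division,
multiplied by two.

Proof. In integers. If `r ≤ k`, `e = c'`: `W = h (c - c') + k c' + q c' (c' - 1) / 2 - h c' + q c' (c' + 1) / 2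
= h (c - 2 c') + k c' + q c'^2`, and `q W = h (q c - 2 q c') + q k c' + (q c')^2`, with `q c' = h - r`, `q c = m - k`:
`q W = h (m - k - 2 h + 2 r) + k (h - r) + (h - r)^2 = h m - h^2 + r^2 - k r = h (m - h) - r (k - r)`. If `r > k`,
`e = c' + 1`: `W = h (c - c' - 1) + k (c' + 1) + q c' (c' + 1) / 2 - h c' + q c' (c' + 1) / 2 =
h (c - 2 c' - 1) + k (c' + 1) + q c' (c' + 1)`, `q W = h (m - k - 2 h + 2 r - q) + k (h - r + q) + (h - r) (h - r + q)
= h m - h^2 - (q - r) (r - k)` (check: expand both sides). -/
theorem levels_arith (q m h c k c' r e : ℕ) (hq : 0 < q) (hk : k < q) (hr : r < q)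
    (hm : m = q * c + k) (hh : h = q * c' + r) (hhm : h ≤ m)
    (he : (r ≤ k ∧ e = c') ∨ (k < r ∧ e = c' + 1)) :
    e ≤ c ∧ ∃ W : ℕ, 2 * (h * (c - e) + k * e) + q * (e * (e - 1)) + q * (c' * (c' + 1))
        = 2 * W + 2 * (h * c') ∧
      q * W + rho q m h = h * (m - h) := by
  have hhq : h % q = r := by
    rw [hh, Nat.mul_add_mod]
    exact Nat.mod_eq_of_lt hr
  have hmq : m % q = k := by
    rw [hm, Nat.mul_add_mod]
    exact Nat.mod_eq_of_lt hk
  rcases he with ⟨hrk, rfl⟩ | ⟨hkr, rfl⟩
  · have hc : e ≤ c := by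
      by_contra hcon
      have h1 : c + 1 ≤ e := by omega
      have h2 : q * (c + 1) ≤ q * e := Nat.mul_le_mul_left q h1
      rw [mul_add, mul_one] at h2
      omega
    obtain ⟨a, rfl⟩ := Nat.exists_eq_add_of_le hc
    obtain ⟨b, rfl⟩ := Nat.exists_eq_add_of_le hrk
    refine ⟨hc, h * a + b * e, ?_, ?_⟩
    · have h1 : e + a - e = a := by omega
      rw [h1]
      have h2 : e * (e - 1) + e * (e + 1) = 2 * (e * e) := by
        rcases Nat.eq_zero_or_pos e with h0 | h0
        · subst h0; simp
        · obtain ⟨x, rfl⟩ := Nat.exists_eq_add_of_le h0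
          have h3 : 1 + x - 1 = x := by omega
          rw [h3]; ring
      have h3 : q * (e * (e - 1)) + q * (e * (e + 1)) = 2 * (q * (e * e)) := by
        rw [← mul_add, h2]; ring
      rw [add_assoc, h3, hh]
      ring
    · have h1 : rho q m h = r * b := by
        unfold rho
        rw [hhq, hmq, if_pos hrk]
        congr 1
        omega
      have h2 : m - h = q * a + b := by
        rw [hm, hh, mul_add]
        omega
      rw [h1, h2, hh]
      ring
  · have hc : c' + 1 ≤ c := by
      by_contra hcon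
      have h1 : c ≤ c' := by omega
      have h2 : q * c ≤ q * c' := Nat.mul_le_mul_left q h1
      omega
    obtain ⟨a, rfl⟩ := Nat.exists_eq_add_of_le hc
    obtain ⟨b, rfl⟩ := Nat.exists_eq_add_of_le hkr.le
    obtain ⟨d, rfl⟩ := Nat.exists_eq_add_of_le hr.le
    refine ⟨hc, h * a + k + (d + k) * c', ?_, ?_⟩
    · have h1 : c' + 1 + a - (c' + 1) = a := by omega
      have h2 : c' + 1 - 1 = c' := by omega
      rw [h1, h2, hh]
      ring
    · have h1 : rho (k + b + d) m h = d * b := by
        unfold rho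
        rw [hhq, hmq, if_neg (by omega)]
        congr 1 <;> omega
      have h2 : m - h = (k + b + d) * a + (d + k) := by
        rw [hm, hh]
        have h3 : (k + b + d) * (c' + 1 + a) + k = ((k + b + d) * c' + (k + b)) +
            ((k + b + d) * a + (d + k)) := by ring
        rw [h3]
        omega
      rw [h1, h2, hh]
      ring

end W09h33
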