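import Pool.Agent.W_MP_09e4ca_h33.Basic

/-!
# Upper bounds: intervals
-/

namespace W09h33

open Finset

theorem UpA_low (S : Finset ℕ) : ∑ i ∈ range S.card, i ≤ ∑ x ∈ S, x := by
  induction S using Finset.induction_on_max with
  | empty => simp
  | insert a s ha ih =>
    have hns : a ∉ s := fun h => lt_irrefl a (ha a h)
    rw [card_insert_of_notMem hns, sum_range_succ, sum_insert hns]
    have hsub : s ⊆ range a := fun x hx => mem_range.2 (ha x hx)
    have hc := card_le_card hsub
    rw [card_range] at hc
    omega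

theorem UpA_high (m : ℕ) (S : Finset ℕ) (hS : S ⊆ range m) :
    ∑ x ∈ S, x + ∑ i ∈ range S.card, i ≤ S.card * (m - 1) := by
  have hinj : Set.InjOn (fun x => m - 1 - x) (S : Set ℕ) := by
    intro x hx y hy hxy
    have h1 := mem_range.1 (hS hx)
    have h2 := mem_range.1 (hS hy)
    simp only at hxy
    omega
  have h1 := UpA_low (S.image fun x => m - 1 - x)
  rw [card_image_of_injOn hinj, sum_image hinj] at h1
  have h2 : ∑ x ∈ S, x + ∑ x ∈ S, (m - 1 - x) = S.card * (m - 1) := by
    rw [← sum_add_distrib, sum_congr rfl (g := fun _ => m - 1)]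
    · rw [sum_const, smul_eq_mul]
    · intro x hx
      have := mem_range.1 (hS hx)
      omega
  omega

/-- Arithmetic progressions.

Proof. `A = {0, 1, …, m - 1}` in `ZMod n` (image of `range m` under the cast, injective on `range n`, since
`m ≤ n`). A sum of `h` distinct elements of `A` is the cast of a natural number `σ = ∑_{s ∈ S} s`, `S ⊆ range m`,
`|S| = h`, and `h (h - 1) / 2 ≤ σ`, and `σ ≤ h (h - 1) / 2 + h (m - h)` (reflect: `∑ (m - 1 - s) ≥ h (h - 1) / 2`). So
`rs A h` is contained in the image of an interval with `h (m - h) + 1` elements. For the lower bound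
`∑_{s ∈ S} s ≥ ∑_{i < |S|} i` use `Finset.sum_range_id_le_sum`-like lemmas (or induction on `|S|`: remove the
maximum, which is at least `|S| - 1`). -/
theorem upper_ap (n m h : ℕ) [NeZero n] (hm : m ≤ n) (hh : h ≤ m) :
    ∃ A : Finset (ZMod n), A.card = m ∧ (rs A h).card ≤ h * (m - h) + 1 := by
  obtain ⟨L, hL⟩ : ∃ L, L = ∑ i ∈ range h, i := ⟨_, rfl⟩
  have hL2 : L * 2 = h * (h - 1) := by rw [hL, sum_range_id_mul_two]
  have hinj : Set.InjOn (Nat.cast : ℕ → ZMod n) (range m : Set ℕ) := by
    intro x hx y hy hxy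
    have h1 := mem_range.1 (mem_coe.1 hx)
    have h2 := mem_range.1 (mem_coe.1 hy)
    rw [ZMod.natCast_eq_natCast_iff', Nat.mod_eq_of_lt (by omega), Nat.mod_eq_of_lt (by omega)] at hxy
    exact hxy
  refine ⟨(range m).image (Nat.cast : ℕ → ZMod n), ?_, ?_⟩
  · rw [card_image_of_injOn hinj, card_range]
  · have hsub : rs ((range m).image (Nat.cast : ℕ → ZMod n)) h ⊆
        (Icc L (L + h * (m - h))).image (Nat.cast : ℕ → ZMod n) := by
      intro x hx
      rw [mem_rs] at hx
      obtain ⟨s, hs, hcard, hsum⟩ := hx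
      obtain ⟨S, hS, hSs⟩ := subset_image_iff.1 hs
      have hinjS : Set.InjOn (Nat.cast : ℕ → ZMod n) (S : Set ℕ) :=
        hinj.mono (coe_subset.2 hS)
      have hSc : S.card = h := by
        rw [← hcard, ← hSs, card_image_of_injOn hinjS]
      rw [mem_image]
      refine ⟨∑ y ∈ S, y, ?_, ?_⟩
      · have h1 := UpA_low S
        have h2 := UpA_high m S hS
        rw [hSc, ← hL] at h1 h2
        rw [mem_Icc]
        refine ⟨h1, ?_⟩
        rcases Nat.eq_zero_or_pos h with h0 | h0
        · subst h0
          omega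
        · obtain ⟨k, rfl⟩ : ∃ k, h = k + 1 := ⟨h - 1, by omega⟩
          obtain ⟨j, rfl⟩ : ∃ j, m = k + 1 + j := ⟨m - (k + 1), by omega⟩
          have e1 : k + 1 + j - 1 = k + j := by omega
          have e2 : k + 1 + j - (k + 1) = j := by omega
          have e3 : k + 1 - 1 = k := by omega
          rw [e1] at h2
          rw [e2]
          rw [e3] at hL2
          have e4 : (k + 1) * (k + j) = (k + 1) * k + (k + 1) * j := by ring
          omega
      · rw [← hsum, ← hSs, sum_image hinjS]
        push_cast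
        rfl
    refine (card_le_card hsub).trans (card_image_le.trans ?_)
    rw [Nat.card_Icc]
    omega

end W09h33
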