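import Pool.Agent.W_MP_09e4ca_h33.Basic

/-!
# Exponents for the Dias da Silva-Hamidoune theorem
-/

namespace W09h33

open Finset

theorem DA_half (h : ℕ) : (h + 1) * (h + 1 - 1) / 2 = h * (h - 1) / 2 + h := by
  rcases h with _ | k
  · rfl
  · have h1 : (k + 1 + 1) * (k + 1 + 1 - 1) = (k + 1) * (k + 1 - 1) + 2 * (k + 1) := by
      simp only [Nat.add_sub_cancel]
      ring
    rw [h1, Nat.add_mul_div_left _ _ (by norm_num)]

theorem DA_cons {h : ℕ} (c : Fin h → ℕ) (hc : Function.Injective c) (x b : ℕ)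
    (hx : ∀ i, c i < x) (hxb : x < b) :
    Function.Injective (Fin.cons x c : Fin (h + 1) → ℕ) ∧
      (∀ i, (Fin.cons x c : Fin (h + 1) → ℕ) i < b) ∧
      ∑ i, (Fin.cons x c : Fin (h + 1) → ℕ) i = x + ∑ i, c i := by
  refine ⟨?_, ?_, ?_⟩
  · rw [Fin.cons_injective_iff]
    refine ⟨?_, hc⟩
    rintro ⟨i, hi⟩
    have := hx i
    omega
  · intro i
    refine Fin.cases ?_ (fun j => ?_) i
    · simpa using hxb
    · simpa using (hx j).trans hxb
  · rw [Fin.sum_univ_succ]
    simp

theorem DA_aux (d : ℕ) : ∀ h N : ℕ, N ≤ h * d → ∃ c : Fin h → ℕ, Function.Injective c ∧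
    (∀ i, c i < h + d) ∧ ∑ i, c i = N + h * (h - 1) / 2 := by
  intro h
  induction h with
  | zero =>
    intro N hN
    refine ⟨fun i => i.elim0, fun i => i.elim0, fun i => i.elim0, ?_⟩
    have : N = 0 := by omega
    subst this
    simp
  | succ h ih =>
    intro N hN
    rcases Nat.lt_or_ge N d with h1 | h1
    · obtain ⟨a1, a2, a3⟩ := DA_cons (fun i : Fin h => (i : ℕ)) Fin.val_injective (h + N)
        (h + 1 + d) (fun i => by have := i.2; omega) (by omega)
      refine ⟨_, a1, a2, ?_⟩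
      have h2 : ∑ i : Fin h, (i : ℕ) = h * (h - 1) / 2 := by
        rw [Fin.sum_univ_eq_sum_range (fun i => i) h, Finset.sum_range_id]
      rw [a3, h2, DA_half]
      omega
    · obtain ⟨c, c1, c2, c3⟩ := ih (N - d) (by
        rw [Nat.add_mul] at hN
        omega)
      obtain ⟨a1, a2, a3⟩ := DA_cons c c1 (h + d) (h + 1 + d) c2 (by omega)
      refine ⟨_, a1, a2, ?_⟩
      rw [a3, c3, DA_half]
      omega

/-- For `h ≤ n` and `N ≤ h (n - h)` there are `h` distinct integers in `[0, n)` with sum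
`N + h (h - 1) / 2`.

Proof. If `h = 0` or `n = h` then `N = 0` and `c i = i` works. Otherwise put `d = n - h > 0`,
`N = s * d + t` with `t < d`, so `s ≤ h` and (`t = 0` if `s = h`). Let
`c i = i + d` if `h - s ≤ i`, `c i = i + t` if `i + 1 = h - s`, and `c i = i` otherwise. It is
strictly increasing, bounded by `h - 1 + d < n`, and the sum is `∑ i + s * d + t`
(if `s = h` there is no `i` with `i + 1 = h - s`, and `t = 0`). Alternatively: induction on `N`,
raising the largest `c i` which can be raised by one. -/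
theorem exists_exponents (n h N : ℕ) (hn : h ≤ n) (hN : N ≤ h * (n - h)) :
    ∃ c : Fin h → ℕ, Function.Injective c ∧ (∀ i, c i < n) ∧
      ∑ i, c i = N + h * (h - 1) / 2 := by
  obtain ⟨c, c1, c2, c3⟩ := DA_aux (n - h) h N hN
  refine ⟨c, c1, fun i => ?_, c3⟩
  have := c2 i
  omega

end W09h33
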