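import Pool.Agent.W_MP_09e4ca_h33.Basic

/-!
# The coefficients of a power of the sum of the variables
-/

namespace W09h33

open Finset MvPolynomial

/-- The coefficient of `x^u`, `|u| = N`, in `(∑ x_i)^N` is the multinomial coefficient: multiplied
by `∏ u_i!` it gives `N!`.

Proof. `Finset.sum_pow_eq_sum_piAntidiag` (or `Finset.sum_pow`), then take coefficients;
`Nat.multinomial_spec`. -/
theorem coeff_sum_X_pow {R : Type*} [CommRing R] (h N : ℕ) (u : Fin h →₀ ℕ)
    (hu : ∑ i, u i = N) :
    ((∏ i, (u i).factorial : ℕ) : R) *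
      coeff u ((∑ i : Fin h, (X i : MvPolynomial (Fin h) R)) ^ N) = (N.factorial : R) := by
  classical
  have h1 : coeff u ((∑ i : Fin h, (X i : MvPolynomial (Fin h) R)) ^ N) =
      ((Nat.multinomial univ u : ℕ) : R) := by
    rw [Finset.sum_pow_eq_sum_piAntidiag, coeff_sum]
    have h2 : ∀ k : Fin h → ℕ, coeff u (((Nat.multinomial univ k : ℕ) : MvPolynomial (Fin h) R) *
        ∏ i, (X i : MvPolynomial (Fin h) R) ^ k i) =
        if k = u then ((Nat.multinomial univ k : ℕ) : R) else 0 := by
      intro k
      have h3 : (∏ i, (X i : MvPolynomial (Fin h) R) ^ k i) =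
          monomial (Finsupp.equivFunOnFinite.symm k) 1 := by
        rw [MvPolynomial.monomial_eq, C_1, one_mul, Finsupp.prod_fintype _ _ (fun i => pow_zero _)]
        rfl
      rw [h3, ← C_eq_coe_nat, coeff_C_mul, coeff_monomial]
      by_cases hk : k = u
      · rw [if_pos hk, if_pos (by rw [hk]; exact Finsupp.equivFunOnFinite.symm_apply_apply u), mul_one]
      · rw [if_neg hk, if_neg ?_, mul_zero]
        intro hc
        apply hk
        rw [← hc]
        rfl
    rw [Finset.sum_congr rfl (fun k _ => h2 k), Finset.sum_ite_eq' ]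
    rw [if_pos]
    rw [Finset.mem_piAntidiag]
    exact ⟨hu, fun i _ => Finset.mem_univ i⟩
  rw [h1, ← Nat.cast_mul, Nat.multinomial_spec, hu]

end W09h33
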