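import Pool.Agent.W_MP_09e4ca_h33.DB

/-!
# The coefficient for the Dias da Silva-Hamidoune theorem
-/

namespace W09h33

open Finset MvPolynomial

/-- Coefficient of `x^c` in `(∑ x_i)^N * Vandermonde(x)`, where `∑ c_i = N + h (h - 1) / 2`:
multiplied by `∏ c_i!` it is `N! * Vandermonde(c)`.

Proof. Expand the Vandermonde determinant (`Matrix.det_apply`, rows and columns as convenient, e.g.
after `Matrix.det_transpose`) as `∑ σ, sign σ • ∏ i, X i ^ (σ i : ℕ)`, so each term is
`sign σ • monomial e_σ 1` with `e_σ i = σ i`, `∑ i, e_σ i = ∑ i : Fin h, i = h (h - 1) / 2`. By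
`MvPolynomial.coeff_mul_monomial'` the coefficient of `x^c` in `(∑ x)^N * monomial e_σ 1` is
`coeff (c - e_σ) ((∑ x)^N)` if `e_σ ≤ c` and `0` otherwise. In the first case, by
`coeff_sum_X_pow` (file DB), `∏ (c_i - σ i)! * coeff = N!`, and
`c_i! = (c_i - σ i)! * c_i.descFactorial (σ i)` (`Nat.factorial_mul_descFactorial`), so
`∏ c_i! * coeff = N! * ∏ c_i.descFactorial (σ i)`. In the second case some `σ i > c_i` and
`c_i.descFactorial (σ i) = 0` (`Nat.descFactorial_eq_zero_iff_lt`), so the same identity holds.
Hence `∏ c_i! * (total coefficient) = N! * ∑ σ, sign σ * ∏ i (c_i.descFactorial (σ i))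
= N! * det (fun i j => (c_i.descFactorial j : R))`. Finally
`(c.descFactorial j : R) = (descPochhammer R j).eval (c : R)`
(`descPochhammer_eval_eq_descFactorial`), `descPochhammer R j` is monic of degree `j`
(`monic_descPochhammer`, `descPochhammer_natDegree`; if `R` is trivial everything is trivial), and
`Matrix.det_eval_matrixOfPolynomials_eq_det_vandermonde` finishes. -/
theorem coeff_vandermonde_pow {R : Type*} [CommRing R] [Nontrivial R] [NoZeroDivisors R]
    (h N : ℕ) (c : Fin h →₀ ℕ) (hc : ∑ i, c i = N + h * (h - 1) / 2) :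
    ((∏ i, (c i).factorial : ℕ) : R) *
      coeff c ((∑ i : Fin h, (X i : MvPolynomial (Fin h) R)) ^ N *
        (Matrix.vandermonde fun i : Fin h => (X i : MvPolynomial (Fin h) R)).det)
      = (N.factorial : R) * (Matrix.vandermonde fun i : Fin h => ((c i : ℕ) : R)).det := by
  classical
  have hsum : ∀ σ : Equiv.Perm (Fin h), ∑ i, (σ i : ℕ) = h * (h - 1) / 2 := by
    intro σ
    rw [Equiv.sum_comp σ (fun i : Fin h => (i : ℕ)), Fin.sum_univ_eq_sum_range (fun i => i) h,
      Finset.sum_range_id]
  have key : ∀ e : Fin h →₀ ℕ, ∑ i, e i = h * (h - 1) / 2 →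
      ((∏ i, (c i).factorial : ℕ) : R) *
        coeff c ((∑ i : Fin h, (X i : MvPolynomial (Fin h) R)) ^ N * monomial e 1)
      = (N.factorial : R) * ∏ i, ((c i).descFactorial (e i) : R) := by
    intro e he
    rw [coeff_mul_monomial']
    split_ifs with hec
    · have hle : ∀ i, e i ≤ c i := fun i => hec i
      have hN : ∑ i, (c - e) i = N := by
        have h1 : ∑ i, (c - e) i + ∑ i, e i = ∑ i, c i := by
          rw [← Finset.sum_add_distrib]
          refine Finset.sum_congr rfl fun i _ => ?_
          rw [Finsupp.tsub_apply]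
          exact Nat.sub_add_cancel (hle i)
        omega
      have h2 := coeff_sum_X_pow (R := R) h N (c - e) hN
      have h3 : (∏ i, (c i).factorial) =
          (∏ i, ((c - e) i).factorial) * ∏ i, (c i).descFactorial (e i) := by
        rw [← Finset.prod_mul_distrib]
        refine Finset.prod_congr rfl fun i _ => ?_
        rw [Finsupp.tsub_apply]
        exact (Nat.factorial_mul_descFactorial (hle i)).symm
      rw [h3, Nat.cast_mul, mul_one, mul_right_comm, h2, Nat.cast_prod]
    · have hex : ∃ i, c i < e i := by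
        by_contra hcon
        push Not at hcon
        exact hec (fun i => hcon i)
      obtain ⟨i, hi⟩ := hex
      rw [mul_zero, Finset.prod_eq_zero (Finset.mem_univ i), mul_zero]
      rw [Nat.descFactorial_eq_zero_iff_lt.2 hi, Nat.cast_zero]
  have hdet : (Matrix.vandermonde fun i : Fin h => (X i : MvPolynomial (Fin h) R)).det
      = ∑ σ : Equiv.Perm (Fin h), Equiv.Perm.sign σ •
        monomial (Finsupp.equivFunOnFinite.symm fun i => (σ i : ℕ)) (1 : R) := by
    rw [← Matrix.det_transpose, Matrix.det_apply]
    refine Finset.sum_congr rfl fun σ _ => ?_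
    congr 1
    rw [monomial_eq, C_1, one_mul, Finsupp.prod_fintype _ _ (fun i => pow_zero _)]
    refine Finset.prod_congr rfl fun i _ => ?_
    simp [Matrix.transpose_apply, Matrix.vandermonde_apply]
  have hdet2 : (Matrix.vandermonde fun i : Fin h => ((c i : ℕ) : R)).det
      = ∑ σ : Equiv.Perm (Fin h), Equiv.Perm.sign σ • ∏ i, ((c i).descFactorial (σ i : ℕ) : R) := by
    rw [Matrix.det_eval_matrixOfPolynomials_eq_det_vandermonde (fun i : Fin h => ((c i : ℕ) : R))
      (fun i => descPochhammer R i) (fun i => descPochhammer_natDegree R i)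
      (fun i => monic_descPochhammer R i), ← Matrix.det_transpose, Matrix.det_apply]
    refine Finset.sum_congr rfl fun σ _ => ?_
    congr 1
    refine Finset.prod_congr rfl fun i _ => ?_
    simp only [Matrix.transpose_apply, Matrix.of_apply]
    rw [descPochhammer_eval_eq_descFactorial]
  rw [hdet, hdet2, Finset.mul_sum, coeff_sum, Finset.mul_sum, Finset.mul_sum]
  refine Finset.sum_congr rfl fun σ _ => ?_
  have h4 := key (Finsupp.equivFunOnFinite.symm fun i => (σ i : ℕ)) (hsum σ)
  have h5 : ∀ i, (Finsupp.equivFunOnFinite.symm fun i => (σ i : ℕ)) i = (σ i : ℕ) := fun i => rfl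
  simp only [h5] at h4
  rw [Units.smul_def, Units.smul_def, mul_smul_comm, coeff_smul, mul_smul_comm, h4, mul_smul_comm]

end W09h33
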