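import Pool.Agent.W_MP_09e4ca_h33.Basic

/-!
# Top degree part of a product of shifted linear forms
-/

namespace W09h33

open Finset MvPolynomial

/-- top degree part of a product of shifted linear forms: for a finset `C'` of a field `F` and a
homogeneous `V` of degree `D`, the coefficient of a monomial `c` of degree `|C'| + D` in
`∏_{b ∈ C'} (∑ x_i - b) * V` is the one in `(∑ x_i)^{|C'|} * V`, and the total degree of the product
is at most `|C'| + D`.

Proof. Induction on `C'`: multiplying by `(∑ x_i - b)`, the term with `-b` has total degree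
at most `|C'| + D`, less than the degree `|C'| + 1 + D` of `c`, so its coefficient at `c` is zero
(`MvPolynomial.coeff_eq_zero_of_totalDegree_lt`); it is easiest to prove by induction that
`∏_{b ∈ C'} (∑ x_i - b) - (∑ x_i)^{|C'|}` is zero or has total degree `< |C'|`, i.e.: there is a
polynomial `E` with `∏ = (∑ x_i)^{|C'|} + E` and `E` a sum of polynomials of total degree
`< |C'|` (if `C' = ∅`, `E = 0`). -/
theorem coeff_prod_shift {F : Type*} [Field F] [DecidableEq F] {h : ℕ} (C' : Finset F) (D : ℕ)
    (V : MvPolynomial (Fin h) F) (hV : V.IsHomogeneous D) (c : Fin h →₀ ℕ)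
    (hc : ∑ i, c i = C'.card + D) :
    coeff c ((∏ b ∈ C', (∑ i : Fin h, (X i : MvPolynomial (Fin h) F) - C b)) * V)
        = coeff c ((∑ i : Fin h, (X i : MvPolynomial (Fin h) F)) ^ C'.card * V) ∧
      ((∏ b ∈ C', (∑ i : Fin h, (X i : MvPolynomial (Fin h) F) - C b)) * V).totalDegree
        ≤ C'.card + D := by
  have hS1 : (∑ i : Fin h, (X i : MvPolynomial (Fin h) F)).totalDegree ≤ 1 := by
    refine totalDegree_finsetSum_le fun i _ => ?_
    exact (totalDegree_X i).le
  have hS : ∀ b : F, (∑ i : Fin h, (X i : MvPolynomial (Fin h) F) - C b).totalDegree ≤ 1 := by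
    intro b
    refine (totalDegree_sub _ _).trans ?_
    rw [totalDegree_C]
    exact max_le hS1 (Nat.zero_le _)
  induction C' using Finset.induction_on generalizing c with
  | empty =>
    simp only [Finset.prod_empty, Finset.card_empty, pow_zero, one_mul, zero_add, true_and]
    exact hV.totalDegree_le
  | insert a s ha ih =>
    have hdeg : ((∏ b ∈ s, (∑ i : Fin h, (X i : MvPolynomial (Fin h) F) - C b)) * V).totalDegree
        ≤ s.card + D := by
      refine (totalDegree_mul _ _).trans ?_
      refine Nat.add_le_add ?_ hV.totalDegree_le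
      refine (totalDegree_finset_prod _ _).trans ?_
      refine (Finset.sum_le_card_nsmul _ _ 1 (fun b _ => hS b)).trans ?_
      simp
    rw [Finset.card_insert_of_notMem ha] at hc ⊢
    rw [Finset.prod_insert ha, mul_assoc]
    refine ⟨?_, ?_⟩
    · rw [sub_mul, coeff_sub]
      have h0 : coeff c (C a * ((∏ b ∈ s, (∑ i : Fin h, (X i : MvPolynomial (Fin h) F) - C b)) * V))
          = 0 := by
        rw [coeff_C_mul]
        have h1 : coeff c ((∏ b ∈ s, (∑ i : Fin h, (X i : MvPolynomial (Fin h) F) - C b)) * V)
            = 0 := by
          apply coeff_eq_zero_of_totalDegree_lt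
          have h2 : ∑ i ∈ c.support, c i = ∑ i, c i := by
            apply Finset.sum_subset (Finset.subset_univ _)
            intro i _ hi
            exact Finsupp.notMem_support_iff.1 hi
          rw [h2, hc]
          omega
        rw [h1, mul_zero]
      rw [h0, sub_zero, pow_succ', mul_assoc, Finset.sum_mul, Finset.sum_mul, coeff_sum, coeff_sum]
      apply Finset.sum_congr rfl
      intro i _
      rw [coeff_X_mul', coeff_X_mul']
      by_cases hi : i ∈ c.support
      · rw [if_pos hi, if_pos hi]
        refine (ih (c - Finsupp.single i 1) ?_).1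
        have h3 : ∑ j, (c - Finsupp.single i 1 : Fin h →₀ ℕ) j + 1 = ∑ j, c j := by
          have h4 : (c - Finsupp.single i 1) + Finsupp.single i 1 = c := by
            apply tsub_add_cancel_of_le
            rw [Finsupp.single_le_iff]
            exact Nat.one_le_iff_ne_zero.2 (Finsupp.mem_support_iff.1 hi)
          have h5 : ∑ j, c j = ∑ j, ((c - Finsupp.single i 1) + Finsupp.single i 1 : Fin h →₀ ℕ) j := by
            rw [h4]
          rw [h5]
          simp only [Finsupp.add_apply]
          rw [Finset.sum_add_distrib]
          congr 1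
          rw [Finset.sum_eq_single i]
          · simp
          · intro j _ hj
            simp [Finsupp.single_apply, hj.symm]
          · intro hi
            exact absurd (Finset.mem_univ i) hi
        omega
      · rw [if_neg hi, if_neg hi]
    · refine (totalDegree_mul _ _).trans ?_
      have := hS a
      omega

/-- The Vandermonde polynomial is homogeneous of degree `h (h - 1) / 2`.

Proof. `Matrix.det_apply`; each product `∏ i, X (σ i) ^ (i : ℕ)` is homogeneous of degree
`∑ i = h (h - 1) / 2` (`MvPolynomial.IsHomogeneous.prod`, `Finset.sum_range_id`), and sums and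
units multiples of homogeneous polynomials are homogeneous. -/
theorem homogeneous_vandermonde {F : Type*} [Field F] (h : ℕ) :
    ((Matrix.vandermonde fun i : Fin h => (X i : MvPolynomial (Fin h) F)).det).IsHomogeneous
      (h * (h - 1) / 2) := by
  rw [Matrix.det_apply]
  apply IsHomogeneous.sum
  intro σ _
  have hprod : (∏ i, (Matrix.vandermonde fun i : Fin h => (X i : MvPolynomial (Fin h) F)) (σ i) i)
      |>.IsHomogeneous (h * (h - 1) / 2) := by
    have h1 := IsHomogeneous.prod (Finset.univ : Finset (Fin h))
      (fun i => (X (σ i) : MvPolynomial (Fin h) F) ^ (i : ℕ)) (fun i => (i : ℕ))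
      (fun i _ => isHomogeneous_X_pow (σ i) i)
    have h2 : ∑ i : Fin h, (i : ℕ) = h * (h - 1) / 2 := by
      rw [Fin.sum_univ_eq_sum_range (fun i => i) h, Finset.sum_range_id]
    rw [h2] at h1
    simpa [Matrix.vandermonde_apply] using h1
  rcases Int.units_eq_one_or (Equiv.Perm.sign σ) with hσ | hσ
  · rw [hσ, one_smul]
    exact hprod
  · rw [hσ, Units.neg_smul, one_smul]
    exact hprod.neg

end W09h33
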