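import Pool.Agent.W_MP_09e4ca_h33.DA
import Pool.Agent.W_MP_09e4ca_h33.DC
import Pool.Agent.W_MP_09e4ca_h33.DE

/-!
# The Dias da Silva-Hamidoune theorem
-/

namespace W09h33

open Finset MvPolynomial

theorem DD_eval_vand {p : ℕ} [Fact p.Prime] (h : ℕ) (x : Fin h → ZMod p) :
    eval x (Matrix.vandermonde fun i : Fin h => (X i : MvPolynomial (Fin h) (ZMod p))).det =
      (Matrix.vandermonde x).det := by
  rw [RingHom.map_det]
  congr 1
  ext i j
  simp [Matrix.vandermonde_apply]

theorem DD_vanish {p : ℕ} [Fact p.Prime] (A C' : Finset (ZMod p)) (h : ℕ) (hC : rs A h ⊆ C')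
    (x : Fin h → ZMod p) (hx : ∀ i, x i ∈ A) :
    eval x ((∏ b ∈ C', (∑ i : Fin h, (X i : MvPolynomial (Fin h) (ZMod p)) - C b)) *
      (Matrix.vandermonde fun i : Fin h => (X i : MvPolynomial (Fin h) (ZMod p))).det) = 0 := by
  rw [map_mul, DD_eval_vand]
  by_cases hinj : Function.Injective x
  · have hmem : ∑ i, x i ∈ C' := by
      apply hC
      rw [mem_rs]
      refine ⟨univ.image x, ?_, ?_, ?_⟩
      · intro y hy
        obtain ⟨i, -, rfl⟩ := mem_image.1 hy
        exact hx i
      · rw [card_image_of_injective _ hinj, card_univ, Fintype.card_fin]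
      · rw [sum_image fun i _ j _ hij => hinj hij]
    have h0 : eval x (∏ b ∈ C', (∑ i : Fin h, (X i : MvPolynomial (Fin h) (ZMod p)) - C b))
        = 0 := by
      rw [map_prod]
      refine prod_eq_zero hmem ?_
      simp
    rw [h0, zero_mul]
  · have h0 : (Matrix.vandermonde x).det = 0 := by
      by_contra hne
      exact hinj (Matrix.det_vandermonde_ne_zero_iff.1 hne)
    rw [h0, mul_zero]

/-- Dias da Silva-Hamidoune.

Proof (Alon-Nathanson-Ruzsa). Let `n = |A| ≤ p`, `N = min (p - 1) (h (n - h))` and suppose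
`|h^A| ≤ N`. Take `C' ⊇ h^A` with `|C'| = N` (`Finset.exists_superset_card_eq`, `N ≤ p`). Let
`V` be the Vandermonde determinant in `x_1, …, x_h` and `F = ∏_{b ∈ C'} (∑ x_i - b) * V`. `F` vanishes
on `A^h`: if two of the `x_i ∈ A` agree, `V(x) = 0` (`Matrix.det_vandermonde_ne_zero_iff`, evaluation commutes
with the determinant: `RingHom.map_det`, or `Matrix.det_vandermonde` and products), and otherwise
`∑ x_i ∈ h^A ⊆ C'` (the set `image x univ` has `h` elements). Let `c` be as in
`exists_exponents n h N`, with degree `N + h (h - 1) / 2`. By `coeff_prod_shift` the coefficient of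
`x^c` in `F` is that in `(∑ x_i)^N * V`, and by `coeff_vandermonde_pow`, `∏ c_i!` times it is
`N! * ∏_{i<j} (c_j - c_i)`, nonzero in `ZMod p`, since `N < p` and the `c_i < n ≤ p` are distinct
(so distinct in `ZMod p`, `Matrix.det_vandermonde_ne_zero_iff`, `ZMod.natCast_eq_natCast_iff'`). So
the coefficient is nonzero, hence `totalDegree F = N + h (h - 1) / 2` (`≤` from `coeff_prod_shift`, `≥`
since `c` is in the support, `MvPolynomial.le_totalDegree`), and
`MvPolynomial.combinatorial_nullstellensatz_exists_eval_nonzero` with `S i = A` (`c i < n = |A|`)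
gives a point of `A^h` where `F` is nonzero, a contradiction. -/
theorem ddsh {p : ℕ} [Fact p.Prime] (A : Finset (ZMod p)) (h : ℕ) (hh : h ≤ A.card) :
    min p (h * (A.card - h) + 1) ≤ (rs A h).card := by
  by_contra hcon
  push Not at hcon
  have hp : p.Prime := Fact.out
  have hp1 : 1 ≤ p := hp.pos
  obtain ⟨N, hN⟩ : ∃ N, N = min (p - 1) (h * (A.card - h)) := ⟨_, rfl⟩
  have hNp : N < p := by
    have : N ≤ p - 1 := hN ▸ min_le_left _ _
    omega
  have hNh : N ≤ h * (A.card - h) := hN ▸ min_le_right _ _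
  have hrN : (rs A h).card ≤ N := by
    rw [hN]
    have h1 : (rs A h).card < p := lt_of_lt_of_le hcon (min_le_left _ _)
    have h2 : (rs A h).card < h * (A.card - h) + 1 := lt_of_lt_of_le hcon (min_le_right _ _)
    exact le_min (by omega) (by omega)
  have hAp : A.card ≤ p := by
    have := Finset.card_le_univ A
    rwa [ZMod.card] at this
  obtain ⟨C', hC', hC'c⟩ := Finset.exists_superset_card_eq hrN (by rw [ZMod.card]; exact hNp.le)
  obtain ⟨c, hc1, hc2, hc3⟩ := exists_exponents A.card h N hh hNh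
  obtain ⟨t, ht⟩ : ∃ t : Fin h →₀ ℕ, ∀ i, t i = c i := ⟨Finsupp.equivFunOnFinite.symm c, fun i => rfl⟩
  have hts : ∑ i, t i = N + h * (h - 1) / 2 := by
    rw [← hc3]
    exact sum_congr rfl fun i _ => ht i
  obtain ⟨h1, h2⟩ := coeff_prod_shift C' (h * (h - 1) / 2) _ (homogeneous_vandermonde h) t
    (by rw [hts, hC'c])
  have h3 := coeff_vandermonde_pow (R := ZMod p) h N t hts
  have hcne : coeff t ((∏ b ∈ C', (∑ i : Fin h, (X i : MvPolynomial (Fin h) (ZMod p)) - C b)) *
      (Matrix.vandermonde fun i : Fin h => (X i : MvPolynomial (Fin h) (ZMod p))).det) ≠ 0 := by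
    rw [h1, hC'c]
    intro h0
    rw [h0, mul_zero] at h3
    rcases mul_eq_zero.1 h3.symm with h4 | h4
    · rw [ZMod.natCast_eq_zero_iff] at h4
      have := (hp.dvd_factorial).1 h4
      omega
    · refine (Matrix.det_vandermonde_ne_zero_iff.2 ?_) h4
      intro i j hij
      simp only [ht] at hij
      apply hc1
      have hi := hc2 i
      have hj := hc2 j
      rw [ZMod.natCast_eq_natCast_iff'] at hij
      rwa [Nat.mod_eq_of_lt (by omega), Nat.mod_eq_of_lt (by omega)] at hij
  have hdeg : ((∏ b ∈ C', (∑ i : Fin h, (X i : MvPolynomial (Fin h) (ZMod p)) - C b)) *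
      (Matrix.vandermonde fun i : Fin h => (X i : MvPolynomial (Fin h) (ZMod p))).det).totalDegree
      = t.degree := by
    have ht2 : t.degree = N + h * (h - 1) / 2 := by
      rw [← hts, Finsupp.degree_eq_sum]
    apply le_antisymm
    · rw [ht2]
      rw [hC'c] at h2
      exact h2
    · have := le_totalDegree (mem_support_iff.2 hcne)
      rw [ht2, ← hts]
      refine le_trans (le_of_eq ?_) this
      rw [Finsupp.sum_fintype]
      intro i
      rfl
  obtain ⟨x, hx, hxe⟩ := combinatorial_nullstellensatz_exists_eval_nonzero _ t hcne hdeg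
    (fun _ => A) (fun i => by rw [ht]; exact hc2 i)
  exact hxe (DD_vanish A C' h hC' x hx)

end W09h33
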