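import Pool.Agent.W_MP_09e4ca_h33.ColO
import Pool.Agent.W_MP_09e4ca_h33.DD

/-!
# The core inequality: case A
-/

namespace W09h33

open Finset
open scoped Pointwise

/-- The class of `top a y R` is the class of `lo a y` plus the sum of `R`. -/
theorem cls_top {q : ℕ} [NeZero q] (a : ZMod q → ℕ) (y : ℕ) (R : Finset (ZMod q)) :
    cls (top a y R) = cls (lo a y) + ∑ t ∈ R, t := by
  unfold cls top
  have h1 : ∑ t ∈ R, t = ∑ t : ZMod q, if t ∈ R then t else 0 := by
    rw [Finset.sum_ite_mem, Finset.univ_inter]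
  rw [h1, ← Finset.sum_add_distrib]
  refine Finset.sum_congr rfl fun t _ => ?_
  split_ifs <;> push_cast <;> ring

/-- Case A: if `r (π - r) + 1 ≥ q`, every class has the optimal value.

Proof. Let `c` be a class. By `ddsh` in `ZMod q`, `|rs (P a y) r| ≥ min q (r (π - r) + 1) = q`, so
`rs (P a y) r = univ` and there is `R ⊆ P a y`, `|R| = r`, with `∑ t ∈ R, t = c - cls (lo a y)`, i.e.
`cls (top a y R) = c` (`cls_top`). `top a y R` is admissible (`top_le`, `sum_top`), so
`1 + g a (top a y R) ≤ f c`, and `g a j ≤ g a (top a y R)` by `top_opt'`. -/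
theorem case_A {q : ℕ} [Fact q.Prime] (a : ZMod q → ℕ) (y r h : ℕ)
    (hr : r ≤ (P a y).card) (hh : ∑ t, lo a y t + r = h)
    (hrho : q ≤ r * ((P a y).card - r) + 1) (f : ZMod q → ℕ) (hf : Fits a h f)
    (c : ZMod q) (j : ZMod q → ℕ) (hja : ∀ t, j t ≤ a t) (hj : ∑ t, j t = h) :
    1 + g a j ≤ f c := by
  have h1 := ddsh (P a y) r hr
  rw [min_eq_left hrho] at h1
  have h2 : rs (P a y) r = univ := by
    rw [← Finset.card_eq_iff_eq_univ, ZMod.card]
    refine le_antisymm ?_ h1
    have h3 := Finset.card_le_univ (rs (P a y) r)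
    rwa [ZMod.card] at h3
  have h3 : c - cls (lo a y) ∈ rs (P a y) r := by
    rw [h2]
    exact mem_univ _
  rw [mem_rs] at h3
  obtain ⟨R, hRP, hRr, hRs⟩ := h3
  have h4 : cls (top a y R) = c := by
    rw [cls_top, hRs]
    ring
  have h5 : ∑ t, top a y R t = h := by
    rw [sum_top, hRr, hh]
  have h6 := hf (top a y R) (fun t => top_le a y R hRP t) h5
  rw [h4] at h6
  have h7 := top_opt' a y R hRP j hja (hj.trans h5.symm)
  omega

end W09h33
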