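import Pool.Agent.W_MP_09e4ca_h33.DD

/-!
# Many classes of almost optimal vectors
-/

namespace W09h33

open Finset
open scoped Pointwise

theorem mem_Cl {q : ℕ} [NeZero q] {P K : Finset (ZMod q)} {s : ℕ} {c : ZMod q} :
    c ∈ Cl P K s ↔ ∃ R ⊆ P, R.card = s ∧ ∃ t ∈ K, t ∉ R ∧ ∑ x ∈ R, x + t = c := by
  unfold Cl
  rw [mem_filter]
  exact ⟨fun h => h.2, fun h => ⟨mem_univ _, h⟩⟩

theorem cl_card_le {q : ℕ} [Fact q.Prime] (K : Finset (ZMod q)) : K.card ≤ q := by
  have h := card_le_univ K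
  rwa [ZMod.card] at h

/-- the case `s = 1` -/
theorem cl_one {q : ℕ} [Fact q.Prime] (P K : Finset (ZMod q)) (hPK : P ⊆ K)
    (hs : 2 ≤ P.card) (hx : 3 ≤ K.card) : K.card ≤ (Cl P K 1).card := by
  by_contra hcon
  rw [not_le] at hcon
  have hxq := cl_card_le K
  have key : ∀ p ∈ P, ∑ c ∈ Cl P K 1, c = ((K.card : ZMod q) - 2) * p + ∑ t ∈ K, t := by
    intro p hp
    have hinj : Function.Injective (fun t : ZMod q => p + t) := fun a b h => add_left_cancel h
    have hsub : (K.erase p).image (fun t => p + t) ⊆ Cl P K 1 := by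
      intro c hc
      obtain ⟨t, ht, rfl⟩ := mem_image.1 hc
      rw [mem_erase] at ht
      rw [mem_Cl]
      refine ⟨{p}, by rwa [singleton_subset_iff], card_singleton p, t, ht.2, ?_, ?_⟩
      · rw [mem_singleton]; exact ht.1
      · rw [sum_singleton]
    have hcard : ((K.erase p).image (fun t => p + t)).card = K.card - 1 := by
      rw [card_image_of_injective _ hinj, card_erase_of_mem (hPK hp)]
    have heq : (K.erase p).image (fun t => p + t) = Cl P K 1 :=
      eq_of_subset_of_card_le hsub (by rw [hcard]; omega)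
    rw [← heq, sum_image (fun a _ b _ h => hinj h), sum_add_distrib, sum_const,
      card_erase_of_mem (hPK hp), nsmul_eq_mul, Nat.cast_sub (by omega), Nat.cast_one]
    have h2 : ∑ t ∈ K.erase p, t + p = ∑ t ∈ K, t := sum_erase_add K (fun t => t) (hPK hp)
    rw [← h2]
    ring
  obtain ⟨p, hp, p', hp', hne⟩ := one_lt_card.1 (show 1 < P.card by omega)
  have h1 := key p hp
  rw [key p' hp'] at h1
  have h2 : ((K.card : ZMod q) - 2) * (p' - p) = 0 := by linear_combination h1
  rcases mul_eq_zero.1 h2 with h3 | h3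
  · have h4 : ((K.card - 2 : ℕ) : ZMod q) = 0 := by
      rw [Nat.cast_sub (by omega), Nat.cast_ofNat, h3]
    rw [ZMod.natCast_eq_zero_iff] at h4
    have h5 := Nat.le_of_dvd (by omega) h4
    omega
  · exact hne (sub_eq_zero.1 h3).symm

theorem cl_rs_succ {q : ℕ} [NeZero q] (P K : Finset (ZMod q)) (hPK : P ⊆ K) (s : ℕ) :
    rs P (s + 1) ⊆ Cl P K s := by
  intro c hc
  rw [mem_rs] at hc
  obtain ⟨R, hR, hcard, hsum⟩ := hc
  have hne : R.Nonempty := card_pos.1 (by omega)
  obtain ⟨t, ht⟩ := hne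
  rw [mem_Cl]
  refine ⟨R.erase t, (erase_subset _ _).trans hR, ?_, t, hPK (hR ht), notMem_erase t R, ?_⟩
  · rw [card_erase_of_mem ht]; omega
  · rw [sum_erase_add R (fun x => x) ht, hsum]

theorem cl_add_sub {q : ℕ} [NeZero q] (P K : Finset (ZMod q)) (s : ℕ) :
    rs P s + (K \ P) ⊆ Cl P K s := by
  intro c hc
  rw [mem_add] at hc
  obtain ⟨y, hy, t, ht, rfl⟩ := hc
  rw [mem_rs] at hy
  obtain ⟨R, hR, hcard, rfl⟩ := hy
  rw [mem_sdiff] at ht
  rw [mem_Cl]
  exact ⟨R, hR, hcard, t, ht.1, fun h => ht.2 (hR h), rfl⟩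

/-- `q` prime, `P ⊆ K ⊆ ZMod q`, `s + 1 ≤ |P|`, not (`s + 1 = |P| = |K|`). Then there are at least
`|K|` classes of the form `σ(R) + t`, `R ⊆ P`, `|R| = s`, `t ∈ K \ R` (see `Cl` in `Basic`).

Proof. Let `π = |P|`, `x = |K| ≤ q`, `r = s + 1`.
* `s = 0`: `R = ∅`, `Cl P K 0 = K`.
* `s = 1`: then `x ≥ 3` (`x ≥ π ≥ 2` and not `π = x = 2`). Suppose `|Cl| < x`. For every `p ∈ P` the set
  `p + (K \ {p})` (image of `K.erase p` under `t ↦ p + t`) is contained in `Cl` and has `x - 1 ≥ |Cl|`
  elements, so it equals `Cl`. Sum all elements: `∑_{c ∈ Cl} c = (x - 1) p + ∑_{t ∈ K} t - p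
  = (x - 2) p + ∑_{t ∈ K} t`. For two distinct `p, p' ∈ P` this gives `(x - 2) (p - p') = 0` in `ZMod q`,
  so `q ∣ x - 2`, but `1 ≤ x - 2 < q`: contradiction.
* `s ≥ 2`, `P = K`: then `r < x`. `Cl` contains all sums of `r` distinct elements of `P` (`rs P r ⊆ Cl P K s`:
  remove any element of the set), and by `ddsh`, `|rs P r| ≥ min q (r (x - r) + 1) ≥ x` because
  `r (x - r) ≥ x - 1` for `1 ≤ r ≤ x - 1` and `x ≤ q`.
* `s ≥ 2`, `P ≠ K`, `r < π`: so `π ≥ 4`. `Cl ⊇ rs P s + (K \ P)`, and by `ZMod.cauchy_davenport` and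
  `ddsh`, the size is at least `min q (min q (s (π - s) + 1) + (x - π) - 1) ≥ x` as
  `s (π - s) ≥ 2 (π - 2) ≥ π` for `2 ≤ s ≤ π - 2`, and `x ≤ q`.
* `s ≥ 2`, `P ≠ K`, `r = π`: let `D = ∑_{t ∈ P} t`. `rs P s = {D - p : p ∈ P}` has `π` elements, and
  `Cl ⊇ rs P s + (K \ P)`, of size `≥ min q (π + (x - π) - 1) = x - 1`. Moreover `D ∈ Cl` (`R = P` minus one
  element `t`, plus `t ∈ K`), while `D = D - p + t` with `p ∈ P`, `t ∈ K \ P` is impossible. So
  `|Cl| ≥ x`. -/
theorem card_Cl {q : ℕ} [Fact q.Prime] (P K : Finset (ZMod q)) (hPK : P ⊆ K) (s : ℕ)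
    (hs : s + 1 ≤ P.card) (hns : ¬ (s + 1 = P.card ∧ P.card = K.card)) :
    K.card ≤ (Cl P K s).card := by
  have hxq := cl_card_le K
  have hπx := card_le_card hPK
  have hq : q.Prime := Fact.out
  rcases Nat.lt_or_ge s 1 with h0 | h1
  · have hs0 : s = 0 := by omega
    subst hs0
    apply card_le_card
    intro t ht
    rw [mem_Cl]
    exact ⟨∅, empty_subset _, card_empty, t, ht, notMem_empty _, by rw [sum_empty, zero_add]⟩
  rcases Nat.lt_or_ge s 2 with h2 | h2
  · have hs1 : s = 1 := by omega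
    subst hs1
    exact cl_one P K hPK hs (by omega)
  by_cases hPeq : P.card = K.card
  · -- P = K
    have hlt : s + 1 < P.card := by omega
    refine le_trans ?_ (card_le_card (cl_rs_succ P K hPK s))
    refine le_trans ?_ (ddsh P (s + 1) hs)
    obtain ⟨d, hd⟩ : ∃ d, P.card = s + 1 + (d + 1) := ⟨P.card - (s + 2), by omega⟩
    have e1 : P.card - (s + 1) = d + 1 := by omega
    rw [e1, le_min_iff]
    refine ⟨hxq, ?_⟩
    rw [← hPeq, hd]
    nlinarith [Nat.zero_le (s * d)]
  · have hlt : P.card < K.card := by omega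
    have hKP : (K \ P).Nonempty := by
      rw [← card_pos, card_sdiff_of_subset hPK]
      omega
    have hcKP : (K \ P).card = K.card - P.card := card_sdiff_of_subset hPK
    have hdd := ddsh P s (by omega)
    have hne : (rs P s).Nonempty := by
      rw [← card_pos]
      have : 0 < q := hq.pos
      refine lt_of_lt_of_le ?_ hdd
      rw [lt_min_iff]
      omega
    have hcd := ZMod.cauchy_davenport hq hne hKP
    rw [hcKP] at hcd
    rcases Nat.lt_or_ge (s + 1) P.card with h3 | h3
    · refine le_trans ?_ (card_le_card (cl_add_sub P K s))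
      refine le_trans ?_ hcd
      have h4 : P.card + 1 ≤ s * (P.card - s) + 1 := by
        obtain ⟨d, hd⟩ : ∃ d, P.card = s + (d + 2) := ⟨P.card - (s + 2), by omega⟩
        obtain ⟨m, rfl⟩ : ∃ m, s = m + 2 := ⟨s - 2, by omega⟩
        have e1 : P.card - (m + 2) = d + 2 := by omega
        rw [e1, hd]
        nlinarith [Nat.zero_le (m * d)]
      rw [le_min_iff]
      refine ⟨hxq, ?_⟩
      rcases Nat.lt_or_ge q (s * (P.card - s) + 1) with h6 | h6
      · rw [min_eq_left h6.le] at hdd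
        omega
      · rw [min_eq_right h6] at hdd
        omega
    · have hr : s + 1 = P.card := by omega
      have e1 : P.card - s = 1 := by omega
      rw [e1, mul_one, min_eq_right (by omega)] at hdd
      have h5 : K.card - 1 ≤ (rs P s + (K \ P)).card := by
        refine le_trans ?_ hcd
        rw [le_min_iff]
        omega
      have hDmem : ∑ x ∈ P, x ∈ Cl P K s := by
        apply cl_rs_succ P K hPK s
        rw [mem_rs]
        exact ⟨P, Subset.refl _, hr.symm, rfl⟩
      have hDn : ∑ x ∈ P, x ∉ rs P s + (K \ P) := by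
        intro hD
        rw [mem_add] at hD
        obtain ⟨y, hy, t, ht, hyt⟩ := hD
        rw [mem_rs] at hy
        obtain ⟨R, hR, hcard, rfl⟩ := hy
        rw [mem_sdiff] at ht
        have h6 : (P \ R).card = 1 := by
          rw [card_sdiff_of_subset hR]
          omega
        obtain ⟨p, hp⟩ := card_eq_one.1 h6
        have h7 := sum_sdiff (f := fun x : ZMod q => x) hR
        rw [hp, sum_singleton] at h7
        have h8 : t = p := by
          rw [← h7] at hyt
          linear_combination hyt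
        have h9 : p ∈ P \ R := by
          rw [hp]
          exact mem_singleton_self p
        rw [mem_sdiff] at h9
        exact ht.2 (h8 ▸ h9.1)
      have h6 : insert (∑ x ∈ P, x) (rs P s + (K \ P)) ⊆ Cl P K s := by
        rw [insert_subset_iff]
        exact ⟨hDmem, cl_add_sub P K s⟩
      have h7 := card_le_card h6
      rw [card_insert_of_notMem hDn] at h7
      omega

end W09h33
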