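import Pool.Agent.W_MP_09e4ca_h33.Col

/-!
# Columns: moves
-/

namespace W09h33

open Finset

variable {ι : Type*} [Fintype ι] [DecidableEq ι]

/-- Adding one element of a nonempty column outside `P`: admissible, and the value grows by at least
`y - 1 - (y - a_t)`.

Proof. `t ∉ P` so `t ∉ R` and `top a y R t = lo a y t = l`; the column `t` contributes
`(l + 1) (a_t - l - 1) - l (a_t - l) = a_t - 2 l - 1` (in integers). If `a_t > y`, then `a_t - y` is even
and positive, `a_t = y + 2 l`, `l ≥ 1`, and the difference is `y - 1`. If `a_t ≤ y`, `l = 0` and the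
difference is `a_t - 1 ≥ 0`, and `y - a_t` is the truncated difference in the statement. In both cases
`l + 1 ≤ a_t`. -/
theorem g_move (a : ι → ℕ) (y : ℕ) (R : Finset ι) (hR : R ⊆ P a y) (t : ι) (ht : t ∉ P a y)
    (h0 : 0 < a t) :
    (∀ s, (top a y R s + if s = t then 1 else 0) ≤ a s) ∧
      g a (top a y R) + y ≤ g a (fun s => top a y R s + if s = t then 1 else 0) + 1 + (y - a t) := by
  have htR : t ∉ R := fun h => ht (hR h)
  have hpar : (a t - y) % 2 ≠ 1 := fun h => ht (by simp [P, h])
  have htop : top a y R t = (a t - y) / 2 := by simp [top, lo, htR]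
  constructor
  · intro s
    by_cases hs : s = t
    · subst hs
      rw [if_pos rfl, htop]
      omega
    · rw [if_neg hs]
      unfold top lo
      by_cases hsR : s ∈ R
      · have h1 := hR hsR
        simp only [P, mem_filter, mem_univ, true_and] at h1
        rw [if_pos hsR]
        omega
      · rw [if_neg hsR]
        omega
  · unfold g
    rw [← Finset.add_sum_erase univ _ (mem_univ t), ← Finset.add_sum_erase univ (fun s =>
      (top a y R s + if s = t then 1 else 0) * (a s - (top a y R s + if s = t then 1 else 0))) (mem_univ t)]
    have hrest : ∑ s ∈ univ.erase t, top a y R s * (a s - top a y R s) =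
        ∑ s ∈ univ.erase t, (top a y R s + if s = t then 1 else 0) *
          (a s - (top a y R s + if s = t then 1 else 0)) := by
      refine sum_congr rfl fun s hs => ?_
      rw [if_neg (ne_of_mem_erase hs), add_zero]
    rw [← hrest, if_pos rfl, htop]
    have key : (a t - y) / 2 * (a t - (a t - y) / 2) + y ≤
        ((a t - y) / 2 + 1) * (a t - ((a t - y) / 2 + 1)) + 1 + (y - a t) := by
      rcases Nat.lt_or_ge y (a t) with h | h
      · obtain ⟨l, hl⟩ : ∃ l, a t = y + 2 * (l + 1) := ⟨(a t - y) / 2 - 1, by omega⟩
        have e1 : (a t - y) / 2 = l + 1 := by omega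
        have e2 : a t - (l + 1) = y + l + 1 := by omega
        have e3 : a t - (l + 1 + 1) = y + l := by omega
        have e4 : y - a t = 0 := by omega
        rw [e1, e2, e3, e4]
        nlinarith
      · have e1 : (a t - y) / 2 = 0 := by omega
        rw [e1]
        omega
    omega

end W09h33
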