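import Pool.Agent.W_MP_09e4ca_h33.Basic

/-!
# The main inequality for the top value
-/

namespace W09h33

open Finset

variable {ι : Type*} [Fintype ι] [DecidableEq ι]

theorem Ineq_succ (D : ℤ) : 0 ≤ D * (D + 1) := by
  rcases le_or_gt 0 D with h | h
  · positivity
  · have h1 : D + 1 ≤ 0 := by omega
    exact mul_nonneg_of_nonpos_of_nonpos h.le h1

theorem Ineq_pred (D : ℤ) : 0 ≤ D * (D - 1) := by
  have := Ineq_succ (-D)
  linarith [this]

/-- One term of the double sum. -/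
theorem Ineq_term (D u v u' v' : ℤ) (h : (u = 0 ∧ v = 0) ∨ (u = 1 ∧ v = 0) ∨ (u = 0 ∧ v = 1))
    (h' : (u' = 0 ∧ v' = 0) ∨ (u' = 1 ∧ v' = 0) ∨ (u' = 0 ∧ v' = 1)) :
    -(u * v' + v * u') ≤ D * (D + (v - u) - (v' - u')) := by
  have h1 := Ineq_succ D
  have h2 := Ineq_pred D
  have h3 : 0 ≤ D * D := mul_self_nonneg D
  have h4 : 0 ≤ (D + 1) * (D + 1) := mul_self_nonneg _
  have h5 : 0 ≤ (D - 1) * (D - 1) := mul_self_nonneg _
  rcases h with ⟨rfl, rfl⟩ | ⟨rfl, rfl⟩ | ⟨rfl, rfl⟩ <;>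
    rcases h' with ⟨rfl, rfl⟩ | ⟨rfl, rfl⟩ | ⟨rfl, rfl⟩ <;> nlinarith

theorem Ineq_le (a : ι → ℕ) (y : ℕ) (R : Finset ι) (hR : R ⊆ P a y) (t : ι) :
    top a y R t ≤ a t := by
  unfold top lo
  split_ifs with h
  · have h1 := hR h
    unfold P at h1
    rw [mem_filter] at h1
    have h2 := h1.2
    omega
  · omega

theorem Ineq_zero (a : ι → ℕ) (y : ℕ) (R : Finset ι) (hR : R ⊆ P a y) (t : ι) (ht : a t ≤ y) :
    top a y R t = 0 := by
  unfold top lo
  split_ifs with h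
  · have h1 := hR h
    unfold P at h1
    rw [mem_filter] at h1
    have h2 := h1.2
    omega
  · omega

theorem Ineq_eq (a : ι → ℕ) (y : ℕ) (R : Finset ι) (hR : R ⊆ P a y) (t : ι) (ht : y ≤ a t) :
    (a t : ℤ) - (top a y R t : ℤ) = y + top a y R t +
      ((if t ∈ P a y \ R then (1 : ℤ) else 0) - (if t ∈ R then (1 : ℤ) else 0)) := by
  unfold top lo
  by_cases h : t ∈ R
  · have h1 := hR h
    have h3 : t ∉ P a y \ R := fun h4 => (mem_sdiff.1 h4).2 h
    rw [if_pos h, if_neg h3, if_pos h]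
    unfold P at h1
    rw [mem_filter] at h1
    have h2 := h1.2
    omega
  · rw [if_neg h, if_neg h]
    by_cases h1 : t ∈ P a y
    · rw [if_pos (mem_sdiff.2 ⟨h1, h⟩)]
      unfold P at h1
      rw [mem_filter] at h1
      have h2 := h1.2
      omega
    · rw [if_neg (fun h4 => h1 (mem_sdiff.1 h4).1)]
      unfold P at h1
      rw [mem_filter] at h1
      have h2 : ¬ (a t - y) % 2 = 1 := fun h3 => h1 ⟨mem_univ _, h3⟩
      omega

/-- With `i = top a y R`, `h = ∑ i`, `m = ∑ a`, `G = g a i`, `x = |K|`, `π = |P|`, `r = |R|`: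
`h (m - h) + h B ≤ x G + r (π - r)`.

Proof. Work in integers. Let `d_t = a_t - i_t ≥ 0` (`i ≤ a`), so `m - h = ∑ d_t = ∑_{t ∈ K} d_t`
(outside `K`, `a_t = i_t = 0`) and `G = ∑_{s ∈ K} i_s d_s`. Then
`x G - h (m - h) = ∑_{t ∈ K} (G - h d_t) = ∑_{t ∈ K} ∑_{s ∈ K} i_s (d_s - d_t)`.
Split `K` into `K₁ = {a_t ≥ y}` and `K₂ = {a_t < y}`. For `t ∈ K₁`,
`d_t = y + i_t + ε_t`, `ε_t = -1` for `t ∈ R`, `ε_t = 1` for `t ∈ P \ R`, `ε_t = 0` for the other
`t ∈ K₁` (there `a_t - y` is even); for `t ∈ K₂`, `i_t = 0`, `d_t = a_t`.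
(1) For `t ∈ K₂`: `∑_s i_s (d_s - d_t) = ∑_s i_s d_s - h a_t ≥ h y - h a_t = h (y - a_t)`, since
`i_s d_s ≥ i_s y` for all `s` (for `s ∈ K₁`, `i_s (i_s + ε_s) ≥ 0`; otherwise `i_s = 0`).
Also `y - a_t = 0` (truncated) for `t ∈ K₁`, so the sum over `K₂` is at least `h B`.
(2) For `t ∈ K₁`, `s` can be restricted to `K₁` (`i_s = 0` for `s ∈ K₂`). The double sum
`S = ∑_{s,t ∈ K₁} i_s (d_s - d_t)` satisfies `2 S = ∑_{s,t ∈ K₁} (i_s - i_t) (d_s - d_t)
= ∑_{s,t} D (D + ε_s - ε_t)` with `D = i_s - i_t` an integer. Each term is `≥ 0` if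
`|ε_s - ε_t| ≤ 1`, and `≥ -1` if `|ε_s - ε_t| = 2`, which happens only for
`(s, t) ∈ R × (P \ R)` or `(P \ R) × R`. So `2 S ≥ - 2 r (π - r)`. -/
theorem top_ineq (a : ι → ℕ) (y : ℕ) (R : Finset ι) (hR : R ⊆ P a y) (h : ℕ)
    (hh : ∑ t, top a y R t = h) :
    h * (∑ t, a t - h) + h * B a y ≤
      (K a).card * g a (top a y R) + R.card * ((P a y).card - R.card) := by
  have hiA := Ineq_le a y R hR
  have hi0 := Ineq_zero a y R hR
  have hdE := Ineq_eq a y R hR
  generalize top a y R = i at hiA hi0 hdE hh ⊢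
  have hKi : ∀ t, t ∉ K a → a t = 0 := by
    intro t ht
    unfold K at ht
    rw [mem_filter] at ht
    by_contra h1
    exact ht ⟨mem_univ _, Nat.pos_of_ne_zero h1⟩
  have hle : h ≤ ∑ t, a t := by
    rw [← hh]
    exact sum_le_sum fun t _ => hiA t
  have hcard : R.card ≤ (P a y).card := card_le_card hR
  have hG : (g a i : ℤ) = ∑ t, (i t : ℤ) * ((a t : ℤ) - i t) := by
    unfold g
    push_cast
    exact sum_congr rfl fun t _ => by rw [Nat.cast_sub (hiA t)]
  have hh' : (h : ℤ) = ∑ t, (i t : ℤ) := by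
    rw [← hh]
    push_cast
    rfl
  have hm : ((∑ t, a t - h : ℕ) : ℤ) = ∑ t ∈ K a, ((a t : ℤ) - i t) := by
    rw [Nat.cast_sub hle, hh', Nat.cast_sum, ← sum_sub_distrib]
    symm
    refine sum_subset (subset_univ _) fun t _ ht => ?_
    have h1 := hKi t ht
    have h2 := hiA t
    rw [h1] at h2 ⊢
    have h3 : i t = 0 := by omega
    rw [h3]
    norm_num
  have hrow : ∀ t, (g a i : ℤ) - h * ((a t : ℤ) - i t) =
      ∑ s, (i s : ℤ) * (((a s : ℤ) - i s) - ((a t : ℤ) - i t)) := by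
    intro t
    rw [hG, hh', sum_mul, ← sum_sub_distrib]
    exact sum_congr rfl fun s _ => by ring
  have hB : (h : ℤ) * B a y ≤ ∑ t ∈ (K a).filter (fun t => ¬ y ≤ a t),
      ((g a i : ℤ) - h * ((a t : ℤ) - i t)) := by
    have h1 : (B a y : ℤ) = ∑ t ∈ (K a).filter (fun t => ¬ y ≤ a t), ((y : ℤ) - a t) := by
      unfold B
      rw [Nat.cast_sum, ← sum_filter_add_sum_filter_not (K a) (fun t => y ≤ a t)]
      rw [sum_eq_zero (fun t ht => by
        rw [mem_filter] at ht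
        have := ht.2
        have h2 : y - a t = 0 := by omega
        rw [h2]
        rfl), zero_add]
      refine sum_congr rfl fun t ht => ?_
      rw [mem_filter] at ht
      rw [Nat.cast_sub (by omega)]
    rw [h1, mul_sum]
    refine sum_le_sum fun t ht => ?_
    rw [mem_filter] at ht
    have hty : a t < y := by omega
    rw [hrow t, hi0 t hty.le, hh', sum_mul]
    refine sum_le_sum fun s _ => ?_
    rcases le_or_gt (a s) y with hs | hs
    · rw [hi0 s hs]
      norm_num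
    · have h2 := hdE s hs.le
      have h3 : (0 : ℤ) ≤ i s * (i s - 1) := Ineq_pred _
      have h4 : (-1 : ℤ) ≤ (if s ∈ P a y \ R then (1 : ℤ) else 0) - (if s ∈ R then (1 : ℤ) else 0) := by
        split_ifs <;> norm_num
      have h5 : (0 : ℤ) ≤ i s := Nat.cast_nonneg _
      rw [h2]
      push_cast
      nlinarith [mul_le_mul_of_nonneg_left h4 h5]
  have hS : -((R.card : ℤ) * ((P a y).card - R.card)) ≤ ∑ t ∈ (K a).filter (fun t => y ≤ a t),
      ((g a i : ℤ) - h * ((a t : ℤ) - i t)) := by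
    set K1 := (K a).filter (fun t => y ≤ a t) with hK1
    have h1 : ∀ t ∈ K1, (g a i : ℤ) - h * ((a t : ℤ) - i t) =
        ∑ s ∈ K1, (i s : ℤ) * (((a s : ℤ) - i s) - ((a t : ℤ) - i t)) := by
      intro t _
      rw [hrow t]
      symm
      refine sum_subset (subset_univ _) fun s _ hs => ?_
      have h2 : i s = 0 := by
        by_cases hsK : s ∈ K a
        · have h3 : ¬ y ≤ a s := fun h4 => hs (mem_filter.2 ⟨hsK, h4⟩)
          exact hi0 s (by omega)
        · have h3 := hKi s hsK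
          have h4 := hiA s
          omega
      rw [h2]
      norm_num
    rw [sum_congr rfl h1]
    have h2 : ∑ t ∈ K1, ∑ s ∈ K1, (i s : ℤ) * (((a s : ℤ) - i s) - ((a t : ℤ) - i t)) =
        ∑ t ∈ K1, ∑ s ∈ K1, (i t : ℤ) * (((a t : ℤ) - i t) - ((a s : ℤ) - i s)) := by
      rw [sum_comm]
    have h3 : 2 * ∑ t ∈ K1, ∑ s ∈ K1, (i s : ℤ) * (((a s : ℤ) - i s) - ((a t : ℤ) - i t)) =
        ∑ t ∈ K1, ∑ s ∈ K1, ((i s : ℤ) - i t) * (((a s : ℤ) - i s) - ((a t : ℤ) - i t)) := by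
      rw [two_mul]
      nth_rewrite 2 [h2]
      rw [← sum_add_distrib]
      refine sum_congr rfl fun t _ => ?_
      rw [← sum_add_distrib]
      exact sum_congr rfl fun s _ => by ring
    have h4 : ∀ t ∈ K1, ∀ s ∈ K1,
        -((if s ∈ R then (1 : ℤ) else 0) * (if t ∈ P a y \ R then (1 : ℤ) else 0) +
          (if s ∈ P a y \ R then (1 : ℤ) else 0) * (if t ∈ R then (1 : ℤ) else 0)) ≤
        ((i s : ℤ) - i t) * (((a s : ℤ) - i s) - ((a t : ℤ) - i t)) := by
      intro t ht s hs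
      have ht' := (mem_filter.1 ht).2
      have hs' := (mem_filter.1 hs).2
      rw [hdE t ht', hdE s hs']
      have hcs : ∀ z, ((if z ∈ R then (1 : ℤ) else 0) = 0 ∧
          (if z ∈ P a y \ R then (1 : ℤ) else 0) = 0) ∨ ((if z ∈ R then (1 : ℤ) else 0) = 1 ∧
          (if z ∈ P a y \ R then (1 : ℤ) else 0) = 0) ∨ ((if z ∈ R then (1 : ℤ) else 0) = 0 ∧
          (if z ∈ P a y \ R then (1 : ℤ) else 0) = 1) := by
        intro z
        by_cases hz : z ∈ R
        · have hz' : z ∉ P a y \ R := fun h => (mem_sdiff.1 h).2 hz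
          rw [if_pos hz, if_neg hz']
          exact Or.inr (Or.inl ⟨rfl, rfl⟩)
        · rw [if_neg hz]
          split_ifs
          · exact Or.inr (Or.inr ⟨rfl, rfl⟩)
          · exact Or.inl ⟨rfl, rfl⟩
      have h5 := Ineq_term ((i s : ℤ) - i t) _ _ _ _ (hcs s) (hcs t)
      refine h5.trans (le_of_eq ?_)
      ring
    have h5 : -(2 * ((R.card : ℤ) * ((P a y).card - R.card))) ≤
        ∑ t ∈ K1, ∑ s ∈ K1, ((i s : ℤ) - i t) * (((a s : ℤ) - i s) - ((a t : ℤ) - i t)) := by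
      refine le_trans ?_ (sum_le_sum fun t ht => sum_le_sum fun s hs => h4 t ht s hs)
      simp only [sum_neg_distrib]
      refine neg_le_neg ?_
      have h6 : ∑ t ∈ K1, ∑ s ∈ K1,
          ((if s ∈ R then (1 : ℤ) else 0) * (if t ∈ P a y \ R then (1 : ℤ) else 0) +
          (if s ∈ P a y \ R then (1 : ℤ) else 0) * (if t ∈ R then (1 : ℤ) else 0)) ≤
          ∑ t, ∑ s,
          ((if s ∈ R then (1 : ℤ) else 0) * (if t ∈ P a y \ R then (1 : ℤ) else 0) +
          (if s ∈ P a y \ R then (1 : ℤ) else 0) * (if t ∈ R then (1 : ℤ) else 0)) := by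
        have h7 : ∀ t s, (0 : ℤ) ≤
          ((if s ∈ R then (1 : ℤ) else 0) * (if t ∈ P a y \ R then (1 : ℤ) else 0) +
          (if s ∈ P a y \ R then (1 : ℤ) else 0) * (if t ∈ R then (1 : ℤ) else 0)) := by
          intro t s
          split_ifs <;> norm_num
        refine (sum_le_sum fun t _ => sum_le_sum_of_subset_of_nonneg (subset_univ _)
          fun s _ _ => h7 t s).trans ?_
        exact sum_le_sum_of_subset_of_nonneg (subset_univ _) fun t _ _ =>
          sum_nonneg fun s _ => h7 t s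
      refine h6.trans (le_of_eq ?_)
      simp only [sum_add_distrib, ← sum_mul, ← mul_sum, sum_ite_mem, univ_inter, sum_const,
        nsmul_eq_mul, mul_one]
      rw [card_sdiff_of_subset hR, Nat.cast_sub hcard]
      ring
    linarith
  have hsplit : ∑ t ∈ K a, ((g a i : ℤ) - h * ((a t : ℤ) - i t)) =
      (K a).card * (g a i : ℤ) - h * ((∑ t, a t - h : ℕ) : ℤ) := by
    rw [sum_sub_distrib, sum_const, nsmul_eq_mul, hm, mul_sum]
  rw [← sum_filter_add_sum_filter_not (K a) (fun t => y ≤ a t)] at hsplit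
  have hfin : (h : ℤ) * ((∑ t, a t - h : ℕ) : ℤ) + h * B a y ≤
      (K a).card * (g a i : ℤ) + R.card * (((P a y).card - R.card : ℕ) : ℤ) := by
    rw [Nat.cast_sub hcard]
    linarith
  exact_mod_cast hfin

end W09h33
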