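import Pool.Agent.W_MP_09e4ca_h33.CaseA
import Pool.Agent.W_MP_09e4ca_h33.ColM
import Pool.Agent.W_MP_09e4ca_h33.Ineq
import Pool.Agent.W_MP_09e4ca_h33.Classes

/-!
# The core inequality: case B
-/

namespace W09h33

open Finset
open scoped Pointwise

theorem CaseB_cls_move {q : ℕ} [NeZero q] (i : ZMod q → ℕ) (t : ZMod q) :
    cls (fun u => i u + if u = t then 1 else 0) = cls i + t := by
  unfold cls
  simp only [Nat.cast_add, add_mul, sum_add_distrib]
  congr 1
  rw [sum_eq_single t]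
  · simp
  · intro b _ hb
    simp [hb]
  · intro h
    exact absurd (mem_univ t) h

theorem CaseB_sub {ι : Type*} [Fintype ι] (a : ι → ℕ) (y : ℕ) : P a y ⊆ K a := by
  intro t ht
  unfold P at ht
  unfold K
  rw [mem_filter] at ht ⊢
  refine ⟨ht.1, ?_⟩
  by_contra h
  have h0 : a t = 0 := by omega
  rw [h0] at ht
  simp at ht

theorem CaseB_le_B {ι : Type*} [Fintype ι] (a : ι → ℕ) (y : ℕ) {t : ι} (ht : t ∈ K a) :
    y - a t ≤ B a y := by
  unfold B
  exact single_le_sum (f := fun t => y - a t) (fun _ _ => Nat.zero_le _) ht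

/-- Case B: `r = s + 1`, `r (π - r) + 1 < q`, and not (`r = π = |K|`).

Proof. Let `P = P a y`, `K = K a`, `π = |P|`, `x = |K|`, `ρ = r (π - r)`, `B = B a y`,
`G = g a (lo a y) + r y`, so that `G = g a (top a y R)` for all `R ⊆ P` with `|R| = r` (`g_top`), and
`c₀ = cls (lo a y)`.
(1) Let `N₀ = c₀ + rs P r`: for `c ∈ N₀`, `f c ≥ 1 + G`; `|N₀| ≥ min q (ρ + 1) = ρ + 1` by `ddsh`.
(2) For `R ⊆ P`, `|R| = s`, `t ∈ K \ R`, the class `c₀ + σ(R) + t` satisfies: if `t ∈ P`, it is in `N₀`,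
`f ≥ 1 + G`; if `t ∉ P`, `f ≥ 1 + (g a (lo a y) + s y + y - 1 - (y - a_t)) ≥ G - (y - a_t)` in integers (`g_move` and
`g_top` for `R`). In particular for `c ∈ c₀ + Cl P K s`: `f c ≥ G + 1` if `c ∈ N₀`, and always `f c ≥ G - B` in integers,
since `y - a_t ≤ B` for `t ∈ K`.
(3) Fix `R₀ ⊆ P` with `|R₀| = s`, and `D₀ = {c₀ + σ(R₀) + t : t ∈ K \ R₀}`, `x - s` distinct classes. By
`card_Cl`, there is `T` with `D₀ ⊆ T ⊆ c₀ + Cl P K s` and `|T| = x` (`Finset.exists_subsuperset_card_eq`;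
`D₀` has `x - s ≤ x` elements).
(4) In integers, `∑ f ≥ ∑_{c ∈ T} (f c - [c ∈ N₀]) + |N₀|` since `f c ≥ 1` for `c ∈ N₀`. For `c ∈ T`,
`f c - [c ∈ N₀] ≥ G - w c` where for `c = c₀ + σ(R₀) + t ∈ D₀`, `w c = y - a_t` (truncated), with
`∑_{c ∈ D₀} w c ≤ B`, and for the `s` elements of `T \ D₀`, `w c = B`. Hence
`∑ f ≥ x G - B - s B + ρ + 1 = x G - r B + ρ + 1`. By `top_ineq`, `x G + ρ ≥ h (m - h) + h B`, and
`r ≤ h`, so `∑ f ≥ h (m - h) + 1`. -/
theorem case_B {q : ℕ} [Fact q.Prime] (a : ZMod q → ℕ) (y s h : ℕ)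
    (hs : s + 1 ≤ (P a y).card) (hh : ∑ t, lo a y t + (s + 1) = h)
    (hns : ¬ (s + 1 = (P a y).card ∧ (P a y).card = (K a).card))
    (hrho : (s + 1) * ((P a y).card - (s + 1)) + 1 < q)
    (f : ZMod q → ℕ) (hf : Fits a h f) :
    h * (∑ t, a t - h) + 1 ≤ ∑ c, f c := by
  classical
  obtain ⟨c0, hc0⟩ : ∃ c0, c0 = cls (lo a y) := ⟨_, rfl⟩
  obtain ⟨G, hGdef⟩ : ∃ G, G = g a (lo a y) + (s + 1) * y := ⟨_, rfl⟩
  have hPK := CaseB_sub a y
  have hG : ∀ R ⊆ P a y, R.card = s + 1 → g a (top a y R) = G := by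
    intro R hR hc
    rw [g_top a y R hR, hc, hGdef]
  have hN : ∀ R ⊆ P a y, R.card = s + 1 → 1 + G ≤ f (c0 + ∑ t ∈ R, t) := by
    intro R hR hc
    have h1 := hf (top a y R) (top_le a y R hR) (by rw [sum_top, hc, hh])
    rwa [hG R hR hc, cls_top, ← hc0] at h1
  obtain ⟨N0, hN0⟩ : ∃ N0, N0 = (rs (P a y) (s + 1)).image (fun z => c0 + z) := ⟨_, rfl⟩
  have hN0f : ∀ c ∈ N0, 1 + G ≤ f c := by
    intro c hc
    rw [hN0, mem_image] at hc
    obtain ⟨z, hz, rfl⟩ := hc
    rw [mem_rs] at hz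
    obtain ⟨R, hR, hRc, rfl⟩ := hz
    exact hN R hR hRc
  have hN0c : (s + 1) * ((P a y).card - (s + 1)) + 1 ≤ N0.card := by
    rw [hN0, card_image_of_injective _ (add_right_injective c0)]
    have h1 := ddsh (P a y) (s + 1) hs
    rwa [min_eq_right hrho.le] at h1
  -- the moves
  have hmv : ∀ R ⊆ P a y, R.card = s → ∀ t ∈ K a, t ∉ R →
      c0 + (∑ x ∈ R, x + t) ∈ N0 ∨ G ≤ f (c0 + (∑ x ∈ R, x + t)) + (y - a t) := by
    intro R hR hc t ht htR
    by_cases htP : t ∈ P a y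
    · left
      rw [hN0, mem_image]
      refine ⟨_, ?_, rfl⟩
      rw [mem_rs]
      refine ⟨insert t R, ?_, ?_, ?_⟩
      · intro z hz
        rw [mem_insert] at hz
        rcases hz with rfl | hz
        · exact htP
        · exact hR hz
      · rw [card_insert_of_notMem htR, hc]
      · rw [sum_insert htR, add_comm]
    · right
      have h0 : 0 < a t := by
        unfold K at ht
        exact (mem_filter.1 ht).2
      obtain ⟨h1, h2⟩ := g_move a y R hR t htP h0
      have h3 := hf _ h1 (by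
        rw [sum_add_distrib, sum_top, hc, sum_ite_eq' univ t, if_pos (mem_univ t)]
        omega)
      rw [CaseB_cls_move, cls_top, ← hc0, add_assoc] at h3
      rw [g_top a y R hR, hc] at h2
      have h4 : G = g a (lo a y) + s * y + y := by
        rw [hGdef]
        ring
      omega
  obtain ⟨R0, hR0, hR0c⟩ := exists_subset_card_eq (show s ≤ (P a y).card by omega)
  obtain ⟨R1, hR1, hR1c⟩ := exists_subset_card_eq hs
  obtain ⟨e, he⟩ : ∃ e, e = c0 + ∑ x ∈ R0, x := ⟨_, rfl⟩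
  obtain ⟨D0, hD0⟩ : ∃ D0, D0 = (K a \ R0).image (fun t => e + t) := ⟨_, rfl⟩
  obtain ⟨C, hC⟩ : ∃ C, C = (Cl (P a y) (K a) s).image (fun z => c0 + z) := ⟨_, rfl⟩
  have hD0C : D0 ⊆ C := by
    intro c hc
    rw [hD0, mem_image] at hc
    obtain ⟨t, ht, rfl⟩ := hc
    rw [mem_sdiff] at ht
    rw [hC, mem_image]
    refine ⟨∑ x ∈ R0, x + t, ?_, ?_⟩
    · unfold Cl
      rw [mem_filter]
      exact ⟨mem_univ _, R0, hR0, hR0c, t, ht.1, ht.2, rfl⟩
    · rw [he, add_assoc]
  have hCf : ∀ c ∈ C, c ∈ N0 ∨ G ≤ f c + B a y := by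
    intro c hc
    rw [hC, mem_image] at hc
    obtain ⟨z, hz, rfl⟩ := hc
    unfold Cl at hz
    rw [mem_filter] at hz
    obtain ⟨-, R, hR, hRc, t, ht, htR, rfl⟩ := hz
    rcases hmv R hR hRc t ht htR with h1 | h1
    · exact Or.inl h1
    · right
      have h2 := CaseB_le_B a y ht
      omega
  have hDf : ∀ t ∈ K a \ R0, e + t ∈ N0 ∨ G ≤ f (e + t) + (y - a t) := by
    intro t ht
    rw [mem_sdiff] at ht
    have h1 := hmv R0 hR0 hR0c t ht.1 ht.2
    rwa [← add_assoc, ← he] at h1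
  have hR0K : R0 ⊆ K a := hR0.trans hPK
  have hD0c : D0.card = (K a).card - s := by
    rw [hD0, card_image_of_injective _ (add_right_injective e), card_sdiff_of_subset hR0K, hR0c]
  have hCc : (K a).card ≤ C.card := by
    rw [hC, card_image_of_injective _ (add_right_injective c0)]
    exact card_Cl (P a y) (K a) hPK s hs hns
  obtain ⟨T, hDT, hTC, hTc⟩ := exists_subsuperset_card_eq hD0C (by omega : D0.card ≤ (K a).card) hCc
  -- the weights
  obtain ⟨w, hw⟩ : ∃ w : ZMod q → ℕ, w = fun c => if c ∈ D0 then y - a (c - e) else B a y :=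
    ⟨_, rfl⟩
  have hwT : ∑ c ∈ T, w c ≤ (s + 1) * B a y := by
    rw [← sum_sdiff hDT]
    have h1 : ∑ c ∈ T \ D0, w c = (T \ D0).card * B a y := by
      rw [sum_congr rfl (g := fun _ => B a y) (fun c hc => by
        rw [mem_sdiff] at hc
        rw [hw]
        exact if_neg hc.2), sum_const, smul_eq_mul]
    have h2 : ∑ c ∈ D0, w c ≤ B a y := by
      have h3 : ∑ c ∈ D0, w c = ∑ t ∈ K a \ R0, (y - a t) := by
        rw [hD0, sum_image (fun t _ t' _ h => add_right_injective e h)]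
        refine sum_congr rfl fun t ht => ?_
        have h4 : e + t ∈ D0 := by
          rw [hD0]
          exact mem_image_of_mem _ ht
        rw [hw]
        change (if e + t ∈ D0 then y - a (e + t - e) else B a y) = y - a t
        rw [if_pos h4, add_sub_cancel_left]
      rw [h3]
      unfold B
      exact sum_le_sum_of_subset sdiff_subset
    have h5 : (T \ D0).card ≤ s := by
      rw [card_sdiff_of_subset hDT, hTc, hD0c]
      omega
    rw [h1]
    have h6 : (T \ D0).card * B a y ≤ s * B a y := Nat.mul_le_mul_right _ h5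
    have h7 : (s + 1) * B a y = s * B a y + B a y := by ring
    omega
  have hT1 : ∑ c ∈ T, (G + if c ∈ N0 then 1 else 0) ≤ ∑ c ∈ T, (f c + w c) := by
    refine sum_le_sum fun c hc => ?_
    by_cases hcN : c ∈ N0
    · rw [if_pos hcN]
      have := hN0f c hcN
      omega
    · rw [if_neg hcN, add_zero]
      rw [hw]
      change G ≤ f c + if c ∈ D0 then y - a (c - e) else B a y
      split_ifs with hcD
      · rw [hD0, mem_image] at hcD
        obtain ⟨t, ht, rfl⟩ := hcD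
        rw [add_sub_cancel_left]
        exact (hDf t ht).resolve_left hcN
      · exact (hCf c (hTC hc)).resolve_left hcN
  rw [sum_add_distrib, sum_add_distrib, sum_const, smul_eq_mul, hTc] at hT1
  have hT2 : ∑ c ∈ T, (if c ∈ N0 then 1 else 0) = (T ∩ N0).card := by
    rw [← sum_filter, sum_const, smul_eq_mul, mul_one, filter_mem_eq_inter]
  have hT3 : (N0 \ T).card + ∑ c ∈ T, f c ≤ ∑ c, f c := by
    have h1 : (N0 \ T).card ≤ ∑ c ∈ N0 \ T, f c := by
      rw [card_eq_sum_ones]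
      refine sum_le_sum fun c hc => ?_
      have := hN0f c (mem_sdiff.1 hc).1
      omega
    have h2 : ∑ c ∈ N0 \ T, f c ≤ ∑ c ∈ univ \ T, f c :=
      sum_le_sum_of_subset (sdiff_subset_sdiff (subset_univ _) (Subset.refl _))
    have h3 := sum_sdiff (f := f) (subset_univ T)
    omega
  have hT4 : (T ∩ N0).card + (N0 \ T).card = N0.card := by
    rw [inter_comm]
    exact card_inter_add_card_sdiff N0 T
  have htop := top_ineq a y R1 hR1 h (by rw [sum_top, hR1c, hh])
  rw [hG R1 hR1 hR1c, hR1c] at htop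
  have hle : (s + 1) * B a y ≤ h * B a y := Nat.mul_le_mul_right _ (by omega)
  omega

end W09h33
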