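import Pool.Agent.W_MP_09e4ca_h33.Basic

/-!
# Columns: the optimal vectors
-/

namespace W09h33

open Finset

variable {ι : Type*} [Fintype ι] [DecidableEq ι]

/-- Choice of the threshold.

Proof. Let `HI y = ∑ t, (a t - y + 1) / 2` where `a t - y` is truncated; then
`(a t - y + 1) / 2 = lo a y t + (if (a t - y) % 2 = 1 then 1 else 0)`, so
`HI y = ∑ lo a y t + |P a y|`, and `(a t - (y + 1) + 1) / 2 = lo a y t`: indeed if `a t ≥ y + 1`,
`a t - (y + 1) + 1 = a t - y`, and if `a t ≤ y` both sides are `0`. So `HI (y + 1) = ∑ lo a y t`.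
`HI 0 ≥ (∑ a) / 2 ≥ h` (precisely `2 * HI 0 ≥ ∑ a ≥ 2 h`), and `HI y = 0 < h` for
`y ≥ ∑ a + 1`. Take the largest `y` with `h ≤ HI y` (`Nat.findGreatest`), so `HI (y + 1) < h`. -/
theorem exists_y (a : ι → ℕ) (h : ℕ) (h1 : 1 ≤ h) (h2 : 2 * h ≤ ∑ t, a t) :
    ∃ y, ∑ t, lo a y t < h ∧ h ≤ ∑ t, lo a y t + (P a y).card := by
  classical
  let HI : ℕ → ℕ := fun y => ∑ t, (a t - y + 1) / 2
  have hHI : ∀ y, HI y = ∑ t, lo a y t + (P a y).card := by
    intro y
    have h3 : (P a y).card = ∑ t, (if (a t - y) % 2 = 1 then 1 else 0) := by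
      unfold P
      rw [card_filter]
    rw [h3, ← sum_add_distrib]
    refine sum_congr rfl fun t _ => ?_
    unfold lo
    split_ifs <;> omega
  have hlo : ∀ y, HI (y + 1) = ∑ t, lo a y t := by
    intro y
    refine sum_congr rfl fun t _ => ?_
    unfold lo
    omega
  have h0 : h ≤ HI 0 := by
    have h3 : ∑ t, a t ≤ ∑ t, 2 * ((a t - 0 + 1) / 2) := by
      refine sum_le_sum fun t _ => ?_
      omega
    rw [← mul_sum] at h3
    have h4 : HI 0 = ∑ t, (a t - 0 + 1) / 2 := rfl
    omega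
  have hbig : ∀ y, ∑ t, a t ≤ y → HI (y + 1) = 0 := by
    intro y hy
    rw [hlo]
    refine sum_eq_zero fun t _ => ?_
    have h3 : a t ≤ ∑ t, a t := single_le_sum (fun _ _ => Nat.zero_le _) (mem_univ t)
    unfold lo
    omega
  have hg := Nat.findGreatest_spec (P := fun y => h ≤ HI y) (m := 0) (n := ∑ t, a t)
    (Nat.zero_le _) h0
  refine ⟨Nat.findGreatest (fun y => h ≤ HI y) (∑ t, a t), ?_, ?_⟩
  · rw [← hlo]
    by_cases h5 : Nat.findGreatest (fun y => h ≤ HI y) (∑ t, a t) = ∑ t, a t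
    · rw [h5, hbig _ le_rfl]
      exact h1
    · have h6 : Nat.findGreatest (fun y => h ≤ HI y) (∑ t, a t) ≤ ∑ t, a t :=
        Nat.findGreatest_le _
      by_contra h7
      exact Nat.findGreatest_is_greatest (P := fun y => h ≤ HI y)
        (Nat.lt_succ_self (Nat.findGreatest (fun y => h ≤ HI y) (∑ t, a t)))
        (by omega) (not_lt.1 h7)
  · rw [← hHI]
    exact hg

/-- `top a y R ≤ a` for `R ⊆ P a y`.

Proof. On `R`: `a t - y` is odd, so `lo = (a t - y) / 2` and `lo + 1 ≤ a t - y ≤ a t`. -/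
theorem top_le (a : ι → ℕ) (y : ℕ) (R : Finset ι) (hR : R ⊆ P a y) (t : ι) :
    top a y R t ≤ a t := by
  unfold top lo
  split_ifs with h
  · have h1 := hR h
    unfold P at h1
    rw [mem_filter] at h1
    omega
  · omega

/-- The total number: `∑ top = ∑ lo + |R|`. -/
theorem sum_top (a : ι → ℕ) (y : ℕ) (R : Finset ι) :
    ∑ t, top a y R t = ∑ t, lo a y t + R.card := by
  unfold top
  rw [sum_add_distrib]
  congr 1
  rw [← card_filter]
  congr 1
  ext t
  simp

/-- Each raise on `P` adds `y`.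

Proof. For `t ∈ P`, `a t = y + 2 l + 1` with `l = lo a y t`, and
`(l + 1) (a t - (l + 1)) = (l + 1) (y + l) = l (y + l + 1) + y = l (a t - l) + y`. -/
theorem g_top (a : ι → ℕ) (y : ℕ) (R : Finset ι) (hR : R ⊆ P a y) :
    g a (top a y R) = g a (lo a y) + R.card * y := by
  have key : ∀ t, top a y R t * (a t - top a y R t)
      = lo a y t * (a t - lo a y t) + (if t ∈ R then y else 0) := by
    intro t
    unfold top
    split_ifs with h
    · have h1 := hR h
      unfold P at h1
      rw [mem_filter] at h1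
      have h2 := h1.2
      have h3 : a t = y + 2 * lo a y t + 1 := by
        unfold lo
        omega
      generalize lo a y t = l at h3
      rw [h3]
      have e1 : y + 2 * l + 1 - (l + 1) = y + l := by omega
      have e2 : y + 2 * l + 1 - l = y + l + 1 := by omega
      rw [e1, e2]
      ring
    · simp
  unfold g
  rw [sum_congr rfl fun t _ => key t, sum_add_distrib]
  congr 1
  rw [← sum_filter]
  have h4 : (univ.filter fun t => t ∈ R) = R := by
    ext t
    simp
  rw [h4, sum_const, smul_eq_mul]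

end W09h33
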