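import Pool.Agent.W_MP_09e4ca_h33.Col

/-!
# Columns: optimality
-/

namespace W09h33

open Finset

variable {ι : Type*} [Fintype ι] [DecidableEq ι]

theorem ColO_key (a : ι → ℕ) (y : ℕ) (R : Finset ι) (hR : R ⊆ P a y) (t : ι) (x : ℕ) :
    (x : ℤ) * ((a t : ℤ) - y - x) ≤
      (top a y R t : ℤ) * ((a t : ℤ) - y - (top a y R t : ℤ)) := by
  have hmem : t ∈ R → (a t - y) % 2 = 1 := fun h => (mem_filter.1 (hR h)).2
  rcases Nat.lt_or_ge y (a t) with h | h
  · obtain ⟨l, hl⟩ : ∃ l : ℕ, lo a y t = l := ⟨_, rfl⟩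
    obtain ⟨b, hb⟩ : ∃ b : ℕ, a t - y = b := ⟨_, rfl⟩
    have hb' : (a t : ℤ) = y + b := by omega
    have hlb : l = b / 2 := by rw [← hl, ← hb]; rfl
    have hbl : (b : ℤ) - l = l ∨ (b : ℤ) - l = l + 1 := by omega
    have h1 : (top a y R t : ℤ) * ((a t : ℤ) - y - (top a y R t : ℤ)) = l * (b - l) := by
      unfold top
      rw [hl, hb']
      split_ifs with hR'
      · have h2 : (b : ℤ) = 2 * l + 1 := by
          have := hmem hR'
          omega
        rw [h2]
        push_cast
        ring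
      · push_cast
        ring
    rw [h1, hb']
    have h3 : 0 ≤ ((l : ℤ) - x) * ((b : ℤ) - l - x) := by
      rcases le_or_gt (x : ℤ) l with hx | hx
      · exact mul_nonneg (by omega) (by omega)
      · exact mul_nonneg_of_nonpos_of_nonpos (by omega) (by omega)
    nlinarith
  · have h0 : top a y R t = 0 := by
      unfold top lo
      have h1 : a t - y = 0 := by omega
      rw [if_neg]
      · omega
      · intro hR'
        have := hmem hR'
        omega
    rw [h0]
    simp only [Nat.cast_zero, zero_mul]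
    exact mul_nonpos_of_nonneg_of_nonpos (by positivity) (by omega)

/-- Optimality, in integers: no vector `j` of natural numbers (even without `j ≤ a`) with the same total
has a larger value `∑ j_t (a_t - j_t)`.

Proof. Put `φ_t (x) = x (a_t - y - x)` in integers (`a_t - y` not truncated). For each `t` and each
natural number `x`, `φ_t (x) ≤ φ_t (top a y R t)`: if `a_t ≤ y`, the right side is `φ_t 0 = 0` and the
left side is `≤ 0`. If `a_t > y`, let `b = a_t - y`, and `l = b / 2`; `x (b - x) ≤ l (b - l)` because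
`l (b - l) - x (b - x) = (l - x) (b - l - x)` and the two factors have the same sign or one is zero
(`b - l ∈ {l, l + 1}`, integers); for `t ∈ R`, `b = 2 l + 1` and `φ_t (l + 1) = φ_t l`. Sum over `t` and add
`y ∑ j = y ∑ top`. The value `g a (top a y R)` is computed without truncation by `top_le`. -/
theorem top_opt (a : ι → ℕ) (y : ℕ) (R : Finset ι) (hR : R ⊆ P a y) (j : ι → ℕ)
    (hj : ∑ t, j t = ∑ t, top a y R t) :
    ∑ t, (j t : ℤ) * ((a t : ℤ) - j t) ≤ (g a (top a y R) : ℤ) := by
  have h1 : (g a (top a y R) : ℤ) =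
      ∑ t, (top a y R t : ℤ) * ((a t : ℤ) - (top a y R t : ℤ)) := by
    unfold g
    rw [Nat.cast_sum]
    refine sum_congr rfl fun t _ => ?_
    rw [Nat.cast_mul, Nat.cast_sub (top_le a y R hR t)]
  have h2 : ∀ i : ι → ℕ, ∑ t, (i t : ℤ) * ((a t : ℤ) - i t) =
      ∑ t, (i t : ℤ) * ((a t : ℤ) - y - i t) + y * ∑ t, (i t : ℤ) := by
    intro i
    rw [mul_sum, ← sum_add_distrib]
    exact sum_congr rfl fun t _ => by ring
  have h3 : ∑ t, (j t : ℤ) = ∑ t, (top a y R t : ℤ) := by exact_mod_cast hj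
  rw [h1, h2, h2, h3]
  exact add_le_add (sum_le_sum fun t _ => ColO_key a y R hR t (j t)) le_rfl

/-- Optimality for admissible vectors (immediate from `top_opt`). -/
theorem top_opt' (a : ι → ℕ) (y : ℕ) (R : Finset ι) (hR : R ⊆ P a y) (j : ι → ℕ)
    (hja : ∀ t, j t ≤ a t) (hj : ∑ t, j t = ∑ t, top a y R t) :
    g a j ≤ g a (top a y R) := by
  have h1 := top_opt a y R hR j hj
  have h2 : (g a j : ℤ) = ∑ t, (j t : ℤ) * ((a t : ℤ) - j t) := by
    unfold g
    rw [Nat.cast_sum]
    refine sum_congr rfl fun t _ => ?_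
    rw [Nat.cast_mul, Nat.cast_sub (hja t)]
  rw [← h2] at h1
  exact_mod_cast h1

end W09h33
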