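import Pool.Agent.W_MP_09e4ca_h33.Basic

/-!
# Arithmetic of the defect
-/

namespace W09h33

/-- The defect is symmetric under `h ↦ m - h`.

Proof. Let `k = m % q`, `r = h % q`. If `r ≤ k` then `(m - h) % q = k - r ≤ k` and
`rho q m (m - h) = (k - r) (k - (k - r)) = (k - r) r`. If `r > k` then `(m - h) % q = q + k - r > k` and
`rho q m (m - h) = (q - (q + k - r)) (q + k - r - k) = (r - k) (q - r)`. And when `k = 0`, `r = 0` iff
`(m - h) % q = 0`. To compute `(m - h) % q`, write `m = q c + k`, `h = q c' + r`. -/
theorem delta_symm (q m h : ℕ) (hq : 0 < q) (hh : h ≤ m) : delta q m (m - h) = delta q m h := by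
  have hk : m % q < q := Nat.mod_lt _ hq
  have hr : h % q < q := Nat.mod_lt _ hq
  have hm1 : q * (m / q) + m % q = m := Nat.div_add_mod m q
  have hh1 : q * (h / q) + h % q = h := Nat.div_add_mod h q
  have hdiv : h / q ≤ m / q := Nat.div_le_div_right hh
  generalize hkk : m % q = k at *
  generalize hrr : h % q = r at *
  generalize m / q = c at *
  generalize h / q = c' at *
  rcases le_or_gt r k with hrk | hrk
  · have hmod : (m - h) % q = k - r := by
      have h2 : m - h = (k - r) + q * (c - c') := by
        obtain ⟨d, rfl⟩ := Nat.exists_eq_add_of_le hdiv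
        rw [← hm1, ← hh1, Nat.add_sub_cancel_left, Nat.mul_add]
        omega
      rw [h2, Nat.add_mul_mod_self_left, Nat.mod_eq_of_lt (by omega)]
    have e1 : rho q m (m - h) = (k - r) * r := by
      unfold rho
      rw [hkk, hmod, if_pos (by omega)]
      congr 1
      omega
    have e2 : rho q m h = r * (k - r) := by
      unfold rho
      rw [hkk, hrr, if_pos hrk]
    unfold delta
    rw [e1, e2, hkk, hrr, hmod, Nat.mul_comm r (k - r)]
    have : (k = 0 ∧ k - r = 0) ↔ (k = 0 ∧ r = 0) := by omega
    simp only [this]
  · have hc : c' < c := by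
      rcases Nat.lt_or_ge c' c with h3 | h3
      · exact h3
      · exfalso
        have : c' = c := le_antisymm hdiv h3
        subst this
        omega
    have hmod : (m - h) % q = q + k - r := by
      have h2 : m - h = (q + k - r) + q * (c - c' - 1) := by
        obtain ⟨d, rfl⟩ := Nat.exists_eq_add_of_lt hc
        have h5 : c' + d + 1 - c' - 1 = d := by omega
        rw [← hm1, ← hh1, h5, Nat.mul_add, Nat.mul_add, Nat.mul_one]
        omega
      rw [h2, Nat.add_mul_mod_self_left, Nat.mod_eq_of_lt (by omega)]
    have e1 : rho q m (m - h) = (r - k) * (q - r) := by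
      unfold rho
      rw [hkk, hmod, if_neg (by omega)]
      have h6 : q - (q + k - r) = r - k := by omega
      have h7 : q + k - r - k = q - r := by omega
      rw [h6, h7]
    have e2 : rho q m h = (q - r) * (r - k) := by
      unfold rho
      rw [hkk, hrr, if_neg (by omega)]
    unfold delta
    rw [e1, e2, hkk, hrr, hmod, Nat.mul_comm (q - r) (r - k)]
    have : (k = 0 ∧ q + k - r = 0) ↔ (k = 0 ∧ r = 0) := by omega
    simp only [this]

/-- In the excluded range the upper bound is the size of the `h`-fold sumset of a union of cosets.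

Proof. `h < q` so `h % q = h`. Let `m = q c + k`. If `k = 0`: `r = h > 0 = k`,
`rho = (q - h) h`, `(m + q - 1) / q = c`, and (in integers)
`h (m - h) + 1 - ((q - h) h - (q - 1)) = h q c - h q + q = (h (c - 1) + 1) q`. If `k > 0`, `h ≤ k`:
`rho = h (k - h)`, `(m + q - 1) / q = c + 1`, and
`h (m - h) + 1 - (h (k - h) - (q - 1)) = h q c + q = (h c + 1) q`. In both cases `delta > 0` is not of the form
`q - 1` from the first clause (`h % q ≠ 0`), so `delta = rho - (q - 1)` without truncation. -/
theorem excluded_eq (q m h : ℕ) (hq : 0 < q) (h1 : 1 ≤ h) (h2 : h < q) (hm : h < m)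
    (hd : 0 < delta q m h) (hk : m % q = 0 ∨ h ≤ m % q) :
    (h * ((m + q - 1) / q - 1) + 1) * q + delta q m h = h * (m - h) + 1 := by
  have hkq : m % q < q := Nat.mod_lt _ hq
  have hm1 : q * (m / q) + m % q = m := Nat.div_add_mod m q
  have hr : h % q = h := Nat.mod_eq_of_lt h2
  have hdel : delta q m h = rho q m h - (q - 1) := by
    unfold delta
    rw [if_neg]
    rw [hr]
    omega
  rw [hdel] at hd ⊢
  rcases Nat.eq_zero_or_pos (m % q) with h0 | h0
  · -- k = 0
    have hrho : rho q m h = (q - h) * h := by
      unfold rho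
      rw [h0, hr, if_neg (by omega), Nat.sub_zero]
    rw [h0, Nat.add_zero] at hm1
    generalize hc : m / q = c at *
    have hc1 : 1 ≤ c := by
      rcases Nat.eq_zero_or_pos c with h3 | h3
      · subst h3; omega
      · exact h3
    have hdivv : (m + q - 1) / q = c := by
      have : m + q - 1 = (q - 1) + q * c := by omega
      rw [this, Nat.add_mul_div_left _ _ hq, Nat.div_eq_of_lt (by omega), Nat.zero_add]
    rw [hrho] at hd
    rw [hdivv, hrho]
    have hge : q - 1 ≤ (q - h) * h := by omega
    have hm2 : (m : ℤ) = q * c := by rw [← hm1]; push_cast; ring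
    have hq1 : 1 ≤ q := hq
    zify [hge, h2.le, hm.le, hc1, hq1]
    rw [hm2]
    ring
  · rcases hk with hk | hk
    · omega
    have hrho : rho q m h = h * (m % q - h) := by
      unfold rho
      rw [hr, if_pos hk]
    generalize hkk : m % q = k at *
    generalize hc : m / q = c at *
    have hdivv : (m + q - 1) / q = c + 1 := by
      have : m + q - 1 = (k - 1) + q * (c + 1) := by
        rw [Nat.mul_add, Nat.mul_one]; omega
      rw [this, Nat.add_mul_div_left _ _ hq, Nat.div_eq_of_lt (by omega), Nat.zero_add]
    rw [hrho] at hd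
    rw [hdivv, hrho, Nat.add_sub_cancel]
    have hge : q - 1 ≤ h * (k - h) := by omega
    have hm2 : (m : ℤ) = q * c + k := by rw [← hm1]; push_cast; ring
    have hq1 : 1 ≤ q := hq
    zify [hge, h2.le, hm.le, hk, hq1]
    rw [hm2]
    ring

/-- If a finite set of `m > q` elements is distributed over `q` columns, one of them has two elements. -/
theorem exists_two {ι : Type*} [Fintype ι] (a : ι → ℕ) (hm : Fintype.card ι < ∑ t, a t) :
    ∃ t, 2 ≤ a t := by
  by_contra hcon
  push Not at hcon
  have : ∑ t, a t ≤ ∑ _t : ι, 1 := Finset.sum_le_sum fun t _ => by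
    have := hcon t
    omega
  rw [Finset.sum_const, Finset.card_univ, smul_eq_mul, Nat.mul_one] at this
  omega

end W09h33
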