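import Pool.Agent.W_MP_09e4ca_h33.Basic

/-!
# The largest columns
-/

namespace W09h33

open Finset

variable {ι : Type*} [Fintype ι] [DecidableEq ι]

/-- The `s` largest columns.

Proof. Take `U` with `|U| = s` maximizing `∑_{t ∈ U} a t` (`Finset.exists_max_image` on
`univ.powersetCard s`). Exchange: `a u ≤ a t` for every `t ∈ U`, `u ∉ U`. Let `q = card ι`,
`m = ∑ a = c q + k`, `c = m / q`, `k = m % q`. Suppose `∑_U a < s c + min s k`. If `s ≤ k`,
`∑_U a < s (c + 1)`, so some `t ∈ U` has `a t ≤ c`, so `a u ≤ c` for all `u ∉ U` and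
`m = ∑ a < s (c + 1) + (q - s) c = q c + s ≤ q c + k = m`, contradiction. If `s > k`, `∑_U a < s c + k`, so
`∑_{Uᶜ} a > (q - s) c`, so some `u ∉ U` has `a u ≥ c + 1`, so `a t ≥ c + 1` for all `t ∈ U` and
`∑_U a ≥ s (c + 1) ≥ s c + k`, contradiction. -/
theorem exists_largest (a : ι → ℕ) (s : ℕ) (hs : s ≤ Fintype.card ι) :
    ∃ U : Finset ι, U.card = s ∧
      s * ((∑ t, a t) / Fintype.card ι) + min s ((∑ t, a t) % Fintype.card ι)
        ≤ ∑ t ∈ U, a t := by
  have hne : ((univ : Finset ι).powersetCard s).Nonempty := by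
    rw [powersetCard_nonempty]
    simpa using hs
  obtain ⟨U, hU, hmax⟩ := exists_max_image _ (fun U => ∑ t ∈ U, a t) hne
  have hc : U.card = s := (mem_powersetCard.mp hU).2
  have hex : ∀ t ∈ U, ∀ u, u ∉ U → a u ≤ a t := by
    intro t ht u hu
    have hu' : u ∉ U.erase t := fun h => hu (mem_of_mem_erase h)
    have h1 : (insert u (U.erase t)).card = s := by
      rw [card_insert_of_notMem hu', card_erase_of_mem ht, hc]
      have : 0 < U.card := card_pos.mpr ⟨t, ht⟩
      omega
    have h2 := hmax (insert u (U.erase t)) (mem_powersetCard.mpr ⟨subset_univ _, h1⟩)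
    rw [sum_insert hu'] at h2
    have h3 := add_sum_erase U a ht
    omega
  refine ⟨U, hc, ?_⟩
  set q := Fintype.card ι with hq
  set m := ∑ t, a t with hm
  have hdm : q * (m / q) + m % q = m := Nat.div_add_mod m q
  set c := m / q with hcdef
  set k := m % q with hkdef
  have hsplit : ∑ t ∈ U, a t + ∑ t ∈ Uᶜ, a t = m := sum_add_sum_compl U a
  have hcc : Uᶜ.card = q - s := by rw [card_compl, hc]
  obtain ⟨r, hr⟩ : ∃ r, q = s + r := ⟨q - s, by omega⟩
  have hrs : q - s = r := by omega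
  rw [hrs] at hcc
  have e1 : q * c = s * c + r * c := by rw [hr]; ring
  by_contra hlt
  push Not at hlt
  rcases Nat.lt_or_ge k s with hk | hk
  · rw [min_eq_right hk.le] at hlt
    have h1 : ∃ u ∈ Uᶜ, c < a u := by
      apply exists_lt_of_sum_lt
      rw [sum_const, smul_eq_mul, hcc]
      omega
    obtain ⟨u, hu, hcu⟩ := h1
    have h2 : ∑ t ∈ U, (c + 1) ≤ ∑ t ∈ U, a t :=
      sum_le_sum fun t ht => le_trans hcu (hex t ht u (mem_compl.mp hu))
    rw [sum_const, smul_eq_mul, hc, mul_add, mul_one] at h2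
    omega
  · rw [min_eq_left hk] at hlt
    have h1 : ∃ t ∈ U, a t < c + 1 := by
      apply exists_lt_of_sum_lt
      rw [sum_const, smul_eq_mul, hc, mul_add, mul_one]
      omega
    obtain ⟨t, ht, hct⟩ := h1
    have h2 : ∑ u ∈ Uᶜ, a u ≤ ∑ u ∈ Uᶜ, c :=
      sum_le_sum fun u hu => le_trans (hex t ht u (mem_compl.mp hu)) (Nat.lt_succ_iff.mp hct)
    rw [sum_const, smul_eq_mul, hcc] at h2
    omega

end W09h33
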