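import Pool.Agent.W_MP_09e4ca_h33.ColO
import Pool.Agent.W_MP_09e4ca_h33.RhoA

/-!
# The top value is at least the balanced one
-/

namespace W09h33

open Finset

variable {ι : Type*} [Fintype ι] [DecidableEq ι]

/-- Some admissible vector has a value which is at least the balanced value.

Proof. Let `q = card ι > 0` (as `∑ a > 0`), `m = ∑ a = c q + k`, `h = c' q + r` (`r = h % q < q`). Take `y` from
`exists_y`, `R ⊆ P a y` with `|R| = h - ∑ lo` (`Finset.exists_subset_card_eq`), `i = top a y R` (admissible by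
`top_le`, `∑ i = h` by `sum_top`). Take `U` from `exists_largest a r`, and `i⁰ t = c' + [t ∈ U]`, `∑ i⁰ = q c' + r = h`. By
`top_opt`, in integers
`g a i ≥ ∑ i⁰_t (a_t - i⁰_t) = c' m + ∑_U a - (q - r) c'^2 - r (c' + 1)^2
≥ c' m + r c + min r k - q c'^2 - 2 r c' - r =: G₀`, and a direct computation gives
`h (m - h) - q G₀ = r (k - r) + q (r - min r k)`, which is `r (k - r) = rho q m h` for `r ≤ k` and
`(q - r) (r - k) = rho q m h` for `r > k`. So `h (m - h) = q G₀ + rho ≤ q (g a i) + rho`. -/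
theorem exists_rho (a : ι → ℕ) (h : ℕ) (h1 : 1 ≤ h) (h2 : 2 * h ≤ ∑ t, a t) :
    ∃ i : ι → ℕ, (∀ t, i t ≤ a t) ∧ ∑ t, i t = h ∧
      h * (∑ t, a t - h) ≤ Fintype.card ι * g a i + rho (Fintype.card ι) (∑ t, a t) h := by
  have hq : 0 < Fintype.card ι := by
    rw [Fintype.card_pos_iff]
    by_contra hne
    rw [not_nonempty_iff] at hne
    rw [Fintype.sum_empty] at h2
    omega
  obtain ⟨y, hy1, hy2⟩ := exists_y a h h1 h2
  obtain ⟨R, hR, hRc⟩ := Finset.exists_subset_card_eq
    (s := P a y) (n := h - ∑ t, lo a y t) (by omega)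
  have hsum : ∑ t, top a y R t = h := by
    rw [sum_top, hRc]
    omega
  obtain ⟨U, hU, hUs⟩ := exists_largest a (h % Fintype.card ι) (Nat.mod_lt _ hq).le
  have hm : (Fintype.card ι) * ((∑ t, a t) / Fintype.card ι) + (∑ t, a t) % Fintype.card ι
      = ∑ t, a t := Nat.div_add_mod _ _
  have hh : (Fintype.card ι) * (h / Fintype.card ι) + h % Fintype.card ι = h := Nat.div_add_mod _ _
  have hr : h % Fintype.card ι < Fintype.card ι := Nat.mod_lt _ hq
  refine ⟨top a y R, top_le a y R hR, hsum, ?_⟩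
  set q := Fintype.card ι with hqdef
  set m := ∑ t, a t with hmdef
  set c := m / q with hc
  set k := m % q with hk
  set c' := h / q with hc'
  set r := h % q with hrdef
  have hi0 : ∑ t : ι, (c' + if t ∈ U then 1 else 0) = h := by
    rw [Finset.sum_add_distrib, Finset.sum_const, Finset.card_univ, smul_eq_mul, ← hqdef,
      Finset.sum_boole]
    have : (Finset.univ.filter (fun t => t ∈ U)) = U := by
      ext t
      simp
    rw [this, hU]
    exact_mod_cast hh
  have hopt := top_opt a y R hR (fun t => c' + if t ∈ U then 1 else 0) (by rw [hsum, hi0])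
  have hval : ∑ t : ι, (((c' + if t ∈ U then 1 else 0 : ℕ) : ℤ)
      * ((a t : ℤ) - ((c' + if t ∈ U then 1 else 0 : ℕ) : ℤ)))
      = c' * m + ∑ t ∈ U, (a t : ℤ) - q * (c' : ℤ) ^ 2 - (2 * c' + 1) * r := by
    have h3 : ∀ t : ι, (((c' + if t ∈ U then 1 else 0 : ℕ) : ℤ)
        * ((a t : ℤ) - ((c' + if t ∈ U then 1 else 0 : ℕ) : ℤ)))
        = (c' : ℤ) * a t + (if t ∈ U then (a t : ℤ) else 0) - (c' : ℤ) ^ 2
          - (if t ∈ U then (2 * c' + 1 : ℤ) else 0) := by
      intro t
      by_cases ht : t ∈ U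
      · simp only [if_pos ht]
        push_cast
        ring
      · simp only [if_neg ht]
        push_cast
        ring
    rw [Finset.sum_congr rfl (fun t _ => h3 t), Finset.sum_sub_distrib, Finset.sum_sub_distrib,
      Finset.sum_add_distrib, ← Finset.mul_sum, Finset.sum_const, Finset.card_univ, ← hqdef,
      Finset.sum_ite_mem, Finset.univ_inter, Finset.sum_ite_mem, Finset.univ_inter,
      Finset.sum_const, hU, hmdef]
    push_cast
    simp only [nsmul_eq_mul]
    ring
  simp only [hval] at hopt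
  have hUs' : (r : ℤ) * c + (min r k : ℕ) ≤ ∑ t ∈ U, (a t : ℤ) := by exact_mod_cast hUs
  have hmz : (q : ℤ) * c + k = m := by exact_mod_cast hm
  have hhz : (q : ℤ) * c' + r = h := by exact_mod_cast hh
  have hG : (c' : ℤ) * m + r * c + (min r k : ℕ) - q * (c' : ℤ) ^ 2 - (2 * c' + 1) * r
      ≤ (g a (top a y R) : ℤ) := by linarith
  have hqz : (0 : ℤ) ≤ q := by positivity
  have hqG := mul_le_mul_of_nonneg_left hG hqz
  have hle : h ≤ m := by omega
  have hgoal : (h : ℤ) * ((m : ℤ) - h) ≤ q * (g a (top a y R) : ℤ) + (rho q m h : ℕ) := by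
    have hrho : ((rho q m h : ℕ) : ℤ) = r * ((k : ℤ) - r) + q * ((r : ℤ) - (min r k : ℕ)) := by
      unfold rho
      rw [← hrdef, ← hk]
      by_cases hrk : r ≤ k
      · rw [if_pos hrk, min_eq_left hrk]
        push_cast [Nat.cast_sub hrk]
        ring
      · rw [if_neg hrk, min_eq_right (by omega)]
        have hkr : k ≤ r := by omega
        push_cast [Nat.cast_sub hkr, Nat.cast_sub hr.le]
        ring
    have hid : (h : ℤ) * ((m : ℤ) - h)
        = q * ((c' : ℤ) * m + r * c + (min r k : ℕ) - q * (c' : ℤ) ^ 2 - (2 * c' + 1) * r)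
          + (r * ((k : ℤ) - r) + q * ((r : ℤ) - (min r k : ℕ))) := by
      rw [← hmz, ← hhz]
      ring
    rw [hrho, hid]
    linarith
  have hcast : ((h * (m - h) : ℕ) : ℤ) ≤ ((q * g a (top a y R) + rho q m h : ℕ) : ℤ) := by
    push_cast [Nat.cast_sub hle]
    exact hgoal
  exact_mod_cast hcast

end W09h33
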