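import Pool.Agent.W_MP_09e4ca_h33.Col

/-!
# The special case `R = P = K`: nonconstant vectors, number of moves
-/

namespace W09h33

open Finset
open scoped Pointwise

/-- The sum of the squared differences of a nonconstant vector of naturals. -/
theorem SpecB_sq_sum {ι : Type*} [Fintype ι] [DecidableEq ι] (i : ι → ℤ)
    (hnc : ∃ s t, i s ≠ i t) :
    2 * ((Fintype.card ι : ℤ) - 1) ≤ ∑ s, ∑ t, (i s - i t) ^ 2 := by
  obtain ⟨s₀, t₀, hst⟩ := hnc
  have hne : s₀ ≠ t₀ := fun h => hst (by rw [h])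
  set U : Finset ι := univ.filter fun t => i t = i s₀ with hU
  have hs₀ : s₀ ∈ U := by simp [hU]
  have ht₀ : t₀ ∉ U := by
    simp only [hU, mem_filter, mem_univ, true_and]
    exact fun h => hst h.symm
  have hu1 : 1 ≤ U.card := card_pos.2 ⟨s₀, hs₀⟩
  have hv1 : 1 ≤ Uᶜ.card := card_pos.2 ⟨t₀, mem_compl.2 ht₀⟩
  have huv : U.card + Uᶜ.card = Fintype.card ι := card_add_card_compl U
  have hpt : ∀ s t, (if (s ∈ U ∧ t ∉ U) ∨ (s ∉ U ∧ t ∈ U) then (1 : ℤ) else 0) ≤ (i s - i t) ^ 2 := by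
    intro s t
    split_ifs with h
    · have : i s - i t ≠ 0 := by
        intro h0
        have h1 : i s = i t := by linarith
        rcases h with ⟨h2, h3⟩ | ⟨h2, h3⟩
        · apply h3
          simp only [hU, mem_filter, mem_univ, true_and] at h2 ⊢
          rw [← h1, h2]
        · apply h2
          simp only [hU, mem_filter, mem_univ, true_and] at h3 ⊢
          rw [h1, h3]
      have : 0 < (i s - i t) ^ 2 := by positivity
      linarith
    · positivity
  have hsum : ∑ s, ∑ t, (if (s ∈ U ∧ t ∉ U) ∨ (s ∉ U ∧ t ∈ U) then (1 : ℤ) else 0)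
      ≤ ∑ s, ∑ t, (i s - i t) ^ 2 :=
    sum_le_sum fun s _ => sum_le_sum fun t _ => hpt s t
  have hin : ∀ s, ∑ t, (if (s ∈ U ∧ t ∉ U) ∨ (s ∉ U ∧ t ∈ U) then (1 : ℤ) else 0)
      = if s ∈ U then (Uᶜ.card : ℤ) else (U.card : ℤ) := by
    intro s
    by_cases hs : s ∈ U
    · rw [if_pos hs]
      have : (∑ t, (if (s ∈ U ∧ t ∉ U) ∨ (s ∉ U ∧ t ∈ U) then (1 : ℤ) else 0))
          = ∑ t, (if t ∈ Uᶜ then (1 : ℤ) else 0) := by
        refine sum_congr rfl fun t _ => ?_
        simp [hs]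
      rw [this, sum_boole, filter_mem_eq_inter, univ_inter]
    · rw [if_neg hs]
      have : (∑ t, (if (s ∈ U ∧ t ∉ U) ∨ (s ∉ U ∧ t ∈ U) then (1 : ℤ) else 0))
          = ∑ t, (if t ∈ U then (1 : ℤ) else 0) := by
        refine sum_congr rfl fun t _ => ?_
        simp [hs]
      rw [this, sum_boole]
      simp
  have htot : ∑ s, (if s ∈ U then (Uᶜ.card : ℤ) else (U.card : ℤ))
      = 2 * ((U.card : ℤ) * (Uᶜ.card : ℤ)) := by
    have h1 : ∑ s, (if s ∈ U then (Uᶜ.card : ℤ) else (U.card : ℤ))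
        = ∑ s ∈ U, (Uᶜ.card : ℤ) + ∑ s ∈ Uᶜ, (U.card : ℤ) := by
      rw [← sum_add_sum_compl U]
      congr 1
      · exact sum_congr rfl fun s hs => if_pos hs
      · exact sum_congr rfl fun s hs => if_neg (mem_compl.1 hs)
    rw [h1, sum_const, sum_const]
    simp only [nsmul_eq_mul]
    ring
  rw [sum_congr rfl fun s _ => hin s, htot] at hsum
  have h1 : (1 : ℤ) ≤ U.card := by exact_mod_cast hu1
  have h2 : (1 : ℤ) ≤ Uᶜ.card := by exact_mod_cast hv1
  have h3 : (U.card : ℤ) + Uᶜ.card = Fintype.card ι := by exact_mod_cast huv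
  nlinarith [mul_nonneg (sub_nonneg.2 h1) (sub_nonneg.2 h2)]

/-- If all columns are nonempty, `P = K = everything`, and `i = top a y K` is not constant, then
`q G ≥ h (m - h) + (q - 1)`.

Proof. Let `i = top a y univ`. For all `u`, `a u = y + 2 * i u - 1`, `a u - i u = y + i u - 1`. In integers,
`q G - h (m - h) = ∑_{s,t} i_s (d_s - d_t)` with `d = a - i`, `= (1/2) ∑_{s,t} (i_s - i_t)²`, i.e.
`2 (q G - h (m - h)) = ∑_{s,t} (i_s - i_t)²`. Let `v = i t₀` for some `t₀`, and `U = {t : i t = v}`, `u = |U|`,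
`1 ≤ u ≤ q - 1`. The ordered pairs `(s, t)` with exactly one element in `U` number `2 u (q - u) ≥ 2 (q - 1)`, and each
contributes at least `1`. -/
theorem spec_nonconst {ι : Type*} [Fintype ι] [DecidableEq ι] (a : ι → ℕ) (y h : ℕ)
    (hy : 1 ≤ y) (hP : P a y = univ) (hh : ∑ t, top a y univ t = h)
    (hnc : ¬ ∃ z, ∀ t, top a y univ t = z) :
    h * (∑ t, a t - h) + (Fintype.card ι - 1) ≤ Fintype.card ι * g a (top a y univ) := by
  have hmod : ∀ t, (a t - y) % 2 = 1 := by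
    intro t
    have : t ∈ P a y := by rw [hP]; exact mem_univ t
    simpa [P] using this
  have htop : ∀ t, top a y univ t = (a t - y) / 2 + 1 := by
    intro t
    simp [top, lo]
  have ha : ∀ t, a t = y + 2 * top a y univ t - 1 := by
    intro t
    have h1 := hmod t
    rw [htop t]
    omega
  have hpos : ∀ t, 1 ≤ top a y univ t := by
    intro t
    rw [htop t]
    omega
  have hnc' : ∃ s t, ((top a y univ s : ℕ) : ℤ) ≠ ((top a y univ t : ℕ) : ℤ) := by
    by_contra hcon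
    push Not at hcon
    apply hnc
    have hcard : Nonempty ι ∨ IsEmpty ι := by
      rcases isEmpty_or_nonempty ι with h0 | h0
      · exact Or.inr h0
      · exact Or.inl h0
    rcases hcard with h0 | h0
    · obtain ⟨s⟩ := h0
      refine ⟨top a y univ s, fun t => ?_⟩
      have := hcon t s
      exact_mod_cast this
    · exact ⟨0, fun t => (h0.false t).elim⟩
  set i : ι → ℕ := top a y univ with hi
  have hne : Nonempty ι := by
    obtain ⟨s, _, _⟩ := hnc'
    exact ⟨s⟩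
  have hq : 1 ≤ Fintype.card ι := Fintype.card_pos
  have hd : ∀ t, ((a t - i t : ℕ) : ℤ) = (y : ℤ) - 1 + i t := by
    intro t
    have h1 := ha t
    have h2 := hpos t
    omega
  have hle : ∀ t, i t ≤ a t := by
    intro t
    have h1 := ha t
    have h2 := hpos t
    omega
  have hma : ∑ t, a t - h = ∑ t, (a t - i t) := by
    have : ∑ t, (a t - i t) + ∑ t, i t = ∑ t, a t := by
      rw [← sum_add_distrib]
      exact sum_congr rfl fun t _ => Nat.sub_add_cancel (hle t)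
    omega
  have hG : (g a i : ℤ) = ((y : ℤ) - 1) * ∑ t, (i t : ℤ) + ∑ t, (i t : ℤ) ^ 2 := by
    unfold g
    push_cast
    rw [mul_sum, ← sum_add_distrib]
    refine sum_congr rfl fun t _ => ?_
    rw [hd t]
    ring
  have hM : ((∑ t, a t - h : ℕ) : ℤ) = (Fintype.card ι : ℤ) * ((y : ℤ) - 1) + ∑ t, (i t : ℤ) := by
    rw [hma]
    push_cast
    rw [sum_congr rfl fun t _ => hd t, sum_add_distrib, sum_const, card_univ, nsmul_eq_mul]
  have hH : (h : ℤ) = ∑ t, (i t : ℤ) := by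
    rw [← hh]
    push_cast
    rfl
  have hsq := SpecB_sq_sum (fun t => (i t : ℤ)) hnc'
  have hexp : ∑ s, ∑ t, ((i s : ℤ) - i t) ^ 2
      = 2 * (Fintype.card ι : ℤ) * ∑ t, (i t : ℤ) ^ 2 - 2 * (∑ t, (i t : ℤ)) ^ 2 := by
    have h1 : ∀ s, ∑ t, ((i s : ℤ) - i t) ^ 2
        = (Fintype.card ι : ℤ) * (i s : ℤ) ^ 2 - 2 * (i s : ℤ) * ∑ t, (i t : ℤ)
          + ∑ t, (i t : ℤ) ^ 2 := by
      intro s
      have : ∀ t, ((i s : ℤ) - i t) ^ 2 = (i s : ℤ) ^ 2 - 2 * (i s : ℤ) * (i t : ℤ) + (i t : ℤ) ^ 2 := by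
        intro t; ring
      rw [sum_congr rfl fun t _ => this t, sum_add_distrib, sum_sub_distrib, ← mul_sum]
      simp
    rw [sum_congr rfl fun s _ => h1 s, sum_add_distrib, sum_sub_distrib, ← mul_sum, ← sum_mul]
    rw [← mul_sum]
    simp only [sum_const, card_univ, nsmul_eq_mul]
    ring
  have hsq' : 2 * ((Fintype.card ι : ℤ) - 1) ≤ ∑ s, ∑ t, ((i s : ℤ) - i t) ^ 2 := hsq
  rw [hexp] at hsq'
  have hgoal : (h : ℤ) * ((∑ t, a t - h : ℕ) : ℤ) + ((Fintype.card ι : ℤ) - 1)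
      ≤ (Fintype.card ι : ℤ) * (g a i : ℤ) := by
    rw [hM, hG, hH]
    nlinarith
  zify [hq]
  exact hgoal

/-- The number of classes reached by moves: `|K - K| ≥ min q (2 |K| - 1)`, by Cauchy-Davenport.

Proof. `ZMod.cauchy_davenport` for `K` and `-K`. -/
theorem card_sub_self {q : ℕ} [Fact q.Prime] (K : Finset (ZMod q)) (hK : K.Nonempty) :
    min q (2 * K.card - 1) ≤ (K - K).card := by
  have h := ZMod.cauchy_davenport (Fact.out : q.Prime) hK hK.neg
  rw [card_neg, ← two_mul, ← sub_eq_add_neg] at h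
  exact h

end W09h33
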