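import Pool.Agent.W_MP_09e4ca_h33.Spec
import Pool.Agent.W_MP_09e4ca_h33.SpecB

/-!
# The core inequality in the special case
-/

namespace W09h33

open Finset
open scoped Pointwise

/-- The class after a move. -/
theorem Spec2_cls_move {q : ℕ} [NeZero q] (i j : ZMod q → ℕ) (s t : ZMod q)
    (hj : ∀ u, j u + (if u = s then 1 else 0) = i u + (if u = t then 1 else 0)) :
    cls j = cls i + (t - s) := by
  have h1 : cls j + s = cls i + t := by
    have hL : cls j + s = ∑ u, ((j u + (if u = s then 1 else 0) : ℕ) : ZMod q) * u := by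
      unfold cls
      push_cast
      simp only [add_mul, sum_add_distrib]
      congr 1
      simp
    have hR : cls i + t = ∑ u, ((i u + (if u = t then 1 else 0) : ℕ) : ZMod q) * u := by
      unfold cls
      push_cast
      simp only [add_mul, sum_add_distrib]
      congr 1
      simp
    rw [hL, hR]
    exact sum_congr rfl fun u _ => by rw [hj u]
  have h2 : cls j = cls i + t - s := by rw [← h1]; ring
  rw [h2]; ring

/-- The total after a move. -/
theorem Spec2_sum_move {ι : Type*} [Fintype ι] [DecidableEq ι] (i j : ι → ℕ) (s t : ι)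
    (hj : ∀ u, j u + (if u = s then 1 else 0) = i u + (if u = t then 1 else 0)) :
    ∑ u, j u = ∑ u, i u := by
  have h1 : ∑ u, (j u + (if u = s then 1 else 0)) = ∑ u, (i u + (if u = t then 1 else 0)) :=
    sum_congr rfl fun u _ => hj u
  rw [sum_add_distrib, sum_add_distrib] at h1
  simp only [sum_ite_eq', mem_univ, if_true] at h1
  omega

/-- The core inequality when `R = P = K`.

Proof. Let `x = |K|`, `1 ≤ x ≤ q`, `y ≥ 1` (`spec_y_pos`), `i = top a y K` (`∑ i = h` by `sum_top`,
`i ≤ a` by `top_le`), `G = g a i`, `c₁ = cls i`. `f c₁ ≥ 1 + G`. For each `d ∈ K - K`, `d ≠ 0`, `d = t - s` with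
`s ≠ t` in `K`, the vector `j` of `spec_move` has `∑ j = h` and `cls j = c₁ + t - s`, so
`f (c₁ + d) ≥ 1 + g a j ≥ G - 1` (as `g a j + 2 ≥ G`). With `N = min q (2 x - 1) ≤ |K - K|` (`card_sub_self`),
and `0 ∈ K - K`: `∑ f ≥ (1 + G) + (N - 1) (G - 1)`. By `top_ineq` (with `R = P = K`, so the last term is `0`),
`x G ≥ h (m - h)`. And `G ≥ x ≥ 1` (`spec_G_ge`).
* `2 x - 1 ≤ q`: `∑ f ≥ 1 + G + (2 x - 2) (G - 1) = 1 + x G + (x - 1) (G - 2)`, and `(x - 1) (G - 2) ≥ 0` since
  `x = 1` or `G ≥ x ≥ 2`. First alternative.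
* `2 x - 1 > q`, `x < q`: `∑ f ≥ 1 + G + (q - 1) (G - 1) = 1 + x G + (q - x) G - (q - 1)` and
  `(q - x) G ≥ (q - x) x ≥ q - 1`. First alternative.
* `x = q`: `K = univ`, `∑ f ≥ 1 + q G - (q - 1)`. If `i` is not constant, `spec_nonconst` gives the first
  alternative. If `i` is constant `= z`, then `z ≥ 1`, `h = q z`, and `a u = y + 2 z - 1` is constant; then
  `∑ f + (q - 1) ≥ 1 + q G ≥ 1 + h (m - h)`. Second alternative. -/
theorem case_spec {q : ℕ} [Fact q.Prime] (a : ZMod q → ℕ) (y h : ℕ)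
    (hPK : P a y = K a) (hne : (K a).Nonempty) (hh : ∑ t, lo a y t + (K a).card = h)
    (h2 : 2 * h ≤ ∑ t, a t) (f : ZMod q → ℕ) (hf : Fits a h f) :
    h * (∑ t, a t - h) + 1 ≤ ∑ c, f c ∨
      (∃ x z, 0 < x ∧ (∀ t, a t = z) ∧ h = q * x ∧
        h * (∑ t, a t - h) + 1 ≤ ∑ c, f c + (q - 1)) := by
  have hy := spec_y_pos a y h hPK hne hh h2
  have hsub : K a ⊆ P a y := by rw [hPK]
  have hi_sum : ∑ t, top a y (K a) t = h := by rw [sum_top]; exact hh
  have hi_le : ∀ t, top a y (K a) t ≤ a t := top_le a y (K a) hsub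
  have hGx : (K a).card ≤ g a (top a y (K a)) := spec_G_ge a y hPK hy
  have hx1 : 1 ≤ (K a).card := card_pos.2 hne
  have hxq : (K a).card ≤ q := by
    have := card_le_univ (K a)
    rwa [ZMod.card] at this
  have hineq := top_ineq a y (K a) hsub h hi_sum
  rw [hPK, Nat.sub_self, Nat.mul_zero, Nat.add_zero] at hineq
  have hineq' : h * (∑ t, a t - h) ≤ (K a).card * g a (top a y (K a)) :=
    le_trans (Nat.le_add_right _ _) hineq
  have hf1 : 1 + g a (top a y (K a)) ≤ f (cls (top a y (K a))) := hf _ hi_le hi_sum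
  have hfd : ∀ d ∈ K a - K a, d ≠ 0 →
      g a (top a y (K a)) ≤ f (cls (top a y (K a)) + d) + 1 := by
    intro d hd hd0
    obtain ⟨t, ht, s, hs, rfl⟩ := mem_sub.1 hd
    have hst : s ≠ t := fun h0 => hd0 (by rw [h0, sub_self])
    obtain ⟨j, hj1, hj2, hj3⟩ := spec_move a y hPK hy s t hs ht hst
    have hjs : ∑ u, j u = h := by
      rw [Spec2_sum_move _ j s t hj2]
      exact hi_sum
    have hjc := Spec2_cls_move _ j s t hj2
    have := hf j hj1 hjs
    rw [hjc] at this
    omega
  set G := g a (top a y (K a)) with hG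
  set x := (K a).card with hx
  set c₁ := cls (top a y (K a)) with hc₁
  set M := h * (∑ t, a t - h) with hM
  have hD0 : (0 : ZMod q) ∈ K a - K a := by
    obtain ⟨t, ht⟩ := hne
    exact mem_sub.2 ⟨t, ht, t, ht, sub_self t⟩
  have hDcard := card_sub_self (K a) hne
  rw [← hx] at hDcard
  have hsum : (1 + G) + (min q (2 * x - 1) - 1) * (G - 1) ≤ ∑ c, f c := by
    have h1 : ∑ c, f c = ∑ d, f (c₁ + d) := (Equiv.sum_comp (Equiv.addLeft c₁) f).symm
    have h3 : ∑ d ∈ K a - K a, f (c₁ + d) ≤ ∑ d, f (c₁ + d) :=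
      sum_le_sum_of_subset (subset_univ _)
    have h4 : ∑ d ∈ K a - K a, f (c₁ + d) = f (c₁ + 0) + ∑ d ∈ (K a - K a).erase 0, f (c₁ + d) :=
      (add_sum_erase _ _ hD0).symm
    have h5 : ((K a - K a).erase 0).card * (G - 1) ≤ ∑ d ∈ (K a - K a).erase 0, f (c₁ + d) := by
      rw [← smul_eq_mul]
      refine card_nsmul_le_sum _ _ _ fun d hd => ?_
      have := hfd d (mem_of_mem_erase hd) (ne_of_mem_erase hd)
      omega
    have h6 : (min q (2 * x - 1) - 1) * (G - 1) ≤ ((K a - K a).erase 0).card * (G - 1) := by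
      refine Nat.mul_le_mul_right _ ?_
      rw [card_erase_of_mem hD0]
      omega
    rw [add_zero] at h4
    omega
  have hG1 : 1 ≤ G := le_trans hx1 hGx
  have hq2 : 2 ≤ q := (Fact.out : q.Prime).two_le
  obtain ⟨G', hG'⟩ : ∃ G', G = G' + 1 := ⟨G - 1, by omega⟩
  obtain ⟨x', hx'⟩ : ∃ x', x = x' + 1 := ⟨x - 1, by omega⟩
  by_cases hA : 2 * x - 1 ≤ q
  · left
    rw [min_eq_right hA, hG', hx'] at hsum
    have e1 : 2 * (x' + 1) - 1 - 1 = 2 * x' := by omega
    rw [e1, Nat.add_sub_cancel] at hsum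
    rw [hG', hx'] at hineq'
    rcases Nat.eq_zero_or_pos x' with h0 | h0
    · subst h0
      nlinarith
    · have : x' ≤ G' := by omega
      nlinarith [Nat.mul_le_mul_left x' (le_trans h0 this)]
  · rw [min_eq_left (by omega)] at hsum
    obtain ⟨q', hq'⟩ : ∃ q', q = q' + 1 := ⟨q - 1, by omega⟩
    have e1 : q - 1 = q' := by omega
    by_cases hB : x < q
    · left
      rw [e1, hG', Nat.add_sub_cancel] at hsum
      rw [hG', hx'] at hineq'
      obtain ⟨w, hw⟩ : ∃ w, q' = x' + 1 + w := ⟨q' - (x' + 1), by omega⟩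
      have hxG : x' ≤ G' := by omega
      rw [hw] at hsum
      nlinarith [Nat.mul_le_mul_left (w + 1) hxG]
    · have hxq' : x = q := by omega
      have hKu : K a = univ := by
        apply eq_univ_of_card
        rw [ZMod.card, ← hx, hxq']
      by_cases hc : ∃ z, ∀ t, top a y univ t = z
      · right
        obtain ⟨z, hz⟩ := hc
        have hz1 : ∀ t, (a t - y) % 2 = 1 := by
          intro t
          have : t ∈ P a y := by rw [hPK, hKu]; exact mem_univ t
          simpa [P] using this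
        have hz2 : ∀ t, (a t - y) / 2 + 1 = z := by
          intro t
          have := hz t
          simpa [top, lo] using this
        refine ⟨z, y + 2 * z - 1, ?_, ?_, ?_, ?_⟩
        · have := hz2 0
          omega
        · intro t
          have h1 := hz1 t
          have h3 := hz2 t
          omega
        · rw [← hi_sum, hKu, sum_congr rfl fun t _ => hz t]
          simp [ZMod.card]
        · rw [e1]
          rw [e1, hG', Nat.add_sub_cancel] at hsum
          rw [hG', hxq', hq'] at hineq'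
          nlinarith
      · left
        have htu : top a y univ = top a y (K a) := by rw [hKu]
        have hnc := spec_nonconst a y h hy (by rw [hPK, hKu]) (by rw [htu]; exact hi_sum) hc
        rw [ZMod.card, htu, ← hG, ← hM, e1] at hnc
        rw [e1, hG', Nat.add_sub_cancel] at hsum
        rw [hG', hq'] at hnc
        nlinarith

end W09h33
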