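import Pool.Agent.W_MP_09e4ca_h33.CaseB
import Pool.Agent.W_MP_09e4ca_h33.Spec2
import Pool.Agent.W_MP_09e4ca_h33.Rho
import Pool.Agent.W_MP_09e4ca_h33.Delta

/-!
# The core inequality
-/

namespace W09h33

open Finset

/-- The core inequality, refined form. -/
theorem core {q : ℕ} [Fact q.Prime] (a : ZMod q → ℕ) (h : ℕ) (h1 : 1 ≤ h)
    (h2 : 2 * h ≤ ∑ t, a t) (f : ZMod q → ℕ) (hf : Fits a h f) :
    h * (∑ t, a t - h) + 1 ≤ ∑ c, f c ∨
      (∀ c, ∀ j : ZMod q → ℕ, (∀ t, j t ≤ a t) → ∑ t, j t = h → 1 + g a j ≤ f c) ∨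
      (∃ x z, 0 < x ∧ (∀ t, a t = z) ∧ h = q * x ∧
        h * (∑ t, a t - h) + 1 ≤ ∑ c, f c + (q - 1)) := by
  obtain ⟨y, hy1, hy2⟩ := exists_y a h h1 h2
  by_cases hA : q ≤ (h - ∑ t, lo a y t) * ((P a y).card - (h - ∑ t, lo a y t)) + 1
  · right; left
    intro c j hja hj
    exact case_A a y (h - ∑ t, lo a y t) h (by omega) (by omega) hA f hf c j hja hj
  · push Not at hA
    obtain ⟨s, hs⟩ : ∃ s, h - ∑ t, lo a y t = s + 1 := ⟨h - ∑ t, lo a y t - 1, by omega⟩
    rw [hs] at hA
    have hPK : P a y ⊆ K a := by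
      intro t ht
      simp only [P, K, mem_filter, mem_univ, true_and] at ht ⊢
      omega
    by_cases hsp : s + 1 = (P a y).card ∧ (P a y).card = (K a).card
    · have hPK' : P a y = K a := eq_of_subset_of_card_le hPK hsp.2.ge
      have hne : (K a).Nonempty := by
        rw [← card_pos, ← hsp.2, ← hsp.1]; omega
      rcases case_spec a y h hPK' hne (by omega) h2 f hf with h3 | h3
      · left; exact h3
      · right; right; exact h3
    · left
      exact case_B a y s h (by omega) (by omega) hsp hA f hf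

/-- The core inequality with the defect. -/
theorem total_ge {q : ℕ} [Fact q.Prime] (a : ZMod q → ℕ) (h : ℕ) (h1 : 1 ≤ h)
    (h2 : 2 * h ≤ ∑ t, a t) (f : ZMod q → ℕ) (hf : Fits a h f) :
    h * (∑ t, a t - h) + 1 ≤ ∑ c, f c + delta q (∑ t, a t) h := by
  have hq : 0 < q := (Fact.out : q.Prime).pos
  rcases core a h h1 h2 f hf with h3 | h3 | ⟨x, z, hx, ha, hh, h3⟩
  · omega
  · obtain ⟨i, hia, hi, hrho⟩ := exists_rho a h h1 h2
    rw [ZMod.card] at hrho
    have h4 : q * (1 + g a i) ≤ ∑ c, f c := by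
      calc q * (1 + g a i) = ∑ _c : ZMod q, (1 + g a i) := by
            rw [sum_const, card_univ, ZMod.card, smul_eq_mul]
        _ ≤ _ := sum_le_sum fun c _ => h3 c i hia hi
    unfold delta
    split_ifs with h5
    · have : rho q (∑ t, a t) h = 0 := by
        unfold rho
        rw [h5.1, h5.2]; simp
      rw [this] at hrho
      rw [mul_add] at h4
      omega
    · rw [mul_add] at h4
      omega
  · have h4 : (∑ t, a t) % q = 0 := by
      rw [sum_congr rfl fun t _ => ha t, sum_const, card_univ, ZMod.card, smul_eq_mul]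
      exact Nat.mul_mod_right q z
    have h5 : h % q = 0 := by rw [hh]; exact Nat.mul_mod_right q x
    unfold delta
    rw [if_pos ⟨h4, h5⟩]
    exact h3

end W09h33
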