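import Pool.Agent.W_MP_09e4ca_h33.Basic

/-!
# Iterated Cauchy-Davenport
-/

namespace W09h33

open Finset
open scoped Pointwise

/-- Iterated Cauchy-Davenport.

Proof. Induction on `s` (`Finset.induction_on`) with `ZMod.cauchy_davenport`; for `s = ∅` the sum is
`0 = {0}` of cardinality `1`. Note that the partial sums are nonempty. -/
theorem iter_cd {p : ℕ} [Fact p.Prime] {ι : Type*} [DecidableEq ι] (s : Finset ι)
    (B : ι → Finset (ZMod p)) (hB : ∀ t ∈ s, (B t).Nonempty) :
    min p (1 + ∑ t ∈ s, ((B t).card - 1)) ≤ (∑ t ∈ s, B t).card := by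
  have key : (∑ t ∈ s, B t).Nonempty ∧
      min p (1 + ∑ t ∈ s, ((B t).card - 1)) ≤ (∑ t ∈ s, B t).card := by
    induction s using Finset.induction_on with
    | empty =>
      refine ⟨by simp, ?_⟩
      simp
    | insert a s ha ih =>
      obtain ⟨h1, h2⟩ := ih fun t ht => hB t (mem_insert_of_mem ht)
      have h3 := hB a (mem_insert_self a s)
      rw [sum_insert ha, sum_insert ha]
      refine ⟨h3.add h1, ?_⟩
      have h4 := ZMod.cauchy_davenport (Fact.out : p.Prime) h3 h1
      have h5 : 0 < (B a).card := card_pos.mpr h3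
      have h6 : 0 < (∑ t ∈ s, B t).card := card_pos.mpr h1
      refine le_trans ?_ h4
      omega
  exact key.2

end W09h33
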