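import Pool.Agent.W_MP_09e4ca_h33.DD
import Pool.Agent.W_MP_09e4ca_h33.IterCD

/-!
# Fibres of restricted sumsets
-/

namespace W09h33

open Finset
open scoped Pointwise

theorem exists_of_mem_sum {G ι : Type*} [AddCommMonoid G] [DecidableEq G] [DecidableEq ι]
    (s : Finset ι) (B : ι → Finset G) :
    ∀ x, x ∈ ∑ t ∈ s, B t → ∃ f : ι → G, (∀ t ∈ s, f t ∈ B t) ∧ ∑ t ∈ s, f t = x := by
  induction s using Finset.induction_on with
  | empty =>
    intro x hx
    rw [Finset.sum_empty, Finset.mem_zero] at hx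
    exact ⟨fun _ => 0, by simp, by simp [hx]⟩
  | insert a s ha ih =>
    intro x hx
    rw [Finset.sum_insert ha, Finset.mem_add] at hx
    obtain ⟨y, hy, z, hz, hyz⟩ := hx
    obtain ⟨f, hf, hfz⟩ := ih z hz
    refine ⟨Function.update f a y, ?_, ?_⟩
    · intro t ht
      rcases eq_or_ne t a with rfl | hta
      · rw [Function.update_self]; exact hy
      · rw [Function.update_of_ne hta]
        exact hf t (Finset.mem_of_mem_insert_of_ne ht hta)
    · rw [Finset.sum_insert ha, Function.update_self, ← hyz, ← hfz]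
      congr 1
      refine Finset.sum_congr rfl fun t ht => ?_
      have hta : t ≠ a := by
        intro h; rw [h] at ht; exact ha ht
      exact Function.update_of_ne hta _ _

/-- The fibre of `h^A` over the class of `i` contains the sum of the `(i_t)^A_t`.

Proof. Let `x ∈ ∑ t, rs (fib A t) (i t)`; by `Finset.mem_sum` (or `mem_finset_sum` for pointwise
sums of finsets) `x = ∑ t, x_t` with `x_t = ∑ y ∈ s_t, y`, `s_t ⊆ fib A t`, `|s_t| = i t`. Let
`S = univ.biUnion fun t => (s_t).image fun y => (y, t)`, a disjoint union; `S ⊆ A`,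
`|S| = ∑ i t = h` and `∑ z ∈ S, z = (∑ t, x_t, ∑ t, (i t) • t) = (x, cls i)`. -/
theorem sum_subset_fib {p q : ℕ} [NeZero q] (A : Finset (ZMod p × ZMod q)) (i : ZMod q → ℕ)
    (h : ℕ) (hh : ∑ t, i t = h) :
    (∑ t, rs (fib A t) (i t)) ⊆ fib (rs A h) (cls i) := by
  classical
  intro x hx
  obtain ⟨f, hf, hfx⟩ := exists_of_mem_sum _ _ x hx
  have h1 : ∀ t : ZMod q, ∃ s ⊆ fib A t, s.card = i t ∧ ∑ y ∈ s, y = f t :=
    fun t => mem_rs.1 (hf t (mem_univ t))
  choose s hs hc hsum using h1
  rw [mem_fib, mem_rs]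
  have hinj : ∀ t : ZMod q, Function.Injective (fun y : ZMod p => (y, t)) :=
    fun t y z hyz => (Prod.ext_iff.1 hyz).1
  have hd : Set.PairwiseDisjoint (↑(univ : Finset (ZMod q)))
      (fun t => (s t).image fun y => (y, t)) := by
    intro t _ u _ htu
    simp only [Function.onFun]
    rw [Finset.disjoint_left]
    rintro ⟨y, v⟩ h1 h2
    rw [mem_image] at h1 h2
    obtain ⟨y1, -, h1⟩ := h1
    obtain ⟨y2, -, h2⟩ := h2
    exact htu ((Prod.ext_iff.1 h1).2.trans (Prod.ext_iff.1 h2).2.symm)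
  refine ⟨univ.biUnion fun t => (s t).image fun y => (y, t), ?_, ?_, ?_⟩
  · intro z hz
    rw [mem_biUnion] at hz
    obtain ⟨t, -, hz⟩ := hz
    rw [mem_image] at hz
    obtain ⟨y, hy, rfl⟩ := hz
    exact mem_fib.1 (hs t hy)
  · rw [card_biUnion hd, ← hh]
    refine sum_congr rfl fun t _ => ?_
    rw [card_image_of_injective _ (hinj t), hc]
  · rw [sum_biUnion hd]
    have h2 : ∀ t : ZMod q, ∑ z ∈ (s t).image (fun y => (y, t)), z = (f t, (i t : ZMod q) * t) := by
      intro t
      rw [sum_image ((hinj t).injOn)]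
      ext
      · rw [Prod.fst_sum]; exact hsum t
      · rw [Prod.snd_sum]; simp [hc]
    rw [sum_congr rfl fun t _ => h2 t]
    ext
    · rw [Prod.fst_sum]; exact hfx
    · rw [Prod.snd_sum]; rfl

/-- Lower bound for the fibres of `h^A`.

Proof. `sum_subset_fib`, `iter_cd` for `B t = rs (fib A t) (i t)` (nonempty as `i t ≤ |fib A t|`)
and `ddsh`: if some `|B t| ≥ p` the sum over `t` has at least `p` elements
(it contains a translate of `B t`; or: in `iter_cd` the sum is `≥ 1 + (p - 1)`), and otherwise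
`|B t| ≥ i_t (a_t - i_t) + 1` for all `t`. -/
theorem fib_rs {p q : ℕ} [Fact p.Prime] [NeZero q] (A : Finset (ZMod p × ZMod q))
    (i : ZMod q → ℕ) (h : ℕ) (hi : ∀ t, i t ≤ (fib A t).card) (hh : ∑ t, i t = h) :
    min p (1 + g (fun t => (fib A t).card) i) ≤ (fib (rs A h) (cls i)).card := by
  classical
  have hp : 0 < p := (Fact.out : p.Prime).pos
  have h0 : ∀ t : ZMod q, min p (i t * ((fib A t).card - i t) + 1) ≤ (rs (fib A t) (i t)).card :=
    fun t => ddsh _ _ (hi t)
  have hne : ∀ t ∈ (univ : Finset (ZMod q)), (rs (fib A t) (i t)).Nonempty := by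
    intro t _
    rw [← card_pos]
    exact lt_of_lt_of_le (lt_min hp (Nat.succ_pos _)) (h0 t)
  refine le_trans ?_ (le_trans (iter_cd univ (fun t => rs (fib A t) (i t)) hne)
    (card_le_card (sum_subset_fib A i h hh)))
  by_cases hbig : ∃ t, p ≤ (rs (fib A t) (i t)).card
  · obtain ⟨t, ht⟩ := hbig
    have h1 : (rs (fib A t) (i t)).card - 1 ≤ ∑ t, ((rs (fib A t) (i t)).card - 1) :=
      single_le_sum (f := fun t => (rs (fib A t) (i t)).card - 1)
        (fun _ _ => Nat.zero_le _) (mem_univ t)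
    refine le_trans (min_le_left _ _) (le_min le_rfl ?_)
    omega
  · push Not at hbig
    refine min_le_min le_rfl ?_
    unfold g
    refine Nat.add_le_add_left (sum_le_sum fun t _ => ?_) 1
    have h1 := h0 t
    have h2 := hbig t
    rcases le_total p (i t * ((fib A t).card - i t) + 1) with h3 | h3
    · rw [min_eq_left h3] at h1; omega
    · rw [min_eq_right h3] at h1
      show i t * ((fib A t).card - i t) ≤ _
      omega

end W09h33
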