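import Pool.Agent.W_MP_09e4ca_h33.IterCD

/-!
# Fibres of unrestricted sumsets
-/

namespace W09h33

open Finset
open scoped Pointwise

/-- Lower bound for the fibres of `hA`.

Proof. The fibre of `hA` over `cls i` contains `∑ t, (i t) • fib A t` (pointwise): given
`x_t ∈ (i t) • fib A t`, write it as a sum of `i t` elements of `fib A t`, and list all the pairs
`(y, t)`; since `∑ i t = h` this is a family indexed by a type with `h` elements, e.g.
`Σ t, Fin (i t)`, which is equivalent to `Fin h` (`Fintype.equivFinOfCardEq`). Alternatively: induction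
on `h`. Then by `iter_cd` applied to the index type `Σ t, Fin (i t)` and the sets `B ⟨t, _⟩ = fib A t`,
`|∑_{t,l} fib A t| ≥ min p (1 + ∑_t i_t (a_t - 1))`. (So it is best to use directly the index type
`Σ t, Fin (i t)`: an element of `∑_{⟨t,l⟩} fib A t` is `∑ x_{t,l}` with `x_{t,l} ∈ fib A t`, and
the family `(x_{t,l}, t)` transported to `Fin h` gives an element of `us A h` with second coordinate
`∑_t i_t t`.) -/
theorem fib_us {p q : ℕ} [Fact p.Prime] [NeZero q] (A : Finset (ZMod p × ZMod q))
    (i : ZMod q → ℕ) (h : ℕ) (hi : ∀ t, i t ≠ 0 → (fib A t).Nonempty) (hh : ∑ t, i t = h) :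
    min p (1 + ∑ t, i t * ((fib A t).card - 1)) ≤ (fib (us A h) (cls i)).card := by
  classical
  have h1 := iter_cd (p := p) (univ : Finset (Σ t : ZMod q, Fin (i t)))
    (fun x => fib A x.1) (by
      rintro ⟨t, l⟩ _
      refine hi t ?_
      intro h0
      rw [h0] at l
      exact l.elim0)
  have h2 : ∑ x : (Σ t : ZMod q, Fin (i t)), ((fib A x.1).card - 1)
      = ∑ t, i t * ((fib A t).card - 1) := by
    rw [Fintype.sum_sigma]
    refine sum_congr rfl fun t _ => ?_
    simp
  rw [h2] at h1
  refine h1.trans (card_le_card ?_)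
  intro x hx
  rw [← mem_coe, coe_sum, Set.mem_finsetSum] at hx
  obtain ⟨y, hy, rfl⟩ := hx
  rw [mem_fib, mem_us]
  have hcard : Fintype.card (Σ t : ZMod q, Fin (i t)) = h := by
    rw [Fintype.card_sigma]
    simpa using hh
  let e : Fin h ≃ (Σ t : ZMod q, Fin (i t)) := (Fintype.equivFinOfCardEq hcard).symm
  refine ⟨fun l => (y (e l), (e l).1), ?_, ?_⟩
  · intro l
    have := hy (i := e l) (mem_univ _)
    rw [mem_coe, mem_fib] at this
    exact this
  · rw [Equiv.sum_comp e (fun s => ((y s, s.1) : ZMod p × ZMod q))]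
    rw [Prod.ext_iff]
    constructor
    · rw [Prod.fst_sum]
    · rw [Prod.snd_sum]
      unfold cls
      rw [Fintype.sum_sigma]
      refine sum_congr rfl fun t _ => ?_
      simp

end W09h33
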