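import Pool.Agent.W_MP_09e4ca_h33.Core

/-!
# Strict lower bound for the unrestricted values, second half
-/

namespace W09h33

open Finset

/-- The same for `2 h > m`.

Proof. Let `m = ∑ a`, `h₀ = m - h ≥ 1`, `e = h - h₀ > 0`, `2 h₀ ≤ m`. `m > q`: if `q ≤ h` clear (`h < m`); otherwise
`0 < m % q < h < m`, so `m % q ≠ m`, so `m ≥ q`, and `m ≠ q` as `m % q ≠ 0`. So some `a t₀ ≥ 2` (`exists_two`). For `i` with
`i ≤ a`, `∑ i = h₀`, let `j = i + e` at `t₀`; `∑ j = h`, `cls j = cls i + e t₀` and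
`F (cls i + e t₀) ≥ 1 + ∑ i (a - 1) + e (a t₀ - 1) ≥ 1 + g a i + 1` (`i_t (a_t - 1) ≥ i_t (a_t - i_t)`). So
`f c = F (c + e t₀) - 1` satisfies `Fits a h₀ f`, and `total_ge` gives `h₀ (m - h₀) + 1 ≤ ∑ f + delta q m h₀`;
`∑ f ≤ ∑ F - 1` since at least one `F` value is positive (any admissible `i`; there is one, e.g. from `exists_rho`). Use `delta_symm` and
`h₀ (m - h₀) = h (m - h)`. -/
theorem total_gt' {q : ℕ} [Fact q.Prime] (a : ZMod q → ℕ) (h : ℕ)
    (h2 : ∑ t, a t < 2 * h) (h3 : h < ∑ t, a t)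
    (hc : q ≤ h ∨ (0 < (∑ t, a t) % q ∧ (∑ t, a t) % q < h)) (F : ZMod q → ℕ)
    (hF : ∀ j : ZMod q → ℕ, (∀ t, j t ≠ 0 → 0 < a t) → ∑ t, j t = h →
      1 + ∑ t, j t * (a t - 1) ≤ F (cls j)) :
    h * (∑ t, a t - h) + 2 ≤ ∑ c, F c + delta q (∑ t, a t) h := by
  classical
  have hq : 0 < q := (Fact.out : q.Prime).pos
  set m := ∑ t, a t with hm
  have hmq : q < m := by
    rcases hc with hc | ⟨hc1, hc2⟩
    · omega
    · by_contra hcon
      push Not at hcon
      rcases Nat.lt_or_ge m q with h4 | h4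
      · rw [Nat.mod_eq_of_lt h4] at hc2
        omega
      · have : m = q := le_antisymm hcon h4
        rw [this, Nat.mod_self] at hc1
        omega
  obtain ⟨t₀, ht₀⟩ : ∃ t, 2 ≤ a t := exists_two a (by rw [ZMod.card]; exact hmq)
  obtain ⟨h₀, hh₀⟩ : ∃ h₀, h₀ = m - h := ⟨_, rfl⟩
  obtain ⟨e, he⟩ : ∃ e, e = h - h₀ := ⟨_, rfl⟩
  have key : ∀ i : ZMod q → ℕ, (∀ t, i t ≤ a t) → ∑ t, i t = h₀ →
      2 + g a i ≤ F (cls i + (e : ZMod q) * t₀) := by
    intro i hia hi
    have h5 := hF (fun t => i t + if t = t₀ then e else 0) (by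
      intro t ht
      by_cases htt : t = t₀
      · rw [htt]; omega
      · rw [if_neg htt, add_zero] at ht
        have := hia t
        omega) (by
      rw [sum_add_distrib, hi, sum_ite_eq' univ t₀ (fun _ => e), if_pos (mem_univ _)]
      omega)
    have h6 : cls (fun t => i t + if t = t₀ then e else 0) = cls i + (e : ZMod q) * t₀ := by
      unfold cls
      have : ∀ t : ZMod q, (((i t + if t = t₀ then e else 0 : ℕ) : ZMod q)) * t =
          (i t : ZMod q) * t + (if t = t₀ then (e : ZMod q) * t else 0) := by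
        intro t
        by_cases htt : t = t₀
        · rw [if_pos htt, if_pos htt]; push_cast; ring
        · rw [if_neg htt, if_neg htt]; push_cast; ring
      rw [sum_congr rfl fun t _ => this t, sum_add_distrib,
        sum_ite_eq' univ t₀ (fun t => (e : ZMod q) * t), if_pos (mem_univ _)]
    rw [h6] at h5
    refine le_trans ?_ h5
    have h7 : ∑ t, (i t + if t = t₀ then e else 0) * (a t - 1) =
        ∑ t, i t * (a t - 1) + e * (a t₀ - 1) := by
      have : ∀ t, (i t + if t = t₀ then e else 0) * (a t - 1) =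
          i t * (a t - 1) + (if t = t₀ then e * (a t - 1) else 0) := by
        intro t
        by_cases htt : t = t₀
        · rw [if_pos htt, if_pos htt]; ring
        · rw [if_neg htt, if_neg htt]; ring
      rw [sum_congr rfl fun t _ => this t, sum_add_distrib,
        sum_ite_eq' univ t₀ (fun t => e * (a t - 1)), if_pos (mem_univ _)]
    rw [h7]
    have h8 : g a i ≤ ∑ t, i t * (a t - 1) := by
      unfold g
      refine sum_le_sum fun t _ => ?_
      rcases Nat.eq_zero_or_pos (i t) with h9 | h9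
      · rw [h9]; simp
      · exact Nat.mul_le_mul le_rfl (by omega)
    have h9 : 1 ≤ e * (a t₀ - 1) := Nat.mul_pos (by omega) (by omega)
    omega
  have hfit : Fits a h₀ (fun c => F (c + (e : ZMod q) * t₀) - 1) := by
    intro i hia hi
    have := key i hia hi
    simp only
    omega
  have h5 := total_ge a h₀ (by omega) (by omega) _ hfit
  obtain ⟨i, hia, hi, -⟩ := exists_rho a h₀ (by omega) (by omega)
  have h6 : ∑ c, (F (c + (e : ZMod q) * t₀) - 1) + 1 ≤ ∑ c, F (c + (e : ZMod q) * t₀) := by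
    have h7 : ∑ c, (F (c + (e : ZMod q) * t₀) - 1) < ∑ c, F (c + (e : ZMod q) * t₀) :=
      sum_lt_sum (fun c _ => Nat.sub_le _ _) ⟨cls i, mem_univ _, by
        have := key i hia hi
        omega⟩
    omega
  have h7 : ∑ c, F (c + (e : ZMod q) * t₀) = ∑ c, F c :=
    Equiv.sum_comp (Equiv.addRight ((e : ZMod q) * t₀)) F
  have h8 : delta q m h₀ = delta q m h := by
    rw [hh₀]; exact delta_symm q m h hq (by omega)
  have h9 : ∑ t, a t - h₀ = h := by omega
  rw [h9, ← hm, h8] at h5
  rw [← hh₀]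
  have h10 : h * h₀ = h₀ * h := mul_comm _ _
  omega

end W09h33
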