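import Pool.Agent.W_MP_09e4ca_h33.LowU1
import Pool.Agent.W_MP_09e4ca_h33.LowU2
import Pool.Agent.W_MP_09e4ca_h33.FibU

/-!
# Lower bound for unrestricted sumsets
-/

namespace W09h33

open Finset

/-- Lower bound for the unrestricted sumset. -/
theorem lower_us {p q : ℕ} [Fact p.Prime] [Fact q.Prime] (A : Finset (ZMod p × ZMod q))
    (h : ℕ) (h1 : 1 ≤ h) (h2 : h < A.card) (hd : 0 < delta q A.card h)
    (hc : q ≤ h ∨ (0 < A.card % q ∧ A.card % q < h)) :
    min p (h * (A.card - h) + 2 - delta q A.card h) ≤ (us A h).card := by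
  have hsum : ∑ t, (fib A t).card = A.card := (card_eq_sum_fib A).symm
  by_contra hcon
  push Not at hcon
  rw [lt_min_iff] at hcon
  have hlt : ∀ c, (fib (us A h) c).card < p := by
    intro c
    refine lt_of_le_of_lt ?_ hcon.1
    rw [card_eq_sum_fib (us A h)]
    exact single_le_sum (f := fun c => (fib (us A h) c).card) (fun _ _ => Nat.zero_le _)
      (mem_univ c)
  have hf : ∀ j : ZMod q → ℕ, (∀ t, j t ≠ 0 → 0 < (fib A t).card) → ∑ t, j t = h →
      1 + ∑ t, j t * ((fib A t).card - 1) ≤ (fib (us A h) (cls j)).card := by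
    intro j hj hh
    have h3 := fib_us A j h (fun t ht => card_pos.1 (hj t ht)) hh
    have h4 := hlt (cls j)
    rcases min_le_iff.1 h3 with h5 | h5
    · exact absurd h4 (not_lt.2 h5)
    · exact h5
  rcases le_or_gt (2 * h) A.card with h3 | h3
  · have h5 := total_gt (fun t => (fib A t).card) h h1 (by rw [hsum]; exact h3)
      (by rw [hsum]; exact hd) (by rw [hsum]; exact hc)
      (fun c => (fib (us A h) c).card) hf
    rw [hsum, ← card_eq_sum_fib] at h5
    omega
  · have h5 := total_gt' (fun t => (fib A t).card) h (by rw [hsum]; exact h3)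
      (by rw [hsum]; exact h2) (by rw [hsum]; exact hc)
      (fun c => (fib (us A h) c).card) hf
    rw [hsum, ← card_eq_sum_fib] at h5
    omega

end W09h33
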