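import Pool.Agent.W_MP_09e4ca_h33.Basic

/-!
# Elementary properties of restricted sumsets in a commutative group
-/

namespace W09h33

open Finset

variable {G : Type*} [AddCommGroup G] [DecidableEq G]

/-- `(m - h)^A` is a reflection of `h^A`. -/
theorem card_rs_compl (A : Finset G) {h k : ℕ} (hk : h + k = A.card) :
    (rs A k).card = (rs A h).card := by
  have key : ∀ h k : ℕ, h + k = A.card → (rs A k) ⊆ (rs A h).image fun x => ∑ a ∈ A, a - x := by
    intro h k hk c hc
    obtain ⟨s, hs, hcard, rfl⟩ := mem_rs.1 hc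
    rw [mem_image]
    refine ⟨∑ x ∈ A \ s, x, mem_rs.2 ⟨A \ s, sdiff_subset, ?_, rfl⟩, ?_⟩
    · rw [card_sdiff_of_subset hs]; omega
    · rw [← sum_sdiff hs]; abel
  apply le_antisymm
  · exact (card_le_card (key h k hk)).trans card_image_le
  · exact (card_le_card (key k h (by omega))).trans card_image_le

/-- adding a fixed set of further elements: a translate of `h'^A'` is contained in `h^A`. -/
theorem rs_mono (A A' S : Finset G) (h h' : ℕ) (hA : A' ⊆ A) (hS : S ⊆ A \ A')
    (hh : S.card + h' = h) : (rs A' h').image (fun x => ∑ s ∈ S, s + x) ⊆ rs A h := by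
  intro y hy
  rw [mem_image] at hy
  obtain ⟨x, hx, rfl⟩ := hy
  obtain ⟨s, hs, hcard, rfl⟩ := mem_rs.1 hx
  have hdis : Disjoint S s := by
    rw [disjoint_left]
    intro z hz hz'
    exact (mem_sdiff.1 (hS hz)).2 (hs hz')
  rw [mem_rs]
  refine ⟨S ∪ s, union_subset (hS.trans sdiff_subset) (hs.trans hA), ?_, sum_union hdis⟩
  rw [card_union_of_disjoint hdis]; omega

/-- if `h'^A'` is the whole group then so is `h^A` for suitable larger `A`, `h`. -/
theorem rs_univ_mono [Fintype G] (A : Finset G) (h h' m' : ℕ) (hm : m' ≤ A.card) (hh : h' ≤ h)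
    (hd : h - h' ≤ A.card - m')
    (hfull : ∀ A' : Finset G, A' ⊆ A → A'.card = m' → rs A' h' = univ) : rs A h = univ := by
  obtain ⟨A', hA', hc⟩ := exists_subset_card_eq hm
  obtain ⟨S, hS, hSc⟩ := exists_subset_card_eq (s := A \ A') (n := h - h')
    (by rw [card_sdiff_of_subset hA', hc]; exact hd)
  have h1 := rs_mono A A' S h h' hA' hS (by omega)
  rw [hfull A' hA' hc] at h1
  apply eq_univ_of_forall
  intro x
  apply h1
  rw [mem_image]
  exact ⟨x - ∑ s ∈ S, s, mem_univ _, by abel⟩

end W09h33
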