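import Pool.Agent.W_MP_09e4ca_h33.PB3
import Pool.Agent.W_MP_09e4ca_h33.RsCompl

/-!
# `n = 2p`, `m > p`: restricted sumsets are everything for `3 ≤ h ≤ m - 3`
-/

namespace W09h33

open Finset

/-- All `m > p ≥ 5`, `3 ≤ h ≤ m - 3`, except `p = 5`, `m = 6`.

Proof. By `rs_univ_mono` (file RsCompl). For `p ≥ 7` take `m' = p + 1`, `h' = max 3 (h - (m - m'))`, so `h' ≤ h`,
`h - h' ≤ m - m'` and `3 ≤ h' ≤ p - 2 = m' - 3`. For `A'` with `|A'| = p + 1`: if `2 h' ≤ p + 1`, `full_two`; otherwise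
`|rs A' h'| = |rs A' (m' - h')|` (`card_rs_compl`), `3 ≤ m' - h'`, `2 (m' - h') ≤ p + 1`, so it is everything too
(`Finset.card_eq_iff_eq_univ`). For `p = 5`, `m ≥ 7`: `m' = 7`, `h' = max 3 (h - (m - 7)) ∈ {3, 4}`, and
`full_two_five` with `card_rs_compl`. For `p = 6`: not prime. -/
theorem full_dense {p : ℕ} [Fact p.Prime] (hp : 5 ≤ p) (A : Finset (ZMod p × ZMod 2)) (h : ℕ)
    (hA : p + 1 ≤ A.card) (h3 : 3 ≤ h) (h4 : h + 3 ≤ A.card) (hex : p = 5 → 7 ≤ A.card) :
    rs A h = univ := by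
  have hpp : p.Prime := Fact.out
  have hcompl : ∀ (A' : Finset (ZMod p × ZMod 2)) (k l : ℕ), k + l = A'.card →
      rs A' k = univ → rs A' l = univ := by
    intro A' k l hkl hk
    have h1 := card_rs_compl A' hkl
    rw [hk, card_univ] at h1
    exact (Finset.card_eq_iff_eq_univ _).1 h1
  rcases Nat.lt_or_ge p 7 with h7 | h7
  · have hp5 : p = 5 := by
      have h6 : p ≠ 6 := by
        rintro rfl
        exact absurd hpp (by norm_num)
      omega
    subst hp5
    have hm7 := hex rfl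
    refine rs_univ_mono A h (max 3 (h - (A.card - 7))) 7 hm7 (by omega) (by omega) ?_
    intro A' _ hA'
    have h5 : max 3 (h - (A.card - 7)) = 3 ∨ max 3 (h - (A.card - 7)) = 4 := by omega
    rcases h5 with h5 | h5
    · rw [h5]
      exact full_two_five A' hA'
    · rw [h5]
      exact hcompl A' 3 4 (by omega) (full_two_five A' hA')
  · refine rs_univ_mono A h (max 3 (h - (A.card - (p + 1)))) (p + 1) hA (by omega) (by omega) ?_
    intro A' _ hA'
    obtain ⟨k, hk⟩ : ∃ k, k = max 3 (h - (A.card - (p + 1))) := ⟨_, rfl⟩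
    rw [← hk]
    rcases Nat.lt_or_ge (p + 1) (2 * k) with h5 | h5
    · exact hcompl A' (p + 1 - k) k (by omega)
        (full_two h7 A' (p + 1 - k) hA' (by omega) (by omega))
    · exact full_two h7 A' k hA' (by omega) (by omega)

end W09h33
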