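import Pool.Agent.W_MP_09e4ca_co.Defs

/-!
# Small cases
-/

namespace W09h33

open Finset W_MP_09e4ca_co

/-- `û(10, 6, 3) ≤ 9`.

Proof. `A = {0, 1, 2, 4, 5, 6}`; `decide` (`uh_le`). -/
theorem uh_ten : uh 10 6 3 ≤ 9 := by
  have h1 : ({0, 1, 2, 4, 5, 6} : Finset (ZMod 10)).card = 6 := by decide
  refine (uh_le _ h1).trans ?_
  decide +kernel

/-- `û(6, 6, 3) = 6`: the only set is everything. -/
theorem uh_six : 6 ≤ uh 6 6 3 := by
  obtain ⟨A, hA, hu⟩ := exists_uh (n := 6) (m := 6) (h := 3) le_rfl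
  have h1 : A = univ := by
    apply Finset.eq_univ_of_card
    rw [hA]
    rfl
  rw [← hu, h1]
  decide +kernel

/-- `h = 1`: `û(n, m, 1) = m`. -/
theorem uh_one (n m : ℕ) [NeZero n] (hm : m ≤ n) : uh n m 1 = m := by
  obtain ⟨A, hA, hu⟩ := exists_uh (n := n) (m := m) (h := 1) hm
  rw [← hu]
  have h1 : restr A 1 = A := by
    ext c
    rw [mem_restr]
    constructor
    · rintro ⟨s, hs, hc, hsum⟩
      obtain ⟨a, rfl⟩ := card_eq_one.1 hc
      rw [sum_singleton] at hsum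
      rw [← hsum]
      exact hs (mem_singleton_self a)
    · intro hc
      exact ⟨{c}, singleton_subset_iff.2 hc, card_singleton c, sum_singleton _ _⟩
  rw [h1, hA]

end W09h33
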