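import Pool.Agent.W_MP_09e4ca_h33.Basic
import Pool.Agent.W_MP_09e4ca_co.Defs

/-!
# Transfer by the Chinese remainder theorem
-/

namespace W09h33

open Finset

/-- Restricted sumsets and additive equivalences. -/
theorem restr_eq_rs {n : ℕ} (A : Finset (ZMod n)) (h : ℕ) :
    W_MP_09e4ca_co.restr A h = rs A h := rfl

theorem hfold_eq_us {n : ℕ} (A : Finset (ZMod n)) (h : ℕ) :
    W_MP_09e4ca_co.hfold A h = us A h := rfl

theorem rs_equiv_subset {G H : Type*} [AddCommGroup G] [AddCommGroup H] [DecidableEq G]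
    [DecidableEq H] (e : G ≃+ H) (A : Finset G) (h : ℕ) :
    rs (A.image e) h = (rs A h).image e := by
  ext x
  rw [mem_image]
  constructor
  · intro hx
    obtain ⟨s, hs, hc, hsum⟩ := mem_rs.1 hx
    refine ⟨e.symm x, mem_rs.2 ⟨s.image e.symm, ?_, ?_, ?_⟩, e.apply_symm_apply x⟩
    · intro y hy
      obtain ⟨z, hz, rfl⟩ := mem_image.1 hy
      obtain ⟨w, hw, rfl⟩ := mem_image.1 (hs hz)
      simpa using hw
    · rw [card_image_of_injective _ e.symm.injective, hc]
    · rw [sum_image fun a _ b _ hab => e.symm.injective hab, ← hsum, map_sum]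
  · rintro ⟨y, hy, rfl⟩
    obtain ⟨s, hs, hc, hsum⟩ := mem_rs.1 hy
    refine mem_rs.2 ⟨s.image e, image_subset_image hs, ?_, ?_⟩
    · rw [card_image_of_injective _ e.injective, hc]
    · rw [sum_image fun a _ b _ hab => e.injective hab, ← hsum, map_sum]

/-- Proof. The image under `e` of the image of `powersetCard`; `Finset.image_image`, `Finset.sum_image`, or by
double inclusion with `mem_rs`. -/
theorem card_rs_equiv {G H : Type*} [AddCommGroup G] [AddCommGroup H] [DecidableEq G]
    [DecidableEq H] (e : G ≃+ H) (A : Finset G) (h : ℕ) :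
    (rs (A.image e) h).card = (rs A h).card := by
  rw [rs_equiv_subset, card_image_of_injective _ e.injective]

theorem us_equiv_subset {G H : Type*} [AddCommGroup G] [AddCommGroup H] [DecidableEq G]
    [DecidableEq H] (e : G ≃+ H) (A : Finset G) (h : ℕ) :
    us (A.image e) h = (us A h).image e := by
  ext x
  rw [mem_image]
  constructor
  · intro hx
    obtain ⟨a, ha, hsum⟩ := mem_us.1 hx
    refine ⟨e.symm x, mem_us.2 ⟨fun i => e.symm (a i), fun i => ?_, ?_⟩, e.apply_symm_apply x⟩
    · obtain ⟨w, hw, hw2⟩ := mem_image.1 (ha i)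
      show e.symm (a i) ∈ A
      rw [← hw2]
      simpa using hw
    · rw [← hsum, map_sum]
  · rintro ⟨y, hy, rfl⟩
    obtain ⟨a, ha, hsum⟩ := mem_us.1 hy
    exact mem_us.2 ⟨fun i => e (a i), fun i => mem_image_of_mem _ (ha i), by rw [← hsum, map_sum]⟩

theorem card_us_equiv {G H : Type*} [AddCommGroup G] [AddCommGroup H] [DecidableEq G]
    [DecidableEq H] (e : G ≃+ H) (A : Finset G) (h : ℕ) :
    (us (A.image e) h).card = (us A h).card := by
  rw [us_equiv_subset, card_image_of_injective _ e.injective]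

/-- Lower bounds for `û` in the product. Use `ZMod.chineseRemainder`, `W_MP_09e4ca_co.exists_uh`. -/
theorem le_uh {p q m h L : ℕ} [NeZero p] [NeZero q] (hpq : Nat.Coprime p q) (hm : m ≤ p * q)
    (hL : ∀ A : Finset (ZMod p × ZMod q), A.card = m → L ≤ (rs A h).card) :
    L ≤ W_MP_09e4ca_co.uh (p * q) m h := by
  obtain ⟨A, hA, hu⟩ := W_MP_09e4ca_co.exists_uh (n := p * q) (h := h) hm
  let e : ZMod (p * q) ≃+ ZMod p × ZMod q := (ZMod.chineseRemainder hpq).toAddEquiv
  have h1 := hL (A.image e) (by rw [card_image_of_injective _ e.injective, hA])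
  rw [card_rs_equiv] at h1
  rw [← hu, restr_eq_rs]
  exact h1

theorem uh_le_prod {p q m h : ℕ} (hpq : Nat.Coprime p q)
    (A : Finset (ZMod p × ZMod q)) (hA : A.card = m) :
    W_MP_09e4ca_co.uh (p * q) m h ≤ (rs A h).card := by
  let e : ZMod p × ZMod q ≃+ ZMod (p * q) := (ZMod.chineseRemainder hpq).symm.toAddEquiv
  have h1 := W_MP_09e4ca_co.uh_le (h := h) (A.image e)
    (by rw [card_image_of_injective _ e.injective, hA])
  rw [restr_eq_rs, card_rs_equiv] at h1
  exact h1

theorem le_u {p q m h L : ℕ} [NeZero p] [NeZero q] (hpq : Nat.Coprime p q) (hm : m ≤ p * q)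
    (hL : ∀ A : Finset (ZMod p × ZMod q), A.card = m → L ≤ (us A h).card) :
    L ≤ W_MP_09e4ca_co.u (p * q) m h := by
  obtain ⟨A, hA, hu⟩ := W_MP_09e4ca_co.exists_u (n := p * q) (h := h) hm
  let e : ZMod (p * q) ≃+ ZMod p × ZMod q := (ZMod.chineseRemainder hpq).toAddEquiv
  have h1 := hL (A.image e) (by rw [card_image_of_injective _ e.injective, hA])
  rw [card_us_equiv] at h1
  rw [← hu, hfold_eq_us]
  exact h1

theorem u_le_prod {p q m h : ℕ} (hpq : Nat.Coprime p q)
    (A : Finset (ZMod p × ZMod q)) (hA : A.card = m) :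
    W_MP_09e4ca_co.u (p * q) m h ≤ (us A h).card := by
  let e : ZMod p × ZMod q ≃+ ZMod (p * q) := (ZMod.chineseRemainder hpq).symm.toAddEquiv
  have h1 : W_MP_09e4ca_co.u (p * q) m h ≤ (W_MP_09e4ca_co.hfold (A.image e) h).card :=
    Nat.sInf_le ⟨A.image e, by rw [card_image_of_injective _ e.injective, hA], rfl⟩
  rw [hfold_eq_us, card_us_equiv] at h1
  exact h1

end W09h33
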