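import Pool.Agent.W_MP_09e4ca_h33.Basic

/-!
# Upper bounds: cosets, unions of cosets
-/

namespace W09h33

open Finset

/-- Subsets of a coset of `ZMod p × {0}`. -/
theorem upper_coset {p q : ℕ} [NeZero p] (m h : ℕ) (hm : m ≤ p) :
    ∃ A : Finset (ZMod p × ZMod q), A.card = m ∧ (rs A h).card ≤ p ∧ (us A h).card ≤ p := by
  have hUc : ((univ : Finset (ZMod p)) ×ˢ ({0} : Finset (ZMod q))).card = p := by
    rw [card_product, card_univ, ZMod.card, card_singleton, mul_one]
  obtain ⟨A, hA, hAc⟩ := Finset.exists_subset_card_eq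
    (s := (univ : Finset (ZMod p)) ×ˢ ({0} : Finset (ZMod q))) (n := m) (by rw [hUc]; exact hm)
  have h0 : ∀ x ∈ A, x.2 = 0 := by
    intro x hx
    have h1 := hA hx
    rw [mem_product] at h1
    exact mem_singleton.1 h1.2
  refine ⟨A, hAc, ?_, ?_⟩
  · refine (card_le_card ?_).trans hUc.le
    intro x hx
    obtain ⟨s, hs, -, rfl⟩ := mem_rs.1 hx
    rw [mem_product]
    refine ⟨mem_univ _, ?_⟩
    rw [mem_singleton, Prod.snd_sum]
    exact sum_eq_zero fun y hy => h0 y (hs hy)
  · refine (card_le_card ?_).trans hUc.le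
    intro x hx
    obtain ⟨a, ha, rfl⟩ := mem_us.1 hx
    rw [mem_product]
    refine ⟨mem_univ _, ?_⟩
    rw [mem_singleton, Prod.snd_sum]
    exact sum_eq_zero fun i _ => h0 _ (ha i)

/-- Unions of `C` consecutive full cosets of `{0} × ZMod q`.

Proof. Let `L = image (cast) (range C) ×ˢ univ ⊆ ZMod p × ZMod q`, which has `C q ≥ m` elements (the cast is injective on
`range p`, `C ≤ p`); take `A ⊆ L` with `|A| = m`. A sum of `h` elements of `A` has first coordinate the cast of a
natural number `≤ h (C - 1)`, so `us A h ⊆ image (cast) (range (h (C - 1) + 1)) ×ˢ univ`. -/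
theorem upper_us {p q : ℕ} [NeZero p] [NeZero q] (m h C : ℕ) (hC : 1 ≤ C) (hCp : C ≤ p)
    (hm : m ≤ C * q) :
    ∃ A : Finset (ZMod p × ZMod q), A.card = m ∧ (us A h).card ≤ (h * (C - 1) + 1) * q := by
  have hinj : Set.InjOn (fun n : ℕ => (n : ZMod p)) (range C : Finset ℕ) := by
    intro a ha b hb hab
    have ha' : a < p := lt_of_lt_of_le (mem_range.1 (mem_coe.1 ha)) hCp
    have hb' : b < p := lt_of_lt_of_le (mem_range.1 (mem_coe.1 hb)) hCp
    have h1 := (ZMod.natCast_eq_natCast_iff' a b p).1 hab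
    rwa [Nat.mod_eq_of_lt ha', Nat.mod_eq_of_lt hb'] at h1
  have hLc : (((range C).image (fun n : ℕ => (n : ZMod p))) ×ˢ (univ : Finset (ZMod q))).card =
      C * q := by
    rw [card_product, card_image_of_injOn hinj, card_range, card_univ, ZMod.card]
  obtain ⟨A, hA, hAc⟩ := Finset.exists_subset_card_eq
    (s := ((range C).image (fun n : ℕ => (n : ZMod p))) ×ˢ (univ : Finset (ZMod q))) (n := m)
    (by rw [hLc]; exact hm)
  have h0 : ∀ x ∈ A, ∃ n : ℕ, n ≤ C - 1 ∧ (n : ZMod p) = x.1 := by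
    intro x hx
    have h1 := hA hx
    rw [mem_product, mem_image] at h1
    obtain ⟨⟨n, hn, hnx⟩, -⟩ := h1
    rw [mem_range] at hn
    exact ⟨n, by omega, hnx⟩
  refine ⟨A, hAc, ?_⟩
  have hsub : us A h ⊆ ((range (h * (C - 1) + 1)).image (fun n : ℕ => (n : ZMod p))) ×ˢ
      (univ : Finset (ZMod q)) := by
    intro x hx
    obtain ⟨a, ha, rfl⟩ := mem_us.1 hx
    choose n hn1 hn2 using fun i => h0 (a i) (ha i)
    rw [mem_product]
    refine ⟨mem_image.2 ⟨∑ i, n i, ?_, ?_⟩, mem_univ _⟩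
    · rw [mem_range]
      have h1 : ∑ i, n i ≤ ∑ _i : Fin h, (C - 1) := sum_le_sum fun i _ => hn1 i
      rw [sum_const, card_univ, Fintype.card_fin, smul_eq_mul] at h1
      omega
    · rw [Prod.fst_sum]
      push_cast
      exact sum_congr rfl fun i _ => hn2 i
  refine (card_le_card hsub).trans ?_
  rw [card_product, card_univ, ZMod.card]
  refine Nat.mul_le_mul_right _ ?_
  refine card_image_le.trans ?_
  rw [card_range]

end W09h33
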