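import Pool.Agent.W_MP_09e4ca_h33.Lev
import Pool.Agent.W_MP_09e4ca_h33.LevA

/-!
# Upper bound with the defect
-/

namespace W09h33

open Finset

/-- the full levels `0, …, c - 1` and `k` elements of level `c`. -/
def lvA (p q c k : ℕ) [NeZero p] [NeZero q] : Finset (ZMod p × ZMod q) :=
  univ.filter fun x => x.1.val < c ∨ (x.1.val = c ∧ x.2.val < k)

theorem mem_lvA {p q c k : ℕ} [NeZero p] [NeZero q] {x : ZMod p × ZMod q} :
    x ∈ lvA p q c k ↔ (x.1.val < c ∨ (x.1.val = c ∧ x.2.val < k)) := by
  simp [lvA]

theorem card_val_lt {q : ℕ} [NeZero q] (k : ℕ) (hk : k ≤ q) :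
    (univ.filter fun y : ZMod q => y.val < k).card = k := by
  classical
  have h1 : (univ.filter fun y : ZMod q => y.val < k).image ZMod.val = range k := by
    ext y
    simp only [mem_image, mem_filter, mem_univ, true_and, mem_range]
    constructor
    · rintro ⟨x, hx, rfl⟩
      exact hx
    · intro hy
      refine ⟨(y : ZMod q), ?_, ?_⟩
      · rw [ZMod.val_cast_of_lt (lt_of_lt_of_le hy hk)]; exact hy
      · exact ZMod.val_cast_of_lt (lt_of_lt_of_le hy hk)
  rw [← card_image_of_injective _ (ZMod.val_injective q), h1, card_range]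

theorem card_lev_lt {p q c k : ℕ} [NeZero p] [NeZero q] (hc : c < p) {j : ℕ} (hj : j < c) :
    ((lvA p q c k).filter fun x => x.1.val = j).card = q := by
  classical
  have h1 : ((lvA p q c k).filter fun x => x.1.val = j) = {(j : ZMod p)} ×ˢ univ := by
    ext ⟨x, y⟩
    simp only [mem_filter, mem_lvA, mem_product, mem_singleton, mem_univ, and_true]
    constructor
    · rintro ⟨-, h⟩
      rw [← h, ZMod.natCast_zmod_val]
    · rintro rfl
      rw [ZMod.val_cast_of_lt (hj.trans hc)]
      exact ⟨Or.inl hj, rfl⟩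
  rw [h1, card_product, card_singleton, one_mul, card_univ, ZMod.card]

theorem card_lev_eq {p q c k : ℕ} [NeZero p] [NeZero q] (hc : c < p) (hk : k ≤ q) :
    ((lvA p q c k).filter fun x => x.1.val = c).card = k := by
  classical
  have h1 : ((lvA p q c k).filter fun x => x.1.val = c)
      = {(c : ZMod p)} ×ˢ (univ.filter fun y : ZMod q => y.val < k) := by
    ext ⟨x, y⟩
    simp only [mem_filter, mem_lvA, mem_product, mem_singleton, mem_univ, true_and]
    constructor
    · rintro ⟨h2 | h2, h⟩
      · exact absurd h (Nat.ne_of_lt h2)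
      · refine ⟨?_, h2.2⟩
        rw [← h, ZMod.natCast_zmod_val]
    · rintro ⟨rfl, h2⟩
      rw [ZMod.val_cast_of_lt hc]
      exact ⟨Or.inr ⟨rfl, h2⟩, rfl⟩
  rw [h1, card_product, card_singleton, one_mul, card_val_lt k hk]

theorem lev_le {p q c k : ℕ} [NeZero p] [NeZero q] {x : ZMod p × ZMod q}
    (hx : x ∈ lvA p q c k) : x.1.val ≤ c := by
  rcases mem_lvA.1 hx with h | h
  · exact h.le
  · exact h.1.le

theorem card_lev_gt {p q c k : ℕ} [NeZero p] [NeZero q] {j : ℕ} (hj : c < j) :
    ((lvA p q c k).filter fun x => x.1.val = j).card = 0 := by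
  rw [card_eq_zero, filter_eq_empty_iff]
  intro x hx h
  have := lev_le hx
  omega

theorem card_lev_le {p q c k : ℕ} [NeZero p] [NeZero q] (hc : c < p) (hk : k ≤ q) (j : ℕ) :
    ((lvA p q c k).filter fun x => x.1.val = j).card ≤ q := by
  rcases lt_trichotomy j c with h | h | h
  · exact (card_lev_lt hc h).le
  · subst h
    rw [card_lev_eq hc hk]; exact hk
  · rw [card_lev_gt h]; exact Nat.zero_le _

theorem card_lvA {p q c k : ℕ} [NeZero p] [NeZero q] (hc : c < p) (hk : k ≤ q) :
    (lvA p q c k).card = q * c + k := by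
  classical
  rw [card_eq_sum_card_fiberwise (f := fun x : ZMod p × ZMod q => x.1.val) (t := range (c + 1))]
  · rw [sum_range_succ, card_lev_eq hc hk]
    rw [sum_congr rfl (fun j hj => card_lev_lt hc (mem_range.1 hj))]
    rw [sum_const, card_range, smul_eq_mul, mul_comm]
  · intro x hx
    have := lev_le (mem_coe.1 hx)
    simp only [coe_range, Set.mem_Iio]
    omega

theorem fst_sum_lv {p q : ℕ} [NeZero p] (S : Finset (ZMod p × ZMod q)) :
    (∑ x ∈ S, x).1 = ((∑ x ∈ S, x.1.val : ℕ) : ZMod p) := by
  rw [Prod.fst_sum, Nat.cast_sum]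
  refine sum_congr rfl fun x _ => ?_
  rw [ZMod.natCast_zmod_val]

theorem two_tri (q e : ℕ) : 2 * ∑ j ∈ range e, q * (e - j) = q * (e * (e + 1)) := by
  rw [← mul_sum]
  have h1 : ∑ j ∈ range e, (e - j) = ∑ j ∈ range e, (j + 1) := by
    rw [← sum_range_reflect (fun j => j + 1) e]
    refine sum_congr rfl fun j hj => ?_
    have := mem_range.1 hj
    omega
  have h2 : 2 * ∑ j ∈ range e, (j + 1) = e * (e + 1) := by
    induction e with
    | zero => simp
    | succ n ih =>
      have h3 : 2 * ∑ j ∈ range n, (j + 1) = n * (n + 1) := by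
        apply ih
        rw [← sum_range_reflect (fun j => j + 1) n]
        refine sum_congr rfl fun j hj => ?_
        have := mem_range.1 hj
        omega
      rw [sum_range_succ, mul_add, h3]
      ring
  rw [h1, mul_left_comm, h2]

theorem two_tri_k (q k e : ℕ) :
    2 * ∑ j ∈ range e, (if j = 0 then k else q) * (e - j) = 2 * (k * e) + q * (e * (e - 1)) := by
  cases e with
  | zero => simp
  | succ n =>
    rw [sum_range_succ', mul_add]
    have h1 : ∑ j ∈ range n, (if j + 1 = 0 then k else q) * (n + 1 - (j + 1))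
        = ∑ j ∈ range n, q * (n - j) := by
      refine sum_congr rfl fun j _ => ?_
      rw [if_neg (Nat.succ_ne_zero j)]
      congr 1
      omega
    rw [h1, two_tri]
    simp only [if_true, Nat.sub_zero, Nat.add_sub_cancel]
    ring

/-- The upper bound with the defect.

Proof. Let `q ≥ 2` (for `q = 1` the defect is `0`), `m = q c + k`, `c ≤ m ≤ p`, in fact `c < p` (as `q ≥ 2`, `m ≤ p`).
Let `A = {(j, t) : j.val < c} ∪ {(c, t) : t.val < k}`, `|A| = q c + k = m`, level function `ℓ (j, t) = j.val`. Level `j < c`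
has `q` elements, level `c` has `k`. For `S ⊆ A`, `|S| = h`, the first coordinate of `∑_S` is the cast of
`L = ∑_S ℓ`. Write `h = q c' + r`, and `e` as in `levels_arith`. By `levels_lower` (with `b j = q`, `e := c'`),
`L ≥ h c' - q c' (c' + 1) / 2 =: Lmin`; by `levels_lower` for the reversed level `c - ℓ` (level `0` has `k`, the
others `q` elements), `h e ≤ (h c - L) + k e + q e (e - 1) / 2`, so `L ≤ h (c - e) + k e + q e (e - 1) / 2 = Lmax`. Let
`W = Lmax - Lmin`.
(1) If not both `k = 0` and `r = 0`: `rs A h` is contained in (cast of `[Lmin, Lmin + W]`) `×ˢ univ`, so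
`|rs A h| ≤ (W + 1) q = h (m - h) - rho + q`, and `delta = rho - (q - 1) > 0` gives the claim.
(2) If `k = r = 0`: `delta = q - 1`, `rho = 0`, `q W = h (m - h)`, `W ≥ 1`. If `L = Lmin` then `S` is exactly the set of
elements of level `< c'` by `levels_eq`, so there is only one sum with `L = Lmin`; similarly (reversed levels) only one with
`L = Lmax`. The other sums are in (cast of the `W - 1` numbers strictly between) `×ˢ univ`. So
`|rs A h| ≤ 2 + (W - 1) q = h (m - h) + 2 - q = h (m - h) + 1 - (q - 1)`. -/
theorem upper_delta {p q : ℕ} [NeZero p] [NeZero q] (m h : ℕ) (h1 : 1 ≤ h) (h2 : h < m)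
    (h3 : m ≤ p) (hd : 0 < delta q m h) :
    ∃ A : Finset (ZMod p × ZMod q), A.card = m ∧
      (rs A h).card + delta q m h ≤ h * (m - h) + 1 := by
  classical
  have hq0 : 0 < q := Nat.pos_of_ne_zero (NeZero.ne q)
  have hq2 : 2 ≤ q := by
    by_contra hcon
    have : q = 1 := by omega
    subst this
    simp [delta, Nat.mod_one] at hd
  obtain ⟨c, hcdef⟩ : ∃ c, c = m / q := ⟨_, rfl⟩
  obtain ⟨k, hkdef⟩ : ∃ k, k = m % q := ⟨_, rfl⟩
  obtain ⟨c', hc'def⟩ : ∃ c', c' = h / q := ⟨_, rfl⟩
  obtain ⟨r, hrdef⟩ : ∃ r, r = h % q := ⟨_, rfl⟩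
  have hm : m = q * c + k := by rw [hcdef, hkdef]; exact (Nat.div_add_mod m q).symm
  have hh : h = q * c' + r := by rw [hc'def, hrdef]; exact (Nat.div_add_mod h q).symm
  have hk : k < q := by rw [hkdef]; exact Nat.mod_lt _ hq0
  have hr : r < q := by rw [hrdef]; exact Nat.mod_lt _ hq0
  have hcp : c < p := by
    have h4 : 2 * c ≤ q * c := Nat.mul_le_mul_right c hq2
    omega
  obtain ⟨e, he⟩ : ∃ e, (r ≤ k ∧ e = c') ∨ (k < r ∧ e = c' + 1) := by
    rcases le_or_gt r k with h4 | h4
    · exact ⟨c', Or.inl ⟨h4, rfl⟩⟩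
    · exact ⟨c' + 1, Or.inr ⟨h4, rfl⟩⟩
  obtain ⟨hec, W, hW1, hW2⟩ := levels_arith q m h c k c' r e hq0 hk hr hm hh h2.le he
  set A := lvA p q c k with hA
  have hcard : A.card = m := by rw [hA, card_lvA hcp hk.le, hm]
  obtain ⟨T1, hT1⟩ : ∃ T1, T1 = ∑ j ∈ range c', q * (c' - j) := ⟨_, rfl⟩
  obtain ⟨T2, hT2⟩ : ∃ T2, T2 = ∑ j ∈ range e, (if j = 0 then k else q) * (e - j) := ⟨_, rfl⟩
  have hT1' : 2 * T1 = q * (c' * (c' + 1)) := by rw [hT1, two_tri]
  have hT2' : 2 * T2 = 2 * (k * e) + q * (e * (e - 1)) := by rw [hT2, two_tri_k]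
  have hWT : h * (c - e) + T2 + T1 = W + h * c' := by
    have h4 : 2 * (h * (c - e) + k * e) = 2 * (h * (c - e)) + 2 * (k * e) := by ring
    omega
  -- bounds for the level sums
  have hlow : ∀ S ⊆ A, S.card = h → h * c' ≤ ∑ x ∈ S, x.1.val + T1 := by
    intro S hS hSh
    have h4 := levels_lower A (fun x : ZMod p × ZMod q => x.1.val) (fun _ => q)
      (fun j => card_lev_le hcp hk.le j) S hS c'
    rw [hSh, ← hT1] at h4
    exact h4
  have hup : ∀ S ⊆ A, S.card = h → ∑ x ∈ S, x.1.val ≤ h * (c - e) + T2 := by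
    intro S hS hSh
    have h4 := levels_lower A (fun x : ZMod p × ZMod q => c - x.1.val)
      (fun j => if j = 0 then k else q) ?_ S hS e
    · rw [hSh, ← hT2] at h4
      have h5 : ∑ x ∈ S, (c - x.1.val) + ∑ x ∈ S, x.1.val = h * c := by
        rw [← sum_add_distrib, ← hSh, ← smul_eq_mul, ← sum_const]
        refine sum_congr rfl fun x hx => ?_
        exact Nat.sub_add_cancel (lev_le (hS hx))
      have h6 : h * c = h * (c - e) + h * e := by
        rw [← mul_add, Nat.sub_add_cancel hec]
      omega
    · intro j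
      by_cases hj : j = 0
      · subst hj
        rw [if_pos rfl]
        have h5 : (A.filter fun x => c - x.1.val = 0) = A.filter fun x => x.1.val = c := by
          refine filter_congr fun x hx => ?_
          have := lev_le hx
          omega
        rw [h5, hA, card_lev_eq hcp hk.le]
      · rw [if_neg hj]
        refine le_trans (card_le_card ?_) (card_lev_le (c := c) (k := k) hcp hk.le (c - j))
        intro x hx
        rw [mem_filter] at hx ⊢
        refine ⟨hx.1, ?_⟩
        have := lev_le hx.1
        omega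
  have hTle : T1 ≤ h * c' := by
    -- from the lower bound for some set of `h` elements
    obtain ⟨S, hS, hSh⟩ := exists_subset_card_eq (s := A) (n := h) (by rw [hcard]; exact h2.le)
    have h4 : 2 * T1 ≤ 2 * (h * c') := by
      rw [hT1', hh]
      rcases Nat.eq_zero_or_pos c' with h5 | h5
      · subst h5; simp
      · have h6 : c' + 1 ≤ 2 * c' := by omega
        calc q * (c' * (c' + 1)) ≤ q * (c' * (2 * c')) := by gcongr
          _ ≤ 2 * ((q * c' + r) * c') := by
            have : q * (c' * (2 * c')) = 2 * ((q * c') * c') := by ring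
            rw [this]
            gcongr
            omega
    omega
  obtain ⟨M, hM⟩ : ∃ M, M + T1 = h * c' := ⟨h * c' - T1, Nat.sub_add_cancel hTle⟩
  have hlow' : ∀ S ⊆ A, S.card = h → M ≤ ∑ x ∈ S, x.1.val := by
    intro S hS hSh
    have := hlow S hS hSh
    omega
  have hup' : ∀ S ⊆ A, S.card = h → ∑ x ∈ S, x.1.val ≤ M + W := by
    intro S hS hSh
    have := hup S hS hSh
    omega
  refine ⟨A, hcard, ?_⟩
  by_cases hkr : k = 0 ∧ r = 0
  · -- case (2)
    obtain ⟨hk0, hr0⟩ := hkr
    have hdel : delta q m h = q - 1 := by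
      unfold delta
      rw [if_pos ⟨hkdef ▸ hk0, hrdef ▸ hr0⟩]
    have hrho : rho q m h = 0 := by
      unfold rho
      rw [← hkdef, ← hrdef, hk0, hr0]
      simp
    have hec' : e = c' := by
      rcases he with h4 | h4
      · exact h4.2
      · omega
    subst hk0
    subst hr0
    subst hec'
    rw [hrho, add_zero] at hW2
    have hWpos : 1 ≤ W := by
      by_contra hcon
      have h4 : W = 0 := by omega
      rw [h4, mul_zero] at hW2
      have h5 : 0 < h * (m - h) := Nat.mul_pos (by omega) (by omega)
      omega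
    have hhe : h = q * e := by omega
    have he1 : 1 ≤ e := by
      by_contra hcon
      have h4 : e = 0 := by omega
      rw [h4, mul_zero] at hhe
      omega
    have hT12 : T1 = T2 + h := by
      have h4 : q * (e * (e + 1)) = q * (e * (e - 1)) + 2 * h := by
        obtain ⟨x, rfl⟩ := Nat.exists_eq_add_of_le he1
        rw [hhe]
        have h5 : 1 + x - 1 = x := by omega
        rw [h5]; ring
      omega
    have hlc : ∀ x ∈ A, x.1.val + 1 ≤ c := by
      intro x hx
      rcases mem_lvA.1 hx with h4 | h4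
      · exact h4
      · exact absurd h4.2 (Nat.not_lt_zero _)
    have hE1 : ∀ S ⊆ A, S.card = h → ∑ x ∈ S, x.1.val = M → S = A.filter fun x => x.1.val < e := by
      intro S hS hSh hL
      apply levels_eq A (fun x : ZMod p × ZMod q => x.1.val) q e
      · intro j hj
        exact card_lev_lt hcp (lt_of_lt_of_le hj hec)
      · exact hS
      · rw [hSh, hhe]
      · rw [hSh, hL, ← hT1]
        exact hM.symm
    have hE2 : ∀ S ⊆ A, S.card = h → ∑ x ∈ S, x.1.val = M + W →
        S = A.filter fun x => c - 1 - x.1.val < e := by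
      intro S hS hSh hL
      apply levels_eq A (fun x : ZMod p × ZMod q => c - 1 - x.1.val) q e
      · intro j hj
        have h4 : (A.filter fun x => c - 1 - x.1.val = j)
            = A.filter fun x => x.1.val = c - 1 - j := by
          refine filter_congr fun x hx => ?_
          have := hlc x hx
          omega
        rw [h4]
        exact card_lev_lt hcp (by omega)
      · exact hS
      · rw [hSh, hhe]
      · rw [hSh, ← hT1]
        have h5 : ∑ x ∈ S, (c - 1 - x.1.val) + ∑ x ∈ S, x.1.val = h * (c - 1) := by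
          rw [← sum_add_distrib, ← hSh, ← smul_eq_mul, ← sum_const]
          refine sum_congr rfl fun x hx => ?_
          have := hlc x (hS hx)
          omega
        have h6 : h * (c - 1) + h = h * (c - e) + h * e := by
          rw [← mul_add, Nat.sub_add_cancel hec]
          have h7 : c = (c - 1) + 1 := by omega
          conv_rhs => rw [h7]
          ring
        omega
    set N : Finset (ZMod p) := (range (W - 1)).image fun j => ((M + 1 + j : ℕ) : ZMod p) with hN
    have hsub : rs A h ⊆ {∑ x ∈ A.filter (fun x => x.1.val < e), x,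
        ∑ x ∈ A.filter (fun x => c - 1 - x.1.val < e), x} ∪ N ×ˢ univ := by
      intro y hy
      obtain ⟨S, hS, hSh, rfl⟩ := mem_rs.1 hy
      have h4 := hlow' S hS hSh
      have h5 := hup' S hS hSh
      rw [mem_union, mem_insert, mem_singleton]
      by_cases h6 : ∑ x ∈ S, x.1.val = M
      · left; left
        conv_lhs => rw [hE1 S hS hSh h6]
      by_cases h7 : ∑ x ∈ S, x.1.val = M + W
      · left; right
        conv_lhs => rw [hE2 S hS hSh h7]
      right
      rw [mem_product]
      refine ⟨?_, mem_univ _⟩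
      rw [hN, mem_image]
      refine ⟨∑ x ∈ S, x.1.val - (M + 1), ?_, ?_⟩
      · rw [mem_range]; omega
      · rw [fst_sum_lv]
        congr 1
        omega
    have hc1 := card_le_card hsub
    have hc2 : N.card ≤ W - 1 := by
      refine le_trans card_image_le ?_
      rw [card_range]
    have hc3 : (({∑ x ∈ A.filter (fun x => x.1.val < e), x,
        ∑ x ∈ A.filter (fun x => c - 1 - x.1.val < e), x} : Finset (ZMod p × ZMod q)) ∪
        N ×ˢ univ).card ≤ 2 + (W - 1) * q := by
      refine le_trans (card_union_le _ _) ?_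
      refine Nat.add_le_add card_le_two ?_
      rw [card_product, card_univ, ZMod.card]
      exact Nat.mul_le_mul_right q hc2
    have hc4 : (W - 1) * q + q = h * (m - h) := by
      rw [← hW2]
      obtain ⟨x, rfl⟩ := Nat.exists_eq_add_of_le hWpos
      have h5 : 1 + x - 1 = x := by omega
      rw [h5]; ring
    rw [hdel]
    omega
  · -- case (1)
    have hdel : delta q m h = rho q m h - (q - 1) := by
      unfold delta
      rw [if_neg]
      rw [← hkdef, ← hrdef]
      exact hkr
    set N : Finset (ZMod p) := (range (W + 1)).image fun j => ((M + j : ℕ) : ZMod p) with hN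
    have hsub : rs A h ⊆ N ×ˢ univ := by
      intro y hy
      obtain ⟨S, hS, hSh, rfl⟩ := mem_rs.1 hy
      have h4 := hlow' S hS hSh
      have h5 := hup' S hS hSh
      rw [mem_product]
      refine ⟨?_, mem_univ _⟩
      rw [hN, mem_image]
      refine ⟨∑ x ∈ S, x.1.val - M, ?_, ?_⟩
      · rw [mem_range]; omega
      · rw [fst_sum_lv]
        congr 1
        omega
    have hc1 := card_le_card hsub
    have hc2 : N.card ≤ W + 1 := by
      refine le_trans card_image_le ?_
      rw [card_range]
    have hc3 : (N ×ˢ (univ : Finset (ZMod q))).card ≤ (W + 1) * q := by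
      rw [card_product, card_univ, ZMod.card]
      exact Nat.mul_le_mul_right q hc2
    have hc4 : (W + 1) * q = q * W + q := by ring
    rw [hdel] at hd ⊢
    omega

end W09h33
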