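import Pool.Agent.W_MP_09e4ca_h33.LowR
import Pool.Agent.W_MP_09e4ca_h33.LowU
import Pool.Agent.W_MP_09e4ca_h33.UpA
import Pool.Agent.W_MP_09e4ca_h33.UpC
import Pool.Agent.W_MP_09e4ca_h33.UpD
import Pool.Agent.W_MP_09e4ca_h33.Transfer
import Pool.Agent.W_MP_09e4ca_h33.PB4
import Pool.Agent.W_MP_09e4ca_h33.Small
import Pool.Agent.W_MP_09e4ca_co.Lower

/-!
# The two theorems
-/

namespace W09h33

open Finset W_MP_09e4ca_co

theorem fval {m h : ℕ} (h2 : h < m) : h * m - h ^ 2 + 1 = h * (m - h) + 1 := by
  rw [Nat.mul_sub, pow_two]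

theorem uh_value {p q m h : ℕ} (hp : p.Prime) (hq : q.Prime) (hqp : q < p) (h1 : 1 ≤ h)
    (h2 : h < m) (h3 : m ≤ p) :
    uh (p * q) m h = min p (h * (m - h) + 1 - delta q m h) := by
  have : Fact p.Prime := ⟨hp⟩
  have : Fact q.Prime := ⟨hq⟩
  have hcop : Nat.Coprime p q := (Nat.coprime_primes hp hq).2 (by omega)
  have hmn : m ≤ p * q := h3.trans (Nat.le_mul_of_pos_right p hq.pos)
  apply le_antisymm
  · apply le_min
    · obtain ⟨A, hA, hr, _⟩ := upper_coset (p := p) (q := q) m h h3
      exact (uh_le_prod hcop A hA).trans hr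
    · rcases Nat.eq_zero_or_pos (delta q m h) with hd | hd
      · have : NeZero (p * q) := ⟨Nat.mul_ne_zero hp.ne_zero hq.ne_zero⟩
        obtain ⟨A, hA, hr⟩ := upper_ap (p * q) m h hmn h2.le
        rw [hd, Nat.sub_zero]
        exact (uh_le A hA).trans hr
      · obtain ⟨A, hA, hr⟩ := upper_delta (p := p) (q := q) m h h1 h2 h3 hd
        have := uh_le_prod (h := h) hcop A hA
        omega
  · apply le_uh hcop hmn
    intro A hA
    have := lower_rs A h h1 (by rw [hA]; exact h2)
    rw [hA] at this
    exact this

theorem exc_iff {p q m h : ℕ} (hp : p.Prime) (hq : q.Prime) (hqp : q < p) (h1 : 1 ≤ h)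
    (h2 : h < m) (h3 : m ≤ p) :
    Exceptional (p * q) m h ↔ 0 < delta q m h ∧ h * (m - h) + 1 - delta q m h < p ∧
      (q ≤ h ∨ (0 < m % q ∧ m % q < h)) := by
  have : Fact p.Prime := ⟨hp⟩
  have : Fact q.Prime := ⟨hq⟩
  have hcop : Nat.Coprime p q := (Nat.coprime_primes hp hq).2 (by omega)
  have hmn : m ≤ p * q := h3.trans (Nat.le_mul_of_pos_right p hq.pos)
  have hup : u (p * q) m h ≤ p := by
    obtain ⟨A, hA, _, hr⟩ := upper_coset (p := p) (q := q) m h h3
    exact (u_le_prod hcop A hA).trans hr
  unfold Exceptional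
  rw [uh_value hp hq hqp h1 h2 h3, fval h2]
  have hpos : 1 ≤ h * (m - h) + 1 := by omega
  constructor
  · intro hex
    refine ⟨?_, ?_, ?_⟩
    · by_contra hd
      have hd0 : delta q m h = 0 := by omega
      rw [hd0, Nat.sub_zero] at hex
      have h5 := hex.trans_le (min_le_min_right (h * (m - h) + 1) hup)
      exact lt_irrefl _ h5
    · by_contra hd
      push Not at hd
      rw [min_eq_left hd] at hex
      have := hex.trans_le (min_le_left _ _)
      omega
    · by_contra hc
      push Not at hc
      obtain ⟨hc1, hc2⟩ := hc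
      have hk : m % q = 0 ∨ h ≤ m % q := by
        rcases Nat.eq_zero_or_pos (m % q) with h5 | h5
        · exact Or.inl h5
        · exact Or.inr (hc2 h5)
      have hd : 0 < delta q m h := by
        by_contra hd
        have hd0 : delta q m h = 0 := by omega
        rw [hd0, Nat.sub_zero] at hex
        have h5 := hex.trans_le (min_le_min_right (h * (m - h) + 1) hup)
        exact lt_irrefl _ h5
      have h5 := excluded_eq q m h hq.pos h1 hc1 h2 hd hk
      have hq0 := hq.pos
      have hC1 : 1 ≤ (m + q - 1) / q := by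
        rw [Nat.one_le_div_iff hq0]; omega
      have hCp : (m + q - 1) / q ≤ p := by
        have : (m + q - 1) / q ≤ m := by
          rw [Nat.div_le_iff_le_mul_add_pred hq0]
          have : m ≤ q * m := Nat.le_mul_of_pos_left m hq0
          omega
        omega
      have hmC : m ≤ (m + q - 1) / q * q := by
        have h6 := Nat.div_add_mod (m + q - 1) q
        have h7 := Nat.mod_lt (m + q - 1) hq0
        rw [mul_comm] at h6
        omega
      obtain ⟨A, hA, hr⟩ := upper_us (p := p) (q := q) m h ((m + q - 1) / q) hC1 hCp hmC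
      have h6 := u_le_prod (h := h) hcop A hA
      have h7 := hex.trans_le (min_le_left _ _)
      rcases min_lt_iff.1 h7 with h8 | h8
      · omega
      · omega
  · rintro ⟨hd, hlt, hc⟩
    have hu : h * (m - h) + 1 - delta q m h < u (p * q) m h := by
      have h5 : min p (h * (m - h) + 2 - delta q m h) ≤ u (p * q) m h := by
        apply le_u hcop hmn
        intro A hA
        have := lower_us A h h1 (by rw [hA]; exact h2) (by rw [hA]; exact hd)
          (by rw [hA]; exact hc)
        rw [hA] at this
        exact this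
      refine lt_of_lt_of_le ?_ h5
      rw [lt_min_iff]
      refine ⟨hlt, ?_⟩
      have hdl : delta q m h ≤ h * (m - h) + 1 := by
        obtain ⟨A, hA, hr⟩ := upper_delta (p := p) (q := q) m h h1 h2 h3 hd
        omega
      omega
    rw [min_eq_right hlt.le, lt_min_iff]
    exact ⟨hu, by omega⟩

/-- For `q = 2` the defect is positive only when both numbers are even. -/
theorem delta_two {m h : ℕ} : delta 2 m h = if Even m ∧ Even h then 1 else 0 := by
  unfold delta rho
  simp only [Nat.even_iff]
  rcases Nat.mod_two_eq_zero_or_one m with h1 | h1 <;>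
  rcases Nat.mod_two_eq_zero_or_one h with h2 | h2 <;> simp [h1, h2]

theorem uh_two_p_small {p m h : ℕ} (hp : p.Prime) (hp2 : p ≠ 2) (h1 : 1 ≤ h)
    (h2 : h < m) (h3 : m ≤ p) :
    Exceptional (2 * p) m h ↔ Even m ∧ Even h ∧ h * (m - h) < p := by
  have h5 := exc_iff hp Nat.prime_two (lt_of_le_of_ne hp.two_le (Ne.symm hp2)) h1 h2 h3
  rw [mul_comm p 2] at h5
  rw [h5, delta_two]
  by_cases h6 : Even m ∧ Even h
  · rw [if_pos h6]
    have h7 : 2 ≤ h := by
      obtain ⟨r, hr⟩ := h6.2
      omega
    constructor
    · rintro ⟨_, h8, _⟩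
      exact ⟨h6.1, h6.2, by omega⟩
    · rintro ⟨_, _, h8⟩
      exact ⟨one_pos, by omega, Or.inl h7⟩
  · rw [if_neg h6]
    constructor
    · rintro ⟨h8, _⟩
      omega
    · rintro ⟨h8, h9, _⟩
      exact absurd ⟨h8, h9⟩ h6

/-! ## `n = 2p`, `m > p` -/

theorem dense_value {m h : ℕ} (hm : h < m) (hh : h = 2 ∨ h + 2 = m) :
    h * m - h ^ 2 + 1 = 2 * m - 3 := by
  rcases hh with rfl | rfl
  · omega
  · have : h * (h + 2) = h ^ 2 + 2 * h := by ring
    rw [this]; omega

theorem dense_uh {n m h : ℕ} (hh : h = 2 ∨ h + 2 = m) : uh n m h = uh n m 2 := by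
  rcases hh with rfl | hh
  · rfl
  · exact uh_compl (by omega)

theorem dense_two_iff {n m : ℕ} (hm3 : 3 ≤ m) (hn : m ≤ n) (h2m : n < 2 * m) :
    uh n m 2 < min n (2 * m - 3) ↔ Even n ∧ 2 * m = n + 2 ∧ ∀ k, n ≠ 2 ^ k := by
  have i1 : NeZero n := ⟨by omega⟩
  constructor
  · intro hex
    obtain ⟨A, hA, hu⟩ := exists_uh (h := 2) hn
    rw [← hu] at hex
    have hne : restr A 2 ≠ univ := by
      intro h
      rw [h, card_univ, ZMod.card] at hex
      exact absurd (hex.trans_le (min_le_left _ _)) (lt_irrefl _)
    rcases Nat.even_or_odd n with hev | hodd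
    · have h1 : 2 * m = n + 2 := by
        obtain ⟨r, hr⟩ := hev
        by_contra h
        apply hne
        apply restr_univ_of
        omega
      refine ⟨hev, h1, ?_⟩
      intro k hk
      have := pow_lower hk (A := A) (by omega)
      have h3 := hex.trans_le (min_le_right _ _)
      omega
    · exfalso
      have h1 : 2 * m = n + 1 := by
        by_contra h
        apply hne
        apply restr_univ_of_odd hodd
        omega
      have := odd_lower hodd (A := A) (by omega)
      have h3 := hex.trans_le (min_le_right _ _)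
      omega
  · rintro ⟨hev, hnm, hpow⟩
    obtain ⟨A, hA, hr⟩ := exists_quasi (n := n) (e := n) (g := 1) (k := 1) (m := m) (h := 2)
      (by ring) hev (by omega) hpow le_rfl le_rfl (by omega) (Or.inl rfl)
    have := uh_le (h := 2) A hA
    rw [lt_min_iff]
    omega

theorem two_p_large {p m h : ℕ} (hp : p.Prime) (hp2 : p ≠ 2) (h1 : 1 ≤ h)
    (h2 : h < m) (h3 : p < m) (h4 : m ≤ 2 * p) :
    Exceptional (2 * p) m h ↔ (m = p + 1 ∧ (h = 2 ∨ h + 2 = m)) ∨ (p = 5 ∧ m = 6 ∧ h = 3) := by
  have hp3 : 3 ≤ p := by
    have := hp.two_le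
    omega
  have : NeZero (2 * p) := ⟨by omega⟩
  have hodd : p % 2 = 1 := by
    rcases hp.eq_two_or_odd with h5 | h5
    · exact absurd h5 hp2
    · exact h5
  have key1 : ∀ h, (h = 1 ∨ h + 1 = m) → ¬ Exceptional (2 * p) m h := by
    intro h hh hex
    unfold Exceptional at hex
    have h5 : uh (2 * p) m h = m := by
      rcases hh with rfl | hh
      · exact uh_one _ _ h4
      · exact (uh_compl (n := 2 * p) (m := m) (h := 1) (k := h) (by omega)).trans
          (uh_one (2 * p) m h4)
    have h6 : h * m - h ^ 2 + 1 = m := by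
      rw [fval (by omega)]
      rcases hh with rfl | hh
      · omega
      · have : m - h = 1 := by omega
        rw [this]; omega
    rw [h5, h6] at hex
    exact absurd (hex.trans_le (min_le_right _ _)) (lt_irrefl _)
  rcases Nat.lt_or_ge 1 h with h5 | h5
  swap
  · have h6 : h = 1 := by omega
    subst h6
    constructor
    · intro hex
      exact absurd hex (key1 1 (Or.inl rfl))
    · intro hr
      omega
  rcases Nat.lt_or_ge (h + 1) m with h6 | h6
  swap
  · have h7 : h + 1 = m := by omega
    constructor
    · intro hex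
      exact absurd hex (key1 h (Or.inr h7))
    · intro hr
      omega
  have hu : u (2 * p) m h = 2 * p := u_eq h4 (by omega) (by omega)
  by_cases h7 : h = 2 ∨ h + 2 = m
  · unfold Exceptional
    rw [dense_value h2 h7, dense_uh h7, hu, dense_two_iff (by omega) h4 (by omega)]
    constructor
    · rintro ⟨_, h8, _⟩
      left
      exact ⟨by omega, h7⟩
    · rintro (⟨h8, _⟩ | h8)
      · refine ⟨even_two_mul p, by omega, ?_⟩
        intro k hk
        have h9 : p ∣ 2 ^ k := ⟨2, by rw [← hk]; ring⟩
        have h10 := (Nat.prime_dvd_prime_iff_eq hp Nat.prime_two).1 (hp.dvd_of_dvd_pow h9)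
        exact hp2 h10
      · omega
  · push Not at h7
    by_cases h8 : p = 5 ∧ m = 6
    · obtain ⟨rfl, rfl⟩ := h8
      have h9 : h = 3 := by omega
      subst h9
      constructor
      · intro _
        right
        exact ⟨rfl, rfl, rfl⟩
      · intro _
        unfold Exceptional
        rw [hu]
        have := uh_ten
        norm_num
        omega
    · have hfull : 2 * p ≤ uh (2 * p) m h := by
        rcases Nat.lt_or_ge p 5 with h9 | h9
        · -- `p = 3`, `m = 6`
          have hp33 : p = 3 := by
            have : p ≠ 4 := by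
              rintro rfl
              norm_num at hp
            omega
          subst hp33
          have hm6 : m = 6 := by omega
          subst hm6
          have h10 : h = 3 := by omega
          subst h10
          exact uh_six
        · have : Fact p.Prime := ⟨hp⟩
          have hcop : Nat.Coprime p 2 := by
            rw [Nat.coprime_primes hp Nat.prime_two]
            exact hp2
          rw [mul_comm 2 p]
          apply le_uh hcop (by omega)
          intro A hA
          have h10 := full_dense h9 A h (by omega) (by omega) (by omega) (by omega)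
          rw [h10, card_univ, Fintype.card_prod, ZMod.card, ZMod.card]
      constructor
      · intro hex
        exfalso
        unfold Exceptional at hex
        rw [hu] at hex
        have := hex.trans_le (min_le_left _ _)
        omega
      · intro hr
        exfalso
        rcases hr with ⟨_, hr⟩ | hr
        · rcases hr with hr | hr
          · exact h7.1 hr
          · exact h7.2 hr
        · exact h8 ⟨hr.1, hr.2.1⟩

theorem two_p {p m h : ℕ} (hp : p.Prime) (hp2 : p ≠ 2) (h1 : 1 ≤ h)
    (h2 : h < m) (h4 : m ≤ 2 * p) :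
    Exceptional (2 * p) m h ↔ (m ≤ p ∧ Even m ∧ Even h ∧ h * (m - h) < p) ∨
      (m = p + 1 ∧ (h = 2 ∨ h + 2 = m)) ∨ (p = 5 ∧ m = 6 ∧ h = 3) := by
  rcases le_or_gt m p with h3 | h3
  · rw [uh_two_p_small hp hp2 h1 h2 h3]
    constructor
    · intro h5
      exact Or.inl ⟨h3, h5⟩
    · rintro (h5 | h5 | h5)
      · exact h5.2
      · omega
      · omega
  · rw [two_p_large hp hp2 h1 h2 h3 h4]
    constructor
    · intro h5
      exact Or.inr h5
    · rintro (h5 | h5)
      · omega
      · exact h5

end W09h33
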