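import Pool.Agent.W_MP_09e4ca_h33.Core
import Pool.Agent.W_MP_09e4ca_h33.FibR
import Pool.Agent.W_MP_09e4ca_h33.RsCompl

/-!
# Lower bound for restricted sumsets
-/

namespace W09h33

open Finset

/-- For `2 h ≤ m`. -/
theorem lower_rs_half {p q : ℕ} [Fact p.Prime] [Fact q.Prime] (A : Finset (ZMod p × ZMod q))
    (h : ℕ) (h1 : 1 ≤ h) (h2 : 2 * h ≤ A.card) :
    min p (h * (A.card - h) + 1 - delta q A.card h) ≤ (rs A h).card := by
  have hsum : ∑ t, (fib A t).card = A.card := (card_eq_sum_fib A).symm
  by_contra hcon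
  push Not at hcon
  rw [lt_min_iff] at hcon
  have hlt : ∀ c, (fib (rs A h) c).card < p := by
    intro c
    refine lt_of_le_of_lt ?_ hcon.1
    rw [card_eq_sum_fib (rs A h)]
    exact single_le_sum (f := fun c => (fib (rs A h) c).card) (fun _ _ => Nat.zero_le _)
      (mem_univ c)
  have hf : Fits (fun t => (fib A t).card) h (fun c => (fib (rs A h) c).card) := by
    intro i hi hh
    have h3 := fib_rs A i h hi hh
    have h4 := hlt (cls i)
    rcases min_le_iff.1 h3 with h5 | h5
    · exact absurd h4 (not_lt.2 h5)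
    · exact h5
  have h5 := total_ge _ h h1 (by rw [hsum]; exact h2) _ hf
  rw [hsum, ← card_eq_sum_fib] at h5
  omega

/-- The lower bound for all `h`. -/
theorem lower_rs {p q : ℕ} [Fact p.Prime] [Fact q.Prime] (A : Finset (ZMod p × ZMod q))
    (h : ℕ) (h1 : 1 ≤ h) (h2 : h < A.card) :
    min p (h * (A.card - h) + 1 - delta q A.card h) ≤ (rs A h).card := by
  rcases le_or_gt (2 * h) A.card with h3 | h3
  · exact lower_rs_half A h h1 h3
  · have h4 := lower_rs_half A (A.card - h) (by omega) (by omega)
    rw [delta_symm q A.card h (Fact.out : q.Prime).pos h2.le,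
      card_rs_compl A (h := h) (k := A.card - h) (by omega),
      Nat.sub_sub_self h2.le, mul_comm] at h4
    exact h4

end W09h33
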