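import Pool.Agent.W_MP_09e4ca_h33.Core

/-!
# Strict lower bound for the unrestricted values, first half
-/

namespace W09h33

open Finset

/-- one column -/
theorem lowU1_col (x b : ℕ) (h : x ≤ b) : x * (b - 1) = x * (b - x) + x * (x - 1) := by
  rcases Nat.eq_zero_or_pos x with h0 | h0
  · subst h0; simp
  · obtain ⟨c, rfl⟩ := Nat.exists_eq_add_of_le h
    rw [Nat.add_sub_cancel_left, ← mul_add]
    congr 1
    omega

/-- an admissible vector, two values -/
theorem lowU1_sum {q : ℕ} [NeZero q] (a j : ZMod q → ℕ) (hj : ∀ t, j t ≤ a t) :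
    ∑ t, j t * (a t - 1) = g a j + ∑ t, j t * (j t - 1) := by
  unfold g
  rw [← Finset.sum_add_distrib]
  exact Finset.sum_congr rfl fun t _ => lowU1_col _ _ (hj t)

/-- the last estimate -/
theorem lowU1_arith (q h k c0 δ m : ℕ) (hk : k < h) (hhq : h < q) (hm : m = q * c0 + k)
    (h2 : 2 * h ≤ m) (hδ : (q - h) * (h - k) = δ + (q - 1)) :
    h * (m - h) + 2 ≤ q * (1 + h * c0) + δ := by
  obtain ⟨u, rfl⟩ := Nat.exists_eq_add_of_lt hk
  obtain ⟨v, rfl⟩ := Nat.exists_eq_add_of_lt hhq
  have e1 : k + u + 1 + v + 1 - (k + u + 1) = v + 1 := by omega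
  have e2 : k + u + 1 - k = u + 1 := by omega
  have e3 : k + u + 1 + v + 1 - 1 = k + u + 1 + v := by omega
  rw [e1, e2, e3] at hδ
  obtain ⟨w, hw⟩ : ∃ w, m = (k + u + 1) + w := Nat.exists_eq_add_of_le (by omega)
  have e4 : m - (k + u + 1) = w := by omega
  rw [e4]
  have e5 : (k + u + 1) + w = (k + u + 1 + v + 1) * c0 + k := by rw [← hw, hm]
  zify at hδ e5 ⊢
  have e6 : (w : ℤ) = (k + u + 1 + v + 1) * c0 - u - 1 := by linarith
  rw [e6]
  nlinarith

/-- Strict version of `total_ge` for the unrestricted values, `2 h ≤ m`.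

Proof. Write `k = m % q`, `G* = max` of `g a i` over admissible `i` (`i ≤ a`, `∑ i = h`; there are such `i`,
e.g. from `exists_rho`), attained at `i` (choose `i` by `exists_max_image` or well-foundedness). For an
admissible `j`, `∑ j (a - 1) = g a j + ∑ j (j - 1)` (for `j_t ≥ 1`, `j_t (a_t - 1) = j_t (a_t - j_t) + j_t (j_t - 1)`; `j_t ≠ 0`
implies `a_t > 0`), so `F` satisfies `Fits a h F`.

(I) If there is a class `c` with `F c ≥ G* + 2`: let `f = F` except `f c = F c - 1`. Then `Fits a h f`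
(for `j` of class `c`, `1 + g a j ≤ 1 + G* ≤ F c - 1`), so `total_ge` gives
`h (m - h) + 1 ≤ ∑ f + δ = ∑ F - 1 + δ`. Done.

(II) If some `i_t ≥ 2`: `F (cls i) ≥ 1 + g a i + ∑ i (i - 1) ≥ G* + 3`. Done by (I).

(III) Otherwise `i_t ≤ 1` for all `t`; `S = {t : i_t = 1}`, `|S| = h ≤ q`, `G* = ∑_{t ∈ S} (a_t - 1)`. Let `t₀` be a column of maximal
size `M = a t₀ ≥ 1`. The vector `j = h` at `t₀` and `0` elsewhere gives `F (cls j) ≥ 1 + h (M - 1)`. If some `a_t < M`,
`t ∈ S`, then `h (M - 1) ≥ G* + 1`, done by (I). So `a_t = M` on `S`, `G* = h (M - 1)`.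
 * `h ≥ q`: then `h = q`, `S` is everything, `a` is constant `= M`, `m = q M`. Every class `c` is `cls` of
   `j = (h - 1) e_0 + e_c`, so `F c ≥ 1 + h (M - 1)` for all `c` and
   `∑ F ≥ q (1 + q (M - 1))`, while `h (m - h) + 2 - δ = q (q M - q) + 2 - (q - 1)` (`δ = q - 1`, as `m % q = h % q = 0`). OK.
 * `h < q`: then `0 < k < h` by `hc`. Let `m = q c + k`; `M ≥ c + 1` because `q M ≥ m > q c`. Here `h % q = h > k`,
   `rho = (q - h) (h - k)`, `δ = rho - (q - 1)`. Apply `core` to `F`:
   first alternative: `h (m - h) + 1 ≤ ∑ F`, and `δ ≥ 1`: done. Third alternative: `h = q x ≥ q`, impossible.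
   Second alternative: all `F c ≥ 1 + G* = 1 + h (M - 1) ≥ 1 + h c`, so `∑ F ≥ q (1 + h c)`, while in integers
   `h (m - h) + 2 - δ = h (q c + k - h) + 2 - (q - h) (h - k) + q - 1 = h q c + q + 1 - q (h - k) ≤ q (1 + h c)`,
   as `h - k ≥ 1` and `q ≥ 1`. Done. -/
theorem total_gt {q : ℕ} [Fact q.Prime] (a : ZMod q → ℕ) (h : ℕ) (h1 : 1 ≤ h)
    (h2 : 2 * h ≤ ∑ t, a t) (hd : 0 < delta q (∑ t, a t) h)
    (hc : q ≤ h ∨ (0 < (∑ t, a t) % q ∧ (∑ t, a t) % q < h)) (F : ZMod q → ℕ)
    (hF : ∀ j : ZMod q → ℕ, (∀ t, j t ≠ 0 → 0 < a t) → ∑ t, j t = h →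
      1 + ∑ t, j t * (a t - 1) ≤ F (cls j)) :
    h * (∑ t, a t - h) + 2 ≤ ∑ c, F c + delta q (∑ t, a t) h := by
  classical
  have hq : 1 < q := (Fact.out : q.Prime).one_lt
  have : NeZero q := ⟨by omega⟩
  have hpos : ∀ j : ZMod q → ℕ, (∀ t, j t ≤ a t) → ∀ t, j t ≠ 0 → 0 < a t := by
    intro j hj t ht
    have := hj t
    omega
  have hFits : Fits a h F := by
    intro j hj hjs
    have h3 := hF j (hpos j hj) hjs
    rw [lowU1_sum a j hj] at h3
    omega
  -- the maximum
  obtain ⟨i0, hi0a, hi0s, -⟩ := exists_rho a h h1 h2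
  let Ad : Finset (ZMod q → ℕ) := (Fintype.piFinset fun t => Finset.range (a t + 1)).filter
    fun j => ∑ t, j t = h
  have hAd : ∀ j, j ∈ Ad ↔ (∀ t, j t ≤ a t) ∧ ∑ t, j t = h := by
    intro j
    simp only [Ad, Finset.mem_filter, Fintype.mem_piFinset, Finset.mem_range, Nat.lt_succ_iff]
  obtain ⟨i, hi, himax⟩ := Finset.exists_max_image Ad (fun j => g a j) ⟨i0, (hAd i0).2 ⟨hi0a, hi0s⟩⟩
  rw [hAd] at hi
  obtain ⟨hia, his⟩ := hi
  have hmax : ∀ j : ZMod q → ℕ, (∀ t, j t ≤ a t) → ∑ t, j t = h → g a j ≤ g a i :=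
    fun j hj hjs => himax j ((hAd j).2 ⟨hj, hjs⟩)
  -- (I)
  have hI : (∃ c, g a i + 2 ≤ F c) → h * (∑ t, a t - h) + 2 ≤ ∑ c, F c + delta q (∑ t, a t) h := by
    rintro ⟨c, hc⟩
    have h3 := total_ge a h h1 h2 (Function.update F c (F c - 1)) (by
      intro j hj hjs
      by_cases hjc : cls j = c
      · rw [hjc, Function.update_self]
        have := hmax j hj hjs
        omega
      · rw [Function.update_of_ne hjc]
        exact hFits j hj hjs)
    have h4 : ∑ x, Function.update F c (F c - 1) x + 1 = ∑ x, F x := by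
      rw [Finset.sum_update_of_mem (Finset.mem_univ c), ← Finset.add_sum_erase _ F (Finset.mem_univ c),
        Finset.sdiff_singleton_eq_erase]
      omega
    omega
  by_cases hII : ∃ t, 2 ≤ i t
  · apply hI
    refine ⟨cls i, ?_⟩
    have h3 := hF i (hpos i hia) his
    rw [lowU1_sum a i hia] at h3
    obtain ⟨t, ht⟩ := hII
    have h4 : i t * (i t - 1) ≤ ∑ t, i t * (i t - 1) :=
      Finset.single_le_sum (f := fun t => i t * (i t - 1)) (fun _ _ => Nat.zero_le _)
        (Finset.mem_univ t)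
    have h5 : 2 * 1 ≤ i t * (i t - 1) := Nat.mul_le_mul ht (by omega)
    omega
  push Not at hII
  -- (III)
  obtain ⟨S, hS⟩ : ∃ S : Finset (ZMod q), S = univ.filter fun t => i t = 1 := ⟨_, rfl⟩
  have hmS : ∀ t, t ∈ S ↔ i t = 1 := by
    intro t
    rw [hS, Finset.mem_filter]
    exact ⟨fun h => h.2, fun h => ⟨Finset.mem_univ _, h⟩⟩
  have hi01 : ∀ t, i t = if t ∈ S then 1 else 0 := by
    intro t
    split_ifs with h3
    · exact (hmS t).1 h3
    · have h4 := hII t
      rw [hmS] at h3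
      omega
  have hSc : S.card = h := by
    rw [← his, Finset.sum_congr rfl fun t _ => hi01 t, Finset.sum_ite_mem, Finset.univ_inter,
      Finset.card_eq_sum_ones]
  have hSq : S.card ≤ q := by
    have := Finset.card_le_univ S
    rwa [ZMod.card] at this
  have haS : ∀ t ∈ S, 1 ≤ a t := by
    intro t ht
    have h3 := hia t
    rw [(hmS t).1 ht] at h3
    exact h3
  have hG : g a i = ∑ t ∈ S, (a t - 1) := by
    unfold g
    rw [← Finset.univ_inter S, ← Finset.sum_ite_mem]
    refine Finset.sum_congr rfl fun t _ => ?_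
    rw [hi01 t]
    split_ifs <;> simp
  obtain ⟨t0, -, ht0⟩ := Finset.exists_max_image (univ : Finset (ZMod q)) a ⟨0, Finset.mem_univ _⟩
  obtain ⟨M, hM⟩ : ∃ M, M = a t0 := ⟨_, rfl⟩
  have haM : ∀ t, a t ≤ M := fun t => by rw [hM]; exact ht0 t (Finset.mem_univ t)
  have hM1 : 1 ≤ M := by
    by_contra h3
    have h4 : ∑ t, a t = 0 := Finset.sum_eq_zero fun t _ => by
      have := haM t
      omega
    omega
  have hFM : 1 + h * (M - 1) ≤ F (cls (Pi.single t0 h)) := by
    have h3 := hF (Pi.single t0 h) (by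
      intro t ht
      have h4 : t = t0 := by
        by_contra h5
        apply ht
        rw [Pi.single_eq_of_ne h5]
      rw [h4, ← hM]
      omega) (by rw [Finset.sum_pi_single']; simp)
    refine le_trans (le_of_eq ?_) h3
    congr 1
    rw [Finset.sum_eq_single t0]
    · rw [Pi.single_eq_same, ← hM]
    · intro t _ ht
      rw [Pi.single_eq_of_ne ht, zero_mul]
    · intro h4
      exact absurd (Finset.mem_univ _) h4
  by_cases hlt : ∃ t ∈ S, a t < M
  · apply hI
    refine ⟨_, le_trans ?_ hFM⟩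
    obtain ⟨t, ht, hta⟩ := hlt
    have h3 : ∑ t ∈ S, (a t - 1) < ∑ _t ∈ S, (M - 1) := by
      refine Finset.sum_lt_sum (fun s _ => ?_) ⟨t, ht, ?_⟩
      · have := haM s
        omega
      · have := haS t ht
        omega
    rw [Finset.sum_const, smul_eq_mul, hSc] at h3
    rw [hG]
    omega
  push Not at hlt
  have haS' : ∀ t ∈ S, a t = M := fun t ht => le_antisymm (haM t) (hlt t ht)
  have hG' : g a i = h * (M - 1) := by
    rw [hG, Finset.sum_congr rfl fun t ht => by rw [haS' t ht], Finset.sum_const, smul_eq_mul, hSc]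
  rcases Nat.lt_or_ge h q with hhq | hhq
  · -- `h < q`
    obtain ⟨hk0, hkh⟩ := hc.resolve_left (not_le.2 hhq)
    obtain ⟨k, hk⟩ : ∃ k, k = (∑ t, a t) % q := ⟨_, rfl⟩
    obtain ⟨c0, hc0⟩ : ∃ c0, c0 = (∑ t, a t) / q := ⟨_, rfl⟩
    have hm : ∑ t, a t = q * c0 + k := by rw [hk, hc0]; exact (Nat.div_add_mod _ _).symm
    rw [← hk] at hk0 hkh
    have hMc : c0 + 1 ≤ M := by
      by_contra h3
      have h4 : M ≤ c0 := by omega
      have h5 : ∑ t, a t ≤ q * c0 := by
        calc ∑ t, a t ≤ ∑ _t : ZMod q, c0 := Finset.sum_le_sum fun t _ => (haM t).trans h4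
          _ = q * c0 := by rw [Finset.sum_const, Finset.card_univ, ZMod.card, smul_eq_mul]
      omega
    have hhm : h % q = h := Nat.mod_eq_of_lt hhq
    have hδ : delta q (∑ t, a t) h = (q - h) * (h - k) - (q - 1) := by
      unfold delta rho
      rw [hhm, ← hk, if_neg (by omega), if_neg (by omega)]
    rcases core a h h1 h2 F hFits with h3 | h3 | ⟨x, z, hx, -, hh, -⟩
    · omega
    · have h4 : ∀ c, 1 + h * c0 ≤ F c := by
        intro c
        refine le_trans ?_ (h3 c i hia his)
        rw [hG']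
        have h5 : h * c0 ≤ h * (M - 1) := Nat.mul_le_mul_left _ (by omega)
        omega
      have h5 : q * (1 + h * c0) ≤ ∑ c, F c := by
        calc q * (1 + h * c0) = ∑ _c : ZMod q, (1 + h * c0) := by
              rw [Finset.sum_const, Finset.card_univ, ZMod.card, smul_eq_mul]
          _ ≤ _ := Finset.sum_le_sum fun c _ => h4 c
      have h6 := lowU1_arith q h k c0 (delta q (∑ t, a t) h) (∑ t, a t) hkh hhq hm h2 (by
        rw [hδ] at hd ⊢
        omega)
      omega
    · exfalso
      have h4 : q * 1 ≤ q * x := Nat.mul_le_mul_left _ hx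
      omega
  · -- `h = q`
    have hhq' : h = q := by omega
    have hSu : S = univ := by
      rw [← Finset.card_eq_iff_eq_univ, ZMod.card]
      omega
    have haM' : ∀ t, a t = M := fun t => haS' t (by rw [hSu]; exact Finset.mem_univ t)
    have hm : ∑ t, a t = q * M := by
      rw [Finset.sum_congr rfl fun t _ => haM' t, Finset.sum_const, Finset.card_univ, ZMod.card,
        smul_eq_mul]
    have h4 : ∀ c, 1 + q * (M - 1) ≤ F c := by
      intro c
      have h3 := hF (Pi.single 0 (h - 1) + Pi.single c 1) (by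
        intro t _
        rw [haM' t]
        omega) (by
        simp only [Pi.add_apply, Finset.sum_add_distrib, Finset.sum_pi_single', Finset.mem_univ,
          if_true]
        omega)
      have h5 : cls (Pi.single (0 : ZMod q) (h - 1) + Pi.single c 1) = c := by
        unfold cls
        have h6 : ∀ t : ZMod q, (((Pi.single (0 : ZMod q) (h - 1) + Pi.single c 1 :
            ZMod q → ℕ) t : ℕ) : ZMod q) * t = if t = c then c else 0 := by
          intro t
          rw [Pi.add_apply]
          by_cases ht0 : t = 0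
          · subst ht0
            by_cases hc0 : (0 : ZMod q) = c
            · rw [if_pos hc0, mul_zero, hc0]
            · rw [if_neg hc0, mul_zero]
          · rw [Pi.single_eq_of_ne ht0, zero_add]
            by_cases htc : t = c
            · subst htc
              rw [Pi.single_eq_same, if_pos rfl, Nat.cast_one, one_mul]
            · rw [Pi.single_eq_of_ne htc, if_neg htc, Nat.cast_zero, zero_mul]
        rw [Finset.sum_congr rfl fun t _ => h6 t, Finset.sum_ite_eq' , if_pos (Finset.mem_univ c)]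
      rw [h5] at h3
      refine le_trans (le_of_eq ?_) h3
      congr 1
      have h7 : ∀ t ∈ (univ : Finset (ZMod q)), (Pi.single (0 : ZMod q) (h - 1) + Pi.single c 1 :
            ZMod q → ℕ) t * (a t - 1) = (Pi.single (0 : ZMod q) (h - 1) + Pi.single c 1 :
            ZMod q → ℕ) t * (M - 1) := fun t _ => by rw [haM' t]
      rw [Finset.sum_congr rfl h7, ← Finset.sum_mul]
      congr 1
      simp only [Pi.add_apply, Finset.sum_add_distrib, Finset.sum_pi_single', Finset.mem_univ,
        if_true]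
      omega
    have h5 : q * (1 + q * (M - 1)) ≤ ∑ c, F c := by
      calc q * (1 + q * (M - 1)) = ∑ _c : ZMod q, (1 + q * (M - 1)) := by
            rw [Finset.sum_const, Finset.card_univ, ZMod.card, smul_eq_mul]
        _ ≤ _ := Finset.sum_le_sum fun c _ => h4 c
    have hδ : delta q (∑ t, a t) h = q - 1 := by
      unfold delta
      rw [if_pos ⟨by rw [hm]; exact Nat.mul_mod_right _ _, by rw [hhq']; exact Nat.mod_self q⟩]
    rw [hδ, hm, hhq']
    obtain ⟨M', rfl⟩ : ∃ M', M = M' + 1 := ⟨M - 1, by omega⟩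
    rw [Nat.add_sub_cancel] at h5
    have e1 : q * (M' + 1) - q = q * M' := by
      rw [mul_add, mul_one, Nat.add_sub_cancel]
    rw [e1]
    have e2 : q * (1 + q * M') = q + q * (q * M') := by ring
    omega

end W09h33
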