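import Mathlib

/-!
# An arithmetic lemma for `n = 2p`, `m = p + 1`
-/

namespace W09h33

theorem PB1_low (p a b h j : ℤ) (hp : 7 ≤ p) (hab : a + b = p + 1) (hD : 8 ≤ p ∨ 2 ≤ a - b)
    (h3 : 3 ≤ h) (h2 : 2 * h ≤ p + 1) (hj1 : -4 ≤ 4 * j - (2 * h - a + b))
    (hj2 : 4 * j - (2 * h - a + b) ≤ 4) :
    p ≤ 1 + (h - j) * (a - (h - j)) + j * (b - j) := by
  have k : 8 * ((h - j) * (a - (h - j)) + j * (b - j)) =
      4 * (h * (a + b - h)) + (a - b) ^ 2 - (4 * j - (2 * h - a + b)) ^ 2 := by ring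
  rw [hab] at k
  have h4 : 3 * (p - 2) ≤ h * (p + 1 - h) := by
    have h5 : 0 ≤ (h - 3) * (p - 2 - h) := mul_nonneg (by linarith) (by linarith)
    linarith [h5]
  have h5 : (4 * j - (2 * h - a + b)) ^ 2 ≤ 16 := by
    have h6 : 0 ≤ (4 * j - (2 * h - a + b) + 4) * (4 - (4 * j - (2 * h - a + b))) :=
      mul_nonneg (by linarith) (by linarith)
    linarith [h6]
  have h6 : 32 ≤ 4 * p + (a - b) ^ 2 := by
    rcases hD with h7 | h7
    · have := sq_nonneg (a - b)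
      linarith
    · have h8 : 0 ≤ (a - b - 2) * (a - b + 2) := mul_nonneg (by linarith) (by linarith)
      linarith [h8]
  linarith

/-- Two consecutive splittings `h = (h - j) + j` are both good.

Proof. Let `D = a - b ≥ 0`, `E = 2 h - D` (integers), so `a = (p + 1 + D) / 2`, and
`φ(j) = (h - j) (a - h + j) + j (b - j) = h (a - h) + j E - 2 j^2`.
If `E ≤ 0` take `j = 0`: `a - h ≥ (p + 1) / 2` so `φ(0) ≥ 3 (p + 1) / 2 ≥ p - 1`; and with `D = 2 h + D'`, `D' ≥ 0`,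
`φ(1) = h ((p + 1) + D') / 2 - D' - 2 ≥ 3 (p + 1) / 2 - 2 ≥ p - 1`. (`a ≥ h` here, `1 ≤ b`, `1 ≤ h`.)
If `E > 0`: `φ(j) = h (p + 1 - h) / 2 + D^2 / 8 - 2 (j - E / 4)^2`. Take `j = ⌊E / 4⌋`, unless `E/4` is closer to the
left, i.e. choose `j ≥ 0` with both `j`, `j + 1` within distance `1` of `E / 4` (`j = ⌊E/4⌋` always satisfies this).
Since `2 h ≤ p + 1`, `E / 4 ≤ (p + 1 - D) / 4 = b / 2`, so `j + 1 ≤ b / 2 + 1`, hence `j + 1 ≤ b` if `b ≥ 2`, and if
`b = 1`, `E / 4 ≤ 1 / 2`, `j = 0`, fine. `j + 1 ≤ E / 4 + 1 ≤ h / 2 + 1 ≤ h`. And `h - j ≤ a`, as `2 h ≤ p + 1 ≤ 2 a`. The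
loss is at most `2`: `φ ≥ h (p + 1 - h) / 2 + D^2 / 8 - 2`, where `h (p + 1 - h) ≥ 3 (p - 2)` (concavity, `3 ≤ h ≤ (p + 1) / 2`),
so `φ ≥ 3 (p - 2) / 2 - 2 ≥ p - 1` for `p ≥ 8`. For `p = 7` (`a + b = 8`, `h ∈ {3, 4}`): check the finitely many cases
(`interval_cases`, `decide`). Numerically verified for all `7 ≤ p < 60`. -/
theorem pb1 (p a b h : ℕ) (hp : 7 ≤ p) (hab : a + b = p + 1) (hb : 1 ≤ b) (hba : b ≤ a)
    (h3 : 3 ≤ h) (h2 : 2 * h ≤ p + 1) :
    ∃ j, j + 1 ≤ b ∧ j + 1 ≤ h ∧ h - j ≤ a ∧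
      p ≤ 1 + (h - j) * (a - (h - j)) + j * (b - j) ∧
      p ≤ 1 + (h - (j + 1)) * (a - (h - (j + 1))) + (j + 1) * (b - (j + 1)) := by
  rcases le_or_gt (2 * h + b) a with hE | hE
  · refine ⟨0, by omega, by omega, by omega, ?_, ?_⟩
    · have h4 : p + 1 ≤ 2 * (a - h) := by omega
      have h5 : 3 * (a - h) ≤ h * (a - h) := Nat.mul_le_mul_right _ h3
      simp only [Nat.sub_zero, Nat.zero_mul, Nat.add_zero]
      omega
    · have h4 : p + 3 ≤ 2 * (a - (h - 1)) := by omega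
      have h5 : 2 * (a - (h - 1)) ≤ (h - 1) * (a - (h - 1)) := Nat.mul_le_mul_right _ (by omega)
      simp only [Nat.zero_add]
      omega
  · by_cases hD : 8 ≤ p ∨ 2 ≤ (a : ℤ) - b
    · obtain ⟨j, hj1, hj2⟩ : ∃ j, 4 * j ≤ 2 * h + b - a ∧ 2 * h + b - a < 4 * j + 4 :=
        ⟨(2 * h + b - a) / 4, by omega, by omega⟩
      have hjb : j + 1 ≤ b := by omega
      have hjh : j + 1 ≤ h := by omega
      refine ⟨j, hjb, hjh, by omega, ?_, ?_⟩
      · have h1 := PB1_low p a b h j (by omega) (by omega) (by omega) (by omega) (by omega) (by omega)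
          (by omega)
        have h4 : ((1 + (h - j) * (a - (h - j)) + j * (b - j) : ℕ) : ℤ) =
            1 + ((h : ℤ) - j) * (a - (h - j)) + j * (b - j) := by
          push_cast [Nat.cast_sub (show j ≤ h by omega), Nat.cast_sub (show h - j ≤ a by omega),
            Nat.cast_sub (show j ≤ b by omega)]
          ring
        rw [← h4] at h1
        exact_mod_cast h1
      · have h1 := PB1_low p a b h (j + 1) (by omega) (by omega) (by omega) (by omega) (by omega)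
          (by omega) (by omega)
        have h4 : ((1 + (h - (j + 1)) * (a - (h - (j + 1))) + (j + 1) * (b - (j + 1)) : ℕ) : ℤ) =
            1 + ((h : ℤ) - (j + 1)) * (a - (h - (j + 1))) + (j + 1) * (b - (j + 1)) := by
          push_cast [Nat.cast_sub (show j + 1 ≤ h by omega),
            Nat.cast_sub (show h - (j + 1) ≤ a by omega), Nat.cast_sub (show j + 1 ≤ b by omega)]
          ring
        rw [← h4] at h1
        exact_mod_cast h1
    · push Not at hD
      have hp7 : p = 7 := by omega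
      have ha : a = 4 := by omega
      have hb4 : b = 4 := by omega
      subst hp7 ha hb4
      have hh : h = 3 ∨ h = 4 := by omega
      rcases hh with rfl | rfl
      · exact ⟨1, by decide⟩
      · exact ⟨2, by decide⟩

end W09h33
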