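import Pool.Agent.W_MP_09e4ca_h33.FibR

/-!
# `n = 2p`, `m > p`: restricted sumsets are everything for `3 ≤ h ≤ m - 3`
-/

namespace W09h33

open Finset

/-- If all fibres are full the set is everything. -/
theorem eq_univ_of_fib {p q : ℕ} [NeZero p] [NeZero q] (S : Finset (ZMod p × ZMod q))
    (hc : ∀ c, p ≤ (fib S c).card) : S = univ := by
  rw [eq_univ_iff_forall]
  rintro ⟨x, c⟩
  have h1 : fib S c = univ := by
    apply eq_univ_of_card
    apply le_antisymm (card_le_univ _)
    rw [ZMod.card]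
    exact hc c
  rw [← mem_fib, h1]
  exact mem_univ x

/-- The size of a fibre is at most `p`. -/
theorem card_fib_le {p q : ℕ} [NeZero p] (S : Finset (ZMod p × ZMod q)) (c : ZMod q) :
    (fib S c).card ≤ p := by
  have h1 := card_le_univ (fib S c)
  rwa [ZMod.card] at h1

/-- `q = 2`: if for both parities there is a splitting with full value, `rs A h` is everything.

Proof. `fib_rs` for `i = fun t => if t = 0 then h - j else j` (`cls i = j` mod `2`, `∑ i = h`), and
`g a i = (h - j) (a 0 - (h - j)) + j (a 1 - j)` (`Fin.sum_univ_two`; `ZMod 2` is `Fin 2`), then `eq_univ_of_fib`. -/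
theorem full_of_splits {p : ℕ} [Fact p.Prime] (A : Finset (ZMod p × ZMod 2)) (h : ℕ)
    (hs : ∀ e : ZMod 2, ∃ j : ℕ, (j : ZMod 2) = e ∧ j ≤ h ∧ h - j ≤ (fib A 0).card ∧
      j ≤ (fib A 1).card ∧
      p ≤ 1 + (h - j) * ((fib A 0).card - (h - j)) + j * ((fib A 1).card - j)) :
    rs A h = univ := by
  have hp : p.Prime := Fact.out
  have : NeZero p := ⟨hp.ne_zero⟩
  apply eq_univ_of_fib
  intro c
  obtain ⟨j, hj, hjh, h0, h1, h2⟩ := hs c
  have huniv : ∀ F : ZMod 2 → ℕ, ∑ t, F t = F 0 + F 1 := fun F => Fin.sum_univ_two F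
  have huniv' : ∀ F : ZMod 2 → ZMod 2, ∑ t, F t = F 0 + F 1 := fun F => Fin.sum_univ_two F
  have h10 : (1 : ZMod 2) ≠ 0 := by decide
  have hall : ∀ t : ZMod 2, t = 0 ∨ t = 1 := by decide
  obtain ⟨i, hi⟩ : ∃ i : ZMod 2 → ℕ, i = fun t => if t = 0 then h - j else j := ⟨_, rfl⟩
  have hi0 : i 0 = h - j := by
    rw [hi]
    exact if_pos rfl
  have hi1 : i 1 = j := by
    rw [hi]
    exact if_neg h10
  have hle : ∀ t, i t ≤ (fib A t).card := by
    intro t
    rcases hall t with rfl | rfl
    · rw [hi0]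
      exact h0
    · rw [hi1]
      exact h1
  have hsum : ∑ t, i t = h := by
    rw [huniv, hi0, hi1]
    omega
  have hcls : cls i = c := by
    unfold cls
    rw [huniv', hi0, hi1, mul_zero, zero_add, mul_one, hj]
  have hg : g (fun t => (fib A t).card) i =
      (h - j) * ((fib A 0).card - (h - j)) + j * ((fib A 1).card - j) := by
    unfold g
    rw [huniv, hi0, hi1]
  have h3 := fib_rs A i h hle hsum
  rw [hcls, hg, min_eq_left (by omega)] at h3
  exact h3

end W09h33
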