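import Pool.Agent.W_MP_09e4ca_h33.PB1
import Pool.Agent.W_MP_09e4ca_h33.PB2

/-!
# `n = 2p`, `m > p`: restricted sumsets are everything for `3 ≤ h ≤ m - 3`
-/

namespace W09h33

open Finset

theorem zmod2_cases (x e : ZMod 2) : x = e ∨ x + 1 = e := by
  revert x e; decide

theorem card_two {p : ℕ} (A : Finset (ZMod p × ZMod 2)) :
    A.card = (fib A 0).card + (fib A 1).card := by
  rw [card_eq_sum_fib]
  exact Fin.sum_univ_two _

/-- `m = p + 1`, `p ≥ 7`, `3 ≤ h ≤ m / 2`.

Proof. `a = |A_0|`, `b = |A_1|`, `a + b = p + 1` (`card_eq_sum_fib`), `a, b ≤ p` so `a, b ≥ 1`. If `b ≤ a` use `pb1` and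
`full_of_splits` with `j`, `j + 1` (one of them has the right parity). If `a < b` use `pb1` with `a`, `b` exchanged, and
`full_of_splits` with `h - j`, `h - (j + 1)`. -/
theorem full_two {p : ℕ} [Fact p.Prime] (hp : 7 ≤ p) (A : Finset (ZMod p × ZMod 2)) (h : ℕ)
    (hA : A.card = p + 1) (h3 : 3 ≤ h) (h2 : 2 * h ≤ p + 1) : rs A h = univ := by
  have hab := card_two A
  have ha := card_fib_le A 0
  have hb := card_fib_le A 1
  rw [hA] at hab
  rcases le_total (fib A 1).card (fib A 0).card with hle | hle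
  · obtain ⟨j, hj1, hj2, hj3, hj4, hj5⟩ := pb1 p (fib A 0).card (fib A 1).card h hp hab.symm
      (by omega) hle h3 h2
    refine full_of_splits A h fun e => ?_
    rcases zmod2_cases (j : ZMod 2) e with he | he
    · exact ⟨j, he, by omega, hj3, by omega, hj4⟩
    · exact ⟨j + 1, by push_cast; exact he, hj2, by omega, hj1, hj5⟩
  · obtain ⟨j, hj1, hj2, hj3, hj4, hj5⟩ := pb1 p (fib A 1).card (fib A 0).card h hp
      (by omega) (by omega) hle h3 h2
    refine full_of_splits A h fun e => ?_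
    have e1 : h - (h - j) = j := by omega
    have e2 : h - (h - (j + 1)) = j + 1 := by omega
    have e3 : h - j = (h - (j + 1)) + 1 := by omega
    rcases zmod2_cases ((h - (j + 1) : ℕ) : ZMod 2) e with he | he
    · refine ⟨h - (j + 1), he, by omega, by omega, by omega, ?_⟩
      rw [e2]
      omega
    · refine ⟨h - j, by rw [e3]; push_cast; exact he, by omega, by omega, by omega, ?_⟩
      rw [e1]
      omega

/-- `p = 5`, `m = 7`, `h = 3`.

Proof. `{|A_0|, |A_1|} = {5, 2}` or `{4, 3}`. `(4, 3)`: splittings `(2, 1)`: `1 + 4 + 2 ≥ 5`, `(1, 2)`: `1 + 3 + 2 ≥ 5`.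
`(5, 2)`: `(2, 1)`: `1 + 6 + 1`, `(3, 0)`: `1 + 6`. Similarly with the two columns exchanged. Use `full_of_splits`. -/
theorem full_two_five (A : Finset (ZMod 5 × ZMod 2)) (hA : A.card = 7) :
    rs A 3 = univ := by
  have : Fact (Nat.Prime 5) := ⟨by norm_num⟩
  have hab := card_two A
  have ha := card_fib_le A 0
  have hb := card_fib_le A 1
  rw [hA] at hab
  refine full_of_splits A 3 fun e => ?_
  rcases zmod2_cases ((1 : ℕ) : ZMod 2) e with he | he
  · refine ⟨1, he, by omega, by omega, by omega, ?_⟩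
    have h5 : (fib A 0).card = 2 ∨ (fib A 0).card = 3 ∨ (fib A 0).card = 4 ∨
      (fib A 0).card = 5 := by omega
    rcases h5 with h5 | h5 | h5 | h5 <;>
    · have h6 : (fib A 1).card = 7 - (fib A 0).card := by omega
      simp [h6, h5]
  · refine ⟨2, by rw [← he]; rfl, by omega, by omega, by omega, ?_⟩
    have h5 : (fib A 0).card = 2 ∨ (fib A 0).card = 3 ∨ (fib A 0).card = 4 ∨
      (fib A 0).card = 5 := by omega
    rcases h5 with h5 | h5 | h5 | h5 <;>
    · have h6 : (fib A 1).card = 7 - (fib A 0).card := by omega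
      simp [h6, h5]

end W09h33
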