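import Pool.Agent.W_MP_09e4ca_h33.Col
import Pool.Agent.W_MP_09e4ca_h33.Ineq

/-!
# The special case `R = P = K`
-/

namespace W09h33

open Finset
open scoped Pointwise

theorem Spec_mem {ι : Type*} [Fintype ι] [DecidableEq ι] (a : ι → ℕ) (y : ℕ)
    (hPK : P a y = K a) {u : ι} (hu : u ∈ K a) : (a u - y) % 2 = 1 := by
  rw [← hPK] at hu
  unfold P at hu
  exact (mem_filter.1 hu).2

theorem Spec_top {ι : Type*} [Fintype ι] [DecidableEq ι] (a : ι → ℕ) (y : ℕ)
    (hPK : P a y = K a) {u : ι} (hu : u ∈ K a) :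
    1 ≤ top a y (K a) u ∧ a u + 1 = y + 2 * top a y (K a) u := by
  have h1 := Spec_mem a y hPK hu
  unfold top lo
  rw [if_pos hu]
  omega

theorem Spec_not {ι : Type*} [Fintype ι] [DecidableEq ι] (a : ι → ℕ) (y : ℕ) {u : ι}
    (hu : u ∉ K a) : a u = 0 ∧ top a y (K a) u = 0 := by
  have h1 : a u = 0 := by
    by_contra h
    apply hu
    unfold K
    exact mem_filter.2 ⟨mem_univ _, Nat.pos_of_ne_zero h⟩
  refine ⟨h1, ?_⟩
  unfold top lo
  rw [if_neg hu, h1]
  simp

/-- In the special case `P = K ≠ ∅`, `h = ∑ lo + |K| ≤ m / 2`, the threshold `y` is positive.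

Proof. If `y = 0`: for `t ∈ K = P a 0`, `a t` is odd and `lo + 1 = (a t + 1) / 2`, outside `K` `a t = lo = 0`,
so `2 h = ∑ a + |K| > ∑ a`. -/
theorem spec_y_pos {ι : Type*} [Fintype ι] [DecidableEq ι] (a : ι → ℕ) (y h : ℕ)
    (hPK : P a y = K a) (hne : (K a).Nonempty) (hh : ∑ t, lo a y t + (K a).card = h)
    (h2 : 2 * h ≤ ∑ t, a t) : 1 ≤ y := by
  by_contra hy
  have hy0 : y = 0 := by omega
  subst hy0
  have h1 : ∀ t, a t = 2 * lo a 0 t + (if t ∈ K a then 1 else 0) := by
    intro t
    by_cases ht : t ∈ K a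
    · have h3 := Spec_mem a 0 hPK ht
      rw [if_pos ht]
      unfold lo
      omega
    · have h3 := (Spec_not a 0 ht).1
      rw [if_neg ht]
      unfold lo
      omega
  have h3 : ∑ t, a t = 2 * ∑ t, lo a 0 t + (K a).card := by
    rw [sum_congr rfl (fun t _ => h1 t), sum_add_distrib, ← mul_sum, sum_boole]
    simp
  have h4 : 0 < (K a).card := card_pos.2 hne
  omega

/-- A move `s → t` costs two.

Proof. With `i = top a y (K a)`, for `u ∈ K`: `a u - y` is odd, `i u = (a u - y + 1) / 2 ≥ 1`,
`a u - i u = y + i u - 1`; `i t + 1 ≤ a t` because `a t = y + 2 * i t - 1` and `y ≥ 1`, `i t ≥ 1`, so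
`a t ≥ 2 * i t ≥ i t + 1`. Column `t`:
`(i t + 1) (a t - i t - 1) - i t (a t - i t) = a t - 2 i t - 1 = y - 2`; column `s`:
`(i s - 1) (a s - i s + 1) - i s (a s - i s) = 2 i s - a s - 1 = - y`. -/
theorem spec_move {ι : Type*} [Fintype ι] [DecidableEq ι] (a : ι → ℕ) (y : ℕ)
    (hPK : P a y = K a) (hy : 1 ≤ y) (s t : ι) (hs : s ∈ K a) (ht : t ∈ K a) (hst : s ≠ t) :
    ∃ j : ι → ℕ, (∀ u, j u ≤ a u) ∧ (∀ u, j u + (if u = s then 1 else 0) =
      top a y (K a) u + (if u = t then 1 else 0)) ∧ g a (top a y (K a)) ≤ g a j + 2 := by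
  obtain ⟨hs1, hs2⟩ := Spec_top a y hPK hs
  obtain ⟨ht1, ht2⟩ := Spec_top a y hPK ht
  set i : ι → ℕ := top a y (K a) with hi
  have hle : ∀ u, i u ≤ a u := by
    intro u
    by_cases hu : u ∈ K a
    · obtain ⟨h3, h4⟩ := Spec_top a y hPK hu
      rw [← hi] at h3 h4
      omega
    · obtain ⟨h3, h4⟩ := Spec_not a y hu
      rw [← hi] at h4
      omega
  refine ⟨fun u => if u = t then i u + 1 else if u = s then i u - 1 else i u, ?_, ?_, ?_⟩
  · intro u
    dsimp only
    split_ifs with h3 h4
    · subst h3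
      omega
    · have := hle u
      omega
    · exact hle u
  · intro u
    dsimp only
    by_cases h3 : u = t
    · subst h3
      rw [if_pos rfl, if_neg (Ne.symm hst), if_pos rfl]
    · rw [if_neg h3, if_neg h3]
      by_cases h4 : u = s
      · subst h4
        rw [if_pos rfl, if_pos rfl]
        omega
      · rw [if_neg h4, if_neg h4]
  · have hterm : ∀ u, ((i u * (a u - i u) : ℕ) : ℤ) =
        (((if u = t then i u + 1 else if u = s then i u - 1 else i u) *
          (a u - (if u = t then i u + 1 else if u = s then i u - 1 else i u)) : ℕ) : ℤ)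
        + ((if u = s then (y : ℤ) else 0) + (if u = t then (2 - y : ℤ) else 0)) := by
      intro u
      have hu := hle u
      by_cases h3 : u = t
      · subst h3
        rw [if_pos rfl, if_neg (Ne.symm hst), if_pos rfl]
        obtain ⟨n, hn⟩ : ∃ n, a u = i u + 1 + n := ⟨a u - (i u + 1), by omega⟩
        have e1 : a u - i u = n + 1 := by omega
        have e2 : a u - (i u + 1) = n := by omega
        have e3 : (y : ℤ) = n + 2 - i u := by
          have : i u + 1 + n + 1 = y + 2 * i u := by omega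
          have h6 : ((i u + 1 + n + 1 : ℕ) : ℤ) = ((y + 2 * i u : ℕ) : ℤ) := by rw [this]
          push_cast at h6
          linarith
        rw [e1, e2, e3]
        push_cast
        ring
      · rw [if_neg h3, if_neg h3]
        by_cases h4 : u = s
        · subst h4
          rw [if_pos rfl, if_pos rfl]
          obtain ⟨m, hm⟩ : ∃ m, i u = m + 1 := ⟨i u - 1, by omega⟩
          obtain ⟨n, hn⟩ : ∃ n, a u = i u + n := ⟨a u - i u, by omega⟩
          have e1 : a u - i u = n := by omega
          have e2 : a u - (i u - 1) = n + 1 := by omega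
          have e0 : i u - 1 = m := by omega
          have e3 : (y : ℤ) = n - m := by
            have : i u + n + 1 = y + 2 * i u := by omega
            have h6 : ((i u + n + 1 : ℕ) : ℤ) = ((y + 2 * i u : ℕ) : ℤ) := by rw [this]
            rw [hm] at h6
            push_cast at h6
            linarith
          rw [e1, e2, e0, e3, hm]
          push_cast
          ring
        · rw [if_neg h4, if_neg h4]
          ring
    have hsum : ((g a i : ℕ) : ℤ) =
        ((g a (fun u => if u = t then i u + 1 else if u = s then i u - 1 else i u) : ℕ) : ℤ) + 2 := by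
      unfold g
      rw [Nat.cast_sum, Nat.cast_sum, sum_congr rfl (fun u _ => hterm u), sum_add_distrib,
        sum_add_distrib]
      simp
    have := hsum
    omega

/-- `G ≥ |K|` in the special case: each `u ∈ K` contributes `i u * (y + i u - 1) ≥ 1`. -/
theorem spec_G_ge {ι : Type*} [Fintype ι] [DecidableEq ι] (a : ι → ℕ) (y : ℕ)
    (hPK : P a y = K a) (hy : 1 ≤ y) : (K a).card ≤ g a (top a y (K a)) := by
  rw [card_eq_sum_ones]
  unfold g
  refine (sum_le_sum (fun u hu => ?_)).trans (sum_le_sum_of_subset (subset_univ (K a)))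
  obtain ⟨h1, h2⟩ := Spec_top a y hPK hu
  have h3 : 1 ≤ a u - top a y (K a) u := by omega
  exact Nat.mul_le_mul h1 h3

end W09h33
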